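import Mathlib

set_option autoImplicit false
open scoped BigOperators ComplexConjugate
open Complex

namespace Pool.H217R3.Hel

/-- wave vectors -/
abbrev Z3 := Fin 3 → ℤ
/-- complex amplitudes -/
abbrev C3 := EuclideanSpace ℂ (Fin 3)

/-- Euclidean length of a wave vector. -/
noncomputable def nm (k : Z3) : ℝ := Real.sqrt (∑ j, (k j : ℝ) ^ 2)

/-- the bilinear product `k · v` -/
noncomputable def kd (k : Z3) (v : C3) : ℂ := ∑ j, (k j : ℂ) * v j

/-- bilinear product -/
noncomputable def dt (v w : C3) : ℂ := ∑ j, v j * w j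

/-- componentwise conjugation -/
noncomputable def cj (v : C3) : C3 := WithLp.toLp 2 (fun j => conj (v j))

/-- `i k × v` -/
noncomputable def crl (k : Z3) (v : C3) : C3 :=
  WithLp.toLp 2 ![I * ((k 1 : ℂ) * v 2 - (k 2 : ℂ) * v 1),
    I * ((k 2 : ℂ) * v 0 - (k 0 : ℂ) * v 2),
    I * ((k 0 : ℂ) * v 1 - (k 1 : ℂ) * v 0)]

/-- truncated nonlinearity -/
noncomputable def B (F : Finset Z3) (u : Z3 → C3) (k : Z3) : C3 :=
  ∑ p ∈ F, (I * kd (k - p) (u p)) • u (k - p)

@[simp] lemma cj_apply (v : C3) (j : Fin 3) : cj v j = conj (v j) := rfl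

lemma cj_cj (v : C3) : cj (cj v) = v := by
  ext j; simp

lemma cj_add (v w : C3) : cj (v + w) = cj v + cj w := by
  ext j; simp

lemma cj_zero : cj (0 : C3) = 0 := by
  ext j; simp

lemma cj_smul (a : ℂ) (v : C3) : cj (a • v) = conj a • cj v := by
  ext j; simp

lemma norm_cj (v : C3) : ‖cj v‖ = ‖v‖ := by
  simp [EuclideanSpace.norm_eq]

lemma inner_cj (v w : C3) : inner ℂ (cj v) (cj w) = conj (inner ℂ v w) := by
  simp [PiLp.inner_apply, map_sum]

lemma inner_eq_dt (v w : C3) : inner ℂ v w = dt w (cj v) := by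
  simp [PiLp.inner_apply, dt]

lemma kd_cj (k : Z3) (v : C3) : kd k (cj v) = conj (kd k v) := by
  simp [kd, map_sum]

lemma kd_neg (k : Z3) (v : C3) : kd (-k) v = - kd k v := by
  simp [kd, Finset.sum_neg_distrib]

lemma crl_cj (k : Z3) (v : C3) : crl (-k) (cj v) = cj (crl k v) := by
  ext j
  fin_cases j <;> simp [crl] <;> ring

lemma crl_zero (k : Z3) : crl k 0 = 0 := by
  ext j
  fin_cases j <;> simp [crl]

lemma nm_nonneg (k : Z3) : 0 ≤ nm k := Real.sqrt_nonneg _

lemma nm_neg (k : Z3) : nm (-k) = nm k := by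
  simp [nm]

lemma nm_sq (k : Z3) : nm k ^ 2 = ∑ j, (k j : ℝ) ^ 2 := by
  rw [nm, Real.sq_sqrt]
  positivity

/-- the triple sum over `p + q + r = 0` -/
noncomputable def S3 (F : Finset Z3) (φ : Z3 → Z3 → Z3 → ℂ) : ℂ :=
  ∑ p ∈ F, ∑ q ∈ F, ∑ r ∈ F, if p + q + r = 0 then φ p q r else 0

lemma S3_swap23 (F : Finset Z3) (φ : Z3 → Z3 → Z3 → ℂ) :
    S3 F φ = S3 F (fun p q r => φ p r q) := by
  unfold S3
  refine Finset.sum_congr rfl fun p _ => ?_
  rw [Finset.sum_comm]
  refine Finset.sum_congr rfl fun q _ => Finset.sum_congr rfl fun r _ => ?_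
  rw [show p + r + q = p + q + r by abel]

lemma S3_swap12 (F : Finset Z3) (φ : Z3 → Z3 → Z3 → ℂ) :
    S3 F φ = S3 F (fun p q r => φ q p r) := by
  unfold S3
  rw [Finset.sum_comm]
  refine Finset.sum_congr rfl fun p _ => Finset.sum_congr rfl fun q _ =>
    Finset.sum_congr rfl fun r _ => ?_
  rw [show q + p + r = p + q + r by abel]

lemma S3_add (F : Finset Z3) (φ ψ : Z3 → Z3 → Z3 → ℂ) :
    S3 F φ + S3 F ψ = S3 F (fun p q r => φ p q r + ψ p q r) := by
  unfold S3
  simp only [← Finset.sum_add_distrib]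
  refine Finset.sum_congr rfl fun p _ => Finset.sum_congr rfl fun q _ =>
    Finset.sum_congr rfl fun r _ => ?_
  split_ifs <;> simp

lemma S3_congr (F : Finset Z3) (φ ψ : Z3 → Z3 → Z3 → ℂ)
    (h : ∀ p ∈ F, ∀ q ∈ F, ∀ r ∈ F, p + q + r = 0 → φ p q r = ψ p q r) : S3 F φ = S3 F ψ := by
  unfold S3
  refine Finset.sum_congr rfl fun p hp => Finset.sum_congr rfl fun q hq =>
    Finset.sum_congr rfl fun r hr => ?_
  split_ifs with h0
  · exact h p hp q hq r hr h0
  · rfl

lemma S3_neg (F : Finset Z3) (φ : Z3 → Z3 → Z3 → ℂ) :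
    S3 F (fun p q r => - φ p q r) = - S3 F φ := by
  unfold S3
  simp only [← Finset.sum_neg_distrib]
  refine Finset.sum_congr rfl fun p _ => Finset.sum_congr rfl fun q _ =>
    Finset.sum_congr rfl fun r _ => ?_
  split_ifs <;> simp

lemma S3_zero (F : Finset Z3) : S3 F (fun _ _ _ => 0) = 0 := by
  simp [S3]

/-- the key identity for changing the pairing with the nonlinearity to a triple sum -/
lemma conv (F : Finset Z3) (hF : ∀ k ∈ F, -k ∈ F) (u w : Z3 → C3) (hu : ∀ k, k ∉ F → u k = 0)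
    (hw : ∀ k, w (-k) = cj (w k)) :
    ∑ k ∈ F, inner ℂ (w k) (B F u k)
      = S3 F (fun p q r => I * kd q (u p) * dt (u q) (w r)) := by
  have h1 : ∀ k, inner ℂ (w k) (B F u k)
      = ∑ p ∈ F, I * kd (k - p) (u p) * dt (u (k - p)) (w (-k)) := by
    intro k
    unfold B
    rw [inner_sum]
    refine Finset.sum_congr rfl fun p _ => ?_
    rw [inner_smul_right, inner_eq_dt, hw]
  simp_rw [h1]
  rw [Finset.sum_comm]
  unfold S3
  refine Finset.sum_congr rfl fun p _ => ?_
  rw [Finset.sum_comm]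
  have h2 : ∀ r ∈ F, (∑ q ∈ F, if p + q + r = 0 then I * kd q (u p) * dt (u q) (w r) else 0)
      = I * kd (-r - p) (u p) * dt (u (-r - p)) (w r) := by
    intro r _
    by_cases hq : (-r - p) ∈ F
    · rw [Finset.sum_eq_single_of_mem (-r - p) hq]
      · rw [if_pos (by abel)]
      · intro q _ hne
        rw [if_neg]
        intro h0
        apply hne
        have : q = -(p + r) := by
          rw [eq_neg_iff_add_eq_zero, ← h0]; abel
        rw [this]; abel
    · rw [hu _ hq]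
      have : dt (0 : C3) (w r) = 0 := by simp [dt]
      rw [this, mul_zero]
      refine Finset.sum_eq_zero fun q hq' => ?_
      rw [if_neg]
      intro h0
      apply hq
      have : q = -(p + r) := by
        rw [eq_neg_iff_add_eq_zero, ← h0]; abel
      rw [show -r - p = q by rw [this]; abel]
      exact hq'
  rw [Finset.sum_congr rfl h2]
  refine Finset.sum_nbij' (fun k => -k) (fun k => -k) (fun k hk => hF k hk)
    (fun k hk => hF k hk) (fun k _ => neg_neg k) (fun k _ => neg_neg k) ?_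
  intro k _
  simp

/-- energy identity -/
lemma energy (F : Finset Z3) (hF : ∀ k ∈ F, -k ∈ F) (u : Z3 → C3) (hu : ∀ k, k ∉ F → u k = 0)
    (hr : ∀ k, u (-k) = cj (u k)) (hd : ∀ k, kd k (u k) = 0) :
    ∑ k ∈ F, inner ℂ (u k) (B F u k) = 0 := by
  rw [conv F hF u u hu hr]
  set φ : Z3 → Z3 → Z3 → ℂ := fun p q r => I * kd q (u p) * dt (u q) (u r) with hφ
  have h1 : S3 F φ + S3 F (fun p q r => φ p r q) = 0 := by
    rw [S3_add]
    rw [S3_congr F _ (fun _ _ _ => 0), S3_zero]
    intro p _ q _ r _ h0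
    simp only [hφ]
    have h2 : dt (u r) (u q) = dt (u q) (u r) := by
      simp [dt, mul_comm]
    rw [h2]
    have h3 : kd q (u p) + kd r (u p) = 0 := by
      have h4 : q + r = -p := by
        rw [eq_neg_iff_add_eq_zero, ← h0]; abel
      have h5 : kd q (u p) + kd r (u p) = kd (q + r) (u p) := by
        simp [kd, add_mul, Finset.sum_add_distrib]
      rw [h5, h4, kd_neg, hd p, neg_zero]
    linear_combination I * dt (u q) (u r) * h3
  rw [← S3_swap23 F φ] at h1
  have h2 : (2 : ℂ) * S3 F φ = 0 := by rw [two_mul]; exact h1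
  exact (mul_eq_zero.mp h2).resolve_left two_ne_zero

lemma crl_div (k : Z3) (v : C3) : kd k (crl k v) = 0 := by
  simp [kd, crl, Fin.sum_univ_three]
  ring

/-- triple product `(a × b) · c` -/
noncomputable def tp (a b c : C3) : ℂ :=
  (a 1 * b 2 - a 2 * b 1) * c 0 + (a 2 * b 0 - a 0 * b 2) * c 1 + (a 0 * b 1 - a 1 * b 0) * c 2

lemma tp_swap (a b c : C3) : tp a c b = - tp a b c := by
  unfold tp; ring

lemma vec_id (p q r : Z3) (h : p + q + r = 0) (a b w : C3) (hw : kd r w = 0) :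
    I * kd q a * dt b w + I * kd p b * dt a w = - tp a (crl q b) w - tp b (crl p a) w := by
  have hr : ∀ j, (r j : ℂ) = - (p j : ℂ) - (q j : ℂ) := by
    intro j
    have h1 : p j + q j + r j = 0 := by
      have := congrFun h j; simpa using this
    have h2 : r j = - p j - q j := by linarith
    rw [h2]; push_cast; ring
  have hw' : (r 0 : ℂ) * w 0 + (r 1 : ℂ) * w 1 + (r 2 : ℂ) * w 2 = 0 := by
    simpa [kd, Fin.sum_univ_three] using hw
  rw [hr 0, hr 1, hr 2] at hw'
  simp only [kd, dt, tp, crl, Fin.sum_univ_three]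
  simp only [Matrix.cons_val_zero, Matrix.cons_val_one, Matrix.cons_val]
  linear_combination (-(I * (a 0 * b 0 + a 1 * b 1 + a 2 * b 2))) * hw'

/-- helicity identity -/
lemma helicity (F : Finset Z3) (hF : ∀ k ∈ F, -k ∈ F) (u : Z3 → C3) (hu : ∀ k, k ∉ F → u k = 0)
    (hr : ∀ k, u (-k) = cj (u k)) :
    ∑ k ∈ F, inner ℂ (crl k (u k)) (B F u k) = 0 := by
  rw [conv F hF u (fun k => crl k (u k)) hu (fun k => by simp only [hr k]; exact crl_cj k (u k))]
  set φ : Z3 → Z3 → Z3 → ℂ := fun p q r => I * kd q (u p) * dt (u q) (crl r (u r)) with hφ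
  set ψ : Z3 → Z3 → Z3 → ℂ := fun p q r => tp (u p) (crl q (u q)) (crl r (u r)) with hψ
  have hψ0 : S3 F ψ = 0 := by
    have h1 : S3 F ψ = - S3 F ψ := by
      conv_lhs => rw [S3_swap23]
      rw [← S3_neg]
      refine S3_congr F _ _ fun p _ q _ r _ _ => ?_
      simp only [hψ]
      rw [tp_swap]
    have h2 : (2 : ℂ) * S3 F ψ = 0 := by linear_combination h1
    exact (mul_eq_zero.mp h2).resolve_left two_ne_zero
  have hψ1 : S3 F (fun p q r => ψ q p r) = 0 := by rw [← S3_swap12]; exact hψ0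
  have h1 : S3 F φ + S3 F (fun p q r => φ q p r) = 0 := by
    rw [S3_add]
    rw [S3_congr F _ (fun p q r => -ψ p q r + -ψ q p r)]
    · rw [← S3_add, S3_neg, S3_neg, hψ0, hψ1]; simp
    · intro p _ q _ r _ h0
      simp only [hφ, hψ]
      rw [vec_id p q r h0 (u p) (u q) (crl r (u r)) (crl_div r _)]
      ring
  rw [← S3_swap12 F φ] at h1
  have h2 : (2 : ℂ) * S3 F φ = 0 := by rw [two_mul]; exact h1
  exact (mul_eq_zero.mp h2).resolve_left two_ne_zero

end Pool.H217R3.Hel
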