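import Pool.Agent.H217R3.Hel.Stat

set_option autoImplicit false
open scoped BigOperators ComplexConjugate
open Complex Set

namespace Pool.H217R3.Hel

/-- a family of mode spaces: divergence free, compatible with complex conjugation, and with
helicity defect at most `δ k` -/
structure Adm (V : Z3 → Submodule ℂ C3) (δ : Z3 → ℝ) : Prop where
  div : ∀ k, ∀ v ∈ V k, kd k v = 0
  cjm : ∀ k, ∀ v ∈ V k, cj v ∈ V (-k)
  hel : ∀ k, ∀ v ∈ V k, ‖((nm k : ℝ) : ℂ) • v - crl k v‖ ≤ δ k * nm k * ‖v‖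

/-- solution of the truncated projected system on `[0,T]` -/
structure Gal (F : Finset Z3) (V : Z3 → Submodule ℂ C3) (ν c T : ℝ) (u : ℝ → Z3 → C3) : Prop where
  supp : ∀ t ∈ Icc 0 T, ∀ k, k ∉ F → u t k = 0
  real : ∀ t ∈ Icc 0 T, ∀ k, u t (-k) = cj (u t k)
  mem : ∀ t ∈ Icc 0 T, ∀ k, u t k ∈ V k
  ode : ∀ t ∈ Icc 0 T, ∀ k ∈ F, HasDerivWithinAt (fun s => u s k)
    ((V k).starProjection (((-(ν * nm k ^ 2) : ℝ) : ℂ) • u t k - ((c : ℝ) : ℂ) • B F (u t) k))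
    (Icc 0 T) t

lemma rinner (v w : C3) : inner ℝ v w = (inner ℂ v w).re := by
  simp [PiLp.inner_apply]

lemma inner_proj (V : Submodule ℂ C3) (v w : C3) (hv : v ∈ V) :
    inner ℂ v (V.starProjection w) = inner ℂ v w := by
  have h := V.starProjection_inner_eq_zero w v hv
  have h2 : inner ℂ v (w - V.starProjection w) = 0 := by
    rw [← inner_conj_symm, h, map_zero]
  rw [inner_sub_right] at h2
  exact (sub_eq_zero.mp h2).symm

lemma Gal.hasDeriv_Y {F : Finset Z3} {V : Z3 → Submodule ℂ C3} {ν c T : ℝ} {u : ℝ → Z3 → C3}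
    (h : Gal F V ν c T u) (n : ℕ) (t : ℝ) (ht : t ∈ Icc 0 T) :
    HasDerivWithinAt (fun s => Y F (u s) n)
      (-(2 * ν * Y F (u t) (n + 2))
        - 2 * c * ∑ k ∈ F, nm k ^ n * (inner ℂ (u t k) (B F (u t) k)).re) (Icc 0 T) t := by
  have h1 : ∀ k ∈ F, HasDerivWithinAt (fun s => nm k ^ n * ‖u s k‖ ^ 2)
      (nm k ^ n * (2 * inner ℝ (u t k) ((V k).starProjection
        (((-(ν * nm k ^ 2) : ℝ) : ℂ) • u t k - ((c : ℝ) : ℂ) • B F (u t) k)))) (Icc 0 T) t := by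
    intro k hk
    exact ((h.ode t ht k hk).norm_sq).const_mul _
  have h2 := HasDerivWithinAt.fun_sum h1
  unfold Y
  refine h2.congr_deriv ?_
  rw [Finset.mul_sum, Finset.mul_sum, ← Finset.sum_neg_distrib, ← Finset.sum_sub_distrib]
  refine Finset.sum_congr rfl fun k _ => ?_
  rw [rinner, inner_proj _ _ _ (h.mem t ht k), inner_sub_right, inner_smul_right, inner_smul_right,
    inner_self_eq_norm_sq_to_K]
  simp only [Complex.sub_re, Complex.re_ofReal_mul]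
  have : (((‖u t k‖ : ℝ) : ℂ) ^ 2).re = ‖u t k‖ ^ 2 := by
    rw [← Complex.ofReal_pow, Complex.ofReal_re]
  simp only [Complex.coe_algebraMap, this]
  ring

lemma le_of_deriv_nonpos {T : ℝ} {f f' : ℝ → ℝ}
    (h : ∀ t ∈ Icc 0 T, HasDerivWithinAt f (f' t) (Icc 0 T) t)
    (h' : ∀ t ∈ Icc 0 T, f' t ≤ 0) (t : ℝ) (ht : t ∈ Icc 0 T) : f t ≤ f 0 := by
  have hanti : AntitoneOn f (Icc 0 T) := by
    refine antitoneOn_of_deriv_nonpos (convex_Icc 0 T) (fun s hs => (h s hs).continuousWithinAt) ?_ ?_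
    · intro s hs
      rw [interior_Icc] at hs
      exact ((h s ⟨hs.1.le, hs.2.le⟩).hasDerivAt (Icc_mem_nhds hs.1 hs.2)).differentiableAt.differentiableWithinAt
    · intro s hs
      rw [interior_Icc] at hs
      have h1 := (h s ⟨hs.1.le, hs.2.le⟩).hasDerivAt (Icc_mem_nhds hs.1 hs.2)
      rw [h1.deriv]
      exact h' s ⟨hs.1.le, hs.2.le⟩
  exact hanti ⟨le_rfl, ht.1.trans ht.2⟩ ht ht.1

section
variable {F : Finset Z3} {V : Z3 → Submodule ℂ C3} {δ : Z3 → ℝ} {ν c T : ℝ} {u : ℝ → Z3 → C3}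

lemma Gal.energy (h : Gal F V ν c T u) (hF : ∀ k ∈ F, -k ∈ F) (hV : Adm V δ)
    (hν : 0 < ν) (t : ℝ) (ht : t ∈ Icc 0 T) : Y F (u t) 0 ≤ Y F (u 0) 0 := by
  refine le_of_deriv_nonpos (fun s hs => h.hasDeriv_Y 0 s hs) ?_ t ht
  intro s hs
  have h1 : ∑ k ∈ F, nm k ^ 0 * (inner ℂ (u s k) (B F (u s) k)).re = 0 := by
    simp only [pow_zero, one_mul]
    rw [← Complex.re_sum, Hel.energy F hF (u s) (h.supp s hs) (h.real s hs)
      (fun k => hV.div k _ (h.mem s hs k))]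
    simp
  rw [h1]
  have := Y_nonneg F (u s) (0 + 2)
  nlinarith

/-- bound in `H^{1/2}` with dissipation -/
lemma Gal.half {δ₁ δ₂ : Z3 → ℝ} (h : Gal F V ν c T u) (h0 : (0 : Z3) ∉ F) (hF : ∀ k ∈ F, -k ∈ F)
    (hV : Adm V (fun k => δ₁ k + δ₂ k))
    (hδ1 : ∀ k, 0 ≤ δ₁ k) (hδ2 : ∀ k, 0 ≤ δ₂ k) (hν : 0 < ν) (K0 : Finset Z3) (ε E A : ℝ)
    (hε0 : 0 ≤ ε) (hA0 : 0 ≤ A)
    (hA : ∀ q : Z3, ∀ m : ℕ, 1 ≤ m → ∑ p ∈ cube m, δ₂ (p + q) ^ 2 ≤ A * (m : ℝ) ^ 2)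
    (hε : ∑ k ∈ F \ K0, δ₁ k ^ 2 / nm k ^ 2 ≤ ε ^ 2) (hE : Y F (u 0) 0 ≤ E)
    (hsmall : 8 * |c| * ε * Real.sqrt E ≤ ν / 2) (t : ℝ) (ht : t ∈ Icc 0 T) :
    -(2 * ν * Y F (u t) (1 + 2))
        - 2 * c * ∑ k ∈ F, nm k ^ 1 * (inner ℂ (u t k) (B F (u t) k)).re
      ≤ - (ν * Y F (u t) 3) + 2 * |c| * (∑ k ∈ K0, δ₁ k * nm k ^ 2) * Real.sqrt E ^ 3
        + 32 * c ^ 2 * A / ν * (Y F (u t) 1 * Y F (u t) 2) := by
  have h1 := est_base F hF (u t) (h.supp t ht) (h.real t ht)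
    (fun k => hV.div k _ (h.mem t ht k)) (fun k => δ₁ k + δ₂ k)
    (fun k => add_nonneg (hδ1 k) (hδ2 k)) (fun k _ => hV.hel k _ (h.mem t ht k))
  have h1a := est_d1 F h0 (u t) (h.supp t ht) δ₁ hδ1 K0 ε hε0 hε
  have h1b := est_d2 F h0 (u t) (h.supp t ht) δ₂ hδ2 A hA0 hA
  have h1c : ∑ k ∈ F, (δ₁ k + δ₂ k) * nm k ^ 2 * ‖u t k‖ * bet F (u t) k
      = ∑ k ∈ F, δ₁ k * nm k ^ 2 * ‖u t k‖ * bet F (u t) k
        + ∑ k ∈ F, δ₂ k * nm k ^ 2 * ‖u t k‖ * bet F (u t) k := by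
    rw [← Finset.sum_add_distrib]
    exact Finset.sum_congr rfl fun k _ => by ring
  have hE' : Real.sqrt (Y F (u t) 0) ≤ Real.sqrt E :=
    Real.sqrt_le_sqrt ((h.energy hF hV hν t ht).trans hE)
  have hY3 := Y_nonneg F (u t) 3
  have hY2 := Y_nonneg F (u t) 2
  have hY1 := Y_nonneg F (u t) 1
  have hS : 0 ≤ ∑ k ∈ K0, δ₁ k * nm k ^ 2 :=
    Finset.sum_nonneg fun k _ => mul_nonneg (hδ1 k) (sq_nonneg _)
  have hs0 := Real.sqrt_nonneg (Y F (u t) 0)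
  have h2 : 4 * ε * Real.sqrt (Y F (u t) 0) * Y F (u t) 3 ≤ 4 * ε * Real.sqrt E * Y F (u t) 3 := by
    gcongr
  have h3 : (∑ k ∈ K0, δ₁ k * nm k ^ 2) * Real.sqrt (Y F (u t) 0) ^ 3
      ≤ (∑ k ∈ K0, δ₁ k * nm k ^ 2) * Real.sqrt E ^ 3 := by
    gcongr
  simp only [pow_one]
  set X := ∑ k ∈ F, nm k * (inner ℂ (u t k) (B F (u t) k)).re with hX
  set S := 4 * (Real.sqrt A * Real.sqrt (Y F (u t) 1) * Real.sqrt (Y F (u t) 2)
    * Real.sqrt (Y F (u t) 3)) with hS'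
  have h4 : - (2 * c * X) ≤ 2 * |c| * |X| := by
    have := neg_abs_le (c * X)
    rw [abs_mul] at this
    nlinarith
  have h5 : |c| * |X| ≤ |c| * ((4 * ε * Real.sqrt E * Y F (u t) 3
      + (∑ k ∈ K0, δ₁ k * nm k ^ 2) * Real.sqrt E ^ 3) + S) :=
    mul_le_mul_of_nonneg_left (by linarith) (abs_nonneg c)
  have h6 : 8 * |c| * ε * Real.sqrt E * Y F (u t) 3 ≤ ν / 2 * Y F (u t) 3 :=
    mul_le_mul_of_nonneg_right hsmall hY3
  have h7 : 2 * (|c| * S) ≤ ν / 2 * Y F (u t) 3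
      + 32 * c ^ 2 * A / ν * (Y F (u t) 1 * Y F (u t) 2) := by
    set a := |c| * (Real.sqrt A * (Real.sqrt (Y F (u t) 1) * Real.sqrt (Y F (u t) 2))) with ha
    set b := Real.sqrt (Y F (u t) 3) with hb
    have hb2 : b ^ 2 = Y F (u t) 3 := Real.sq_sqrt hY3
    have ha2 : a ^ 2 = c ^ 2 * (A * (Y F (u t) 1 * Y F (u t) 2)) := by
      rw [ha, mul_pow, mul_pow, mul_pow, sq_abs, Real.sq_sqrt hA0, Real.sq_sqrt hY1,
        Real.sq_sqrt hY2]
    have e1 : 2 * (|c| * S) = 8 * a * b := by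
      rw [hS', ha]; ring
    have e2 : 32 * c ^ 2 * A / ν * (Y F (u t) 1 * Y F (u t) 2) = 32 * a ^ 2 / ν := by
      rw [ha2]; ring
    rw [e1, e2, ← hb2]
    have e3 : ν / 2 * b ^ 2 + 32 * a ^ 2 / ν - 8 * a * b = (ν * b - 8 * a) ^ 2 / (2 * ν) := by
      field_simp
      ring
    have e4 : 0 ≤ (ν * b - 8 * a) ^ 2 / (2 * ν) := by positivity
    linarith
  simp only [Nat.reduceAdd]
  nlinarith

/-- the enstrophy bound -/
lemma Gal.one {δ₁ δ₂ : Z3 → ℝ} (h : Gal F V ν c T u) (h0 : (0 : Z3) ∉ F) (hF : ∀ k ∈ F, -k ∈ F)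
    (hV : Adm V (fun k => δ₁ k + δ₂ k))
    (hδ1 : ∀ k, 0 ≤ δ₁ k) (hδ2 : ∀ k, 0 ≤ δ₂ k) (hν : 0 < ν) (K0 : Finset Z3) (ε E A : ℝ)
    (hε0 : 0 ≤ ε) (hA0 : 0 ≤ A)
    (hA : ∀ q : Z3, ∀ m : ℕ, 1 ≤ m → ∑ p ∈ cube m, δ₂ (p + q) ^ 2 ≤ A * (m : ℝ) ^ 2)
    (hε : ∑ k ∈ F \ K0, δ₁ k ^ 2 / nm k ^ 2 ≤ ε ^ 2) (hE : Y F (u 0) 0 ≤ E)
    (hsmall : 8 * |c| * ε * Real.sqrt E ≤ ν / 2) (t : ℝ) (ht : t ∈ Icc 0 T) :
    Y F (u t) 2 ≤ Y F (u 0) 2 * Real.exp ((121 * c ^ 2 / (2 * ν) / ν)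
      * ((Y F (u 0) 1 + 2 * |c| * (∑ k ∈ K0, δ₁ k * nm k ^ 2) * Real.sqrt E ^ 3 * T)
        * Real.exp (32 * c ^ 2 * A / ν / (2 * ν) * E))) := by
  set M := 2 * |c| * (∑ k ∈ K0, δ₁ k * nm k ^ 2) * Real.sqrt E ^ 3 with hM
  set κ := 121 * c ^ 2 / (2 * ν) with hκ
  set μ := 32 * c ^ 2 * A / ν with hμ
  set lam := μ / (2 * ν) with hlam
  have hκ0 : 0 ≤ κ := by positivity
  have hμ0 : 0 ≤ μ := by positivity
  have hlam0 : 0 ≤ lam := by positivity
  have hS : 0 ≤ ∑ k ∈ K0, δ₁ k * nm k ^ 2 :=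
    Finset.sum_nonneg fun k _ => mul_nonneg (hδ1 k) (sq_nonneg _)
  have hM0 : 0 ≤ M := by positivity
  have hE0 : 0 ≤ E := (Y_nonneg _ _ _).trans hE
  set M' := M * Real.exp (lam * E) with hM'
  have hM'0 : 0 ≤ M' := by positivity
  set D0 : ℝ → ℝ := fun s => -(2 * ν * Y F (u s) (0 + 2))
        - 2 * c * ∑ k ∈ F, nm k ^ 0 * (inner ℂ (u s k) (B F (u s) k)).re with hD0
  set D1 : ℝ → ℝ := fun s => -(2 * ν * Y F (u s) (1 + 2))
        - 2 * c * ∑ k ∈ F, nm k ^ 1 * (inner ℂ (u s k) (B F (u s) k)).re with hD1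
  set D2 : ℝ → ℝ := fun s => -(2 * ν * Y F (u s) (2 + 2))
        - 2 * c * ∑ k ∈ F, nm k ^ 2 * (inner ℂ (u s k) (B F (u s) k)).re with hD2
  set Z : ℝ → ℝ := fun s => Y F (u s) 1 * Real.exp (lam * Y F (u s) 0) with hZ
  set Z' : ℝ → ℝ := fun s => D1 s * Real.exp (lam * Y F (u s) 0)
    + Y F (u s) 1 * (Real.exp (lam * Y F (u s) 0) * (lam * D0 s)) with hZ'
  have hZd : ∀ s ∈ Icc 0 T, HasDerivWithinAt Z (Z' s) (Icc 0 T) s := by
    intro s hs
    have h1 := h.hasDeriv_Y 1 s hs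
    have h2 := h.hasDeriv_Y 0 s hs
    exact h1.mul ((h2.const_mul lam).exp)
  have hD0' : ∀ s ∈ Icc 0 T, D0 s = -(2 * ν * Y F (u s) 2) := by
    intro s hs
    have h1 : ∑ k ∈ F, nm k ^ 0 * (inner ℂ (u s k) (B F (u s) k)).re = 0 := by
      simp only [pow_zero, one_mul]
      rw [← Complex.re_sum, Hel.energy F hF (u s) (h.supp s hs) (h.real s hs)
        (fun k => hV.div k _ (h.mem s hs k))]
      simp
    simp only [hD0, h1, mul_zero, sub_zero, zero_add]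
  have hZle : ∀ s ∈ Icc 0 T, Z' s ≤ - (ν * Y F (u s) 3) + M' := by
    intro s hs
    have hA' := h.half h0 hF hV hδ1 hδ2 hν K0 ε E A hε0 hA0 hA hε hE hsmall s hs
    have hY3 := Y_nonneg F (u s) 3
    have he0 : Y F (u s) 0 ≤ E := (h.energy hF hV hν s hs).trans hE
    have h1 : 1 ≤ Real.exp (lam * Y F (u s) 0) := by
      rw [← Real.exp_zero]
      exact Real.exp_le_exp.mpr (mul_nonneg hlam0 (Y_nonneg _ _ _))
    have h2 : Real.exp (lam * Y F (u s) 0) ≤ Real.exp (lam * E) :=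
      Real.exp_le_exp.mpr (mul_le_mul_of_nonneg_left he0 hlam0)
    have h3 : D1 s ≤ - (ν * Y F (u s) 3) + M + μ * (Y F (u s) 1 * Y F (u s) 2) := hA'
    have h4 : lam * D0 s = - (μ * Y F (u s) 2) := by
      rw [hD0' s hs, hlam]
      field_simp
    have h5 : Z' s = Real.exp (lam * Y F (u s) 0) * (D1 s - μ * (Y F (u s) 1 * Y F (u s) 2)) := by
      simp only [hZ', h4]
      ring
    rw [h5]
    have h6 : D1 s - μ * (Y F (u s) 1 * Y F (u s) 2) ≤ - (ν * Y F (u s) 3) + M := by linarith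
    calc Real.exp (lam * Y F (u s) 0) * (D1 s - μ * (Y F (u s) 1 * Y F (u s) 2))
        ≤ Real.exp (lam * Y F (u s) 0) * (- (ν * Y F (u s) 3) + M) :=
          mul_le_mul_of_nonneg_left h6 (Real.exp_nonneg _)
      _ = - (ν * Y F (u s) 3) * Real.exp (lam * Y F (u s) 0)
          + M * Real.exp (lam * Y F (u s) 0) := by ring
      _ ≤ - (ν * Y F (u s) 3) * 1 + M * Real.exp (lam * E) := by
          refine add_le_add ?_ (mul_le_mul_of_nonneg_left h2 hM0)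
          have : 0 ≤ ν * Y F (u s) 3 := by positivity
          nlinarith
      _ = _ := by rw [mul_one]
  have hd : ∀ s ∈ Icc 0 T, HasDerivWithinAt
      (fun r => Y F (u r) 2 * Real.exp ((κ / ν) * (Z r - M' * r)))
      (D2 s * Real.exp ((κ / ν) * (Z s - M' * s))
        + Y F (u s) 2 * (Real.exp ((κ / ν) * (Z s - M' * s)) * ((κ / ν) * (Z' s - M' * 1))))
      (Icc 0 T) s := by
    intro s hs
    have h2 := h.hasDeriv_Y 2 s hs
    have h3 : HasDerivWithinAt (fun r : ℝ => M' * r) (M' * 1) (Icc 0 T) s :=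
      (hasDerivWithinAt_id s _).const_mul M'
    exact h2.mul ((((hZd s hs).sub h3).const_mul (κ / ν)).exp)
  have hle := le_of_deriv_nonpos hd ?_ t ht
  · have h1 : Y F (u t) 2 = (Y F (u t) 2 * Real.exp ((κ / ν) * (Z t - M' * t)))
        * Real.exp (-((κ / ν) * (Z t - M' * t))) := by
      rw [mul_assoc, ← Real.exp_add, add_neg_cancel, Real.exp_zero, mul_one]
    rw [h1]
    calc (Y F (u t) 2 * Real.exp ((κ / ν) * (Z t - M' * t)))
        * Real.exp (-((κ / ν) * (Z t - M' * t)))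
        ≤ (Y F (u 0) 2 * Real.exp ((κ / ν) * (Z 0 - M' * 0)))
        * Real.exp (-((κ / ν) * (Z t - M' * t))) :=
          mul_le_mul_of_nonneg_right hle (Real.exp_nonneg _)
      _ = Y F (u 0) 2 * Real.exp ((κ / ν) * (Z 0 - Z t + M' * t)) := by
          rw [mul_assoc, ← Real.exp_add]
          congr 2
          ring
      _ ≤ _ := by
          refine mul_le_mul_of_nonneg_left (Real.exp_le_exp.mpr ?_) (Y_nonneg _ _ _)
          refine mul_le_mul_of_nonneg_left ?_ (by positivity)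
          have hZt : 0 ≤ Z t := mul_nonneg (Y_nonneg _ _ _) (Real.exp_nonneg _)
          have hZ0 : Z 0 ≤ Y F (u 0) 1 * Real.exp (lam * E) := by
            refine mul_le_mul_of_nonneg_left (Real.exp_le_exp.mpr ?_) (Y_nonneg _ _ _)
            exact mul_le_mul_of_nonneg_left hE hlam0
          have h5 := mul_le_mul_of_nonneg_left ht.2 hM'0
          calc Z 0 - Z t + M' * t ≤ Y F (u 0) 1 * Real.exp (lam * E) + M' * T := by linarith
            _ = _ := by rw [hM']; ring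
  · intro s hs
    have hB := est_one F h0 (u s) (h.supp s hs)
    set X := ∑ k ∈ F, nm k ^ 2 * (inner ℂ (u s k) (B F (u s) k)).re with hX
    have hY2 := Y_nonneg F (u s) 2
    have hY3 := Y_nonneg F (u s) 3
    have hY4 := Y_nonneg F (u s) 4
    have h4 : - (2 * c * X) ≤ 2 * |c| * |X| := by
      have := neg_abs_le (c * X)
      rw [abs_mul] at this
      nlinarith
    have h5 : |c| * |X| ≤ |c| * (11 * (Real.sqrt (Y F (u s) 3) * Real.sqrt (Y F (u s) 2)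
        * Real.sqrt (Y F (u s) 4))) := mul_le_mul_of_nonneg_left hB (abs_nonneg c)
    have h6 : D2 s ≤ κ * Y F (u s) 3 * Y F (u s) 2 := by
      simp only [hD2]
      rw [← hX]
      simp only [Nat.reduceAdd]
      have h7 : Real.sqrt (Y F (u s) 4) ^ 2 = Y F (u s) 4 := Real.sq_sqrt hY4
      have h8 : (Real.sqrt (Y F (u s) 3) * Real.sqrt (Y F (u s) 2)) ^ 2
          = Y F (u s) 3 * Y F (u s) 2 := by
        rw [mul_pow, Real.sq_sqrt hY3, Real.sq_sqrt hY2]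
      set a := Real.sqrt (Y F (u s) 3) * Real.sqrt (Y F (u s) 2) with ha
      set b := Real.sqrt (Y F (u s) 4) with hb
      have h9 : 2 * (|c| * (11 * (a * b))) ≤ 2 * ν * b ^ 2 + κ * a ^ 2 := by
        have h10 : κ * a ^ 2 = (11 * |c| * a) ^ 2 / (2 * ν) := by
          have e : (11 * |c| * a) ^ 2 = 121 * |c| ^ 2 * a ^ 2 := by ring
          rw [e, sq_abs, hκ]; ring
        rw [h10]
        have h11 : 2 * ν * b ^ 2 + (11 * |c| * a) ^ 2 / (2 * ν) - 2 * (|c| * (11 * (a * b)))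
            = (2 * ν * b - 11 * |c| * a) ^ 2 / (2 * ν) := by
          field_simp
          ring
        have h12 : 0 ≤ (2 * ν * b - 11 * |c| * a) ^ 2 / (2 * ν) := by positivity
        linarith
      rw [h7, h8] at h9
      nlinarith
    have hexp := Real.exp_nonneg ((κ / ν) * (Z s - M' * s))
    have h7 : (κ / ν) * (Z' s - M' * 1) ≤ - (κ * Y F (u s) 3) := by
      have h8 : Z' s - M' * 1 ≤ - (ν * Y F (u s) 3) := by
        have := hZle s hs
        linarith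
      calc _ ≤ (κ / ν) * (- (ν * Y F (u s) 3)) :=
            mul_le_mul_of_nonneg_left h8 (by positivity)
        _ = _ := by field_simp
    have h8 : Y F (u s) 2 * (Real.exp ((κ / ν) * (Z s - M' * s)) * ((κ / ν) * (Z' s - M' * 1)))
        ≤ Y F (u s) 2 * (Real.exp ((κ / ν) * (Z s - M' * s)) * (- (κ * Y F (u s) 3))) := by
      gcongr
    have h9 := mul_le_mul_of_nonneg_right h6 hexp
    nlinarith

/-- higher norms -/
lemma Gal.high (h : Gal F V ν c T u) (h0 : (0 : Z3) ∉ F) (hV : Adm V δ)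
    (hν : 0 < ν) (m : ℕ) (Q : ℝ) (hQ : ∀ t ∈ Icc 0 T, Y F (u t) 2 ≤ Q) (t : ℝ) (ht : t ∈ Icc 0 T) :
    Y F (u t) (2 * m) ≤ Y F (u 0) (2 * m)
      * Real.exp (((2 ^ (m + 1) * 11 * |c| * Real.sqrt Q) ^ 4 / (4 * ν ^ 3)) * T) := by
  set A := 2 ^ (m + 1) * 11 * |c| * Real.sqrt Q with hA
  set Λ := A ^ 4 / (4 * ν ^ 3) with hΛ
  have hA0 : 0 ≤ A := by positivity
  have hΛ0 : 0 ≤ Λ := by positivity
  have hd : ∀ s ∈ Icc 0 T, HasDerivWithinAt
      (fun r => Y F (u r) (2 * m) * Real.exp (-(Λ * r)))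
      ((-(2 * ν * Y F (u s) (2 * m + 2))
        - 2 * c * ∑ k ∈ F, nm k ^ (2 * m) * (inner ℂ (u s k) (B F (u s) k)).re)
          * Real.exp (-(Λ * s))
        + Y F (u s) (2 * m) * (Real.exp (-(Λ * s)) * (-(Λ * 1))))
      (Icc 0 T) s := by
    intro s hs
    have h2 := h.hasDeriv_Y (2 * m) s hs
    have h3 : HasDerivWithinAt (fun r : ℝ => Λ * r) (Λ * 1) (Icc 0 T) s :=
      (hasDerivWithinAt_id s _).const_mul Λ
    exact h2.mul (h3.neg.exp)
  have hle := le_of_deriv_nonpos hd ?_ t ht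
  · have h1 : Y F (u t) (2 * m) = (Y F (u t) (2 * m) * Real.exp (-(Λ * t)))
        * Real.exp (Λ * t) := by
      rw [mul_assoc, ← Real.exp_add, neg_add_cancel, Real.exp_zero, mul_one]
    rw [h1]
    calc (Y F (u t) (2 * m) * Real.exp (-(Λ * t))) * Real.exp (Λ * t)
        ≤ (Y F (u 0) (2 * m) * Real.exp (-(Λ * 0))) * Real.exp (Λ * t) :=
          mul_le_mul_of_nonneg_right hle (Real.exp_nonneg _)
      _ = Y F (u 0) (2 * m) * Real.exp (Λ * t) := by simp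
      _ ≤ _ := by
          refine mul_le_mul_of_nonneg_left (Real.exp_le_exp.mpr ?_) (Y_nonneg _ _ _)
          exact mul_le_mul_of_nonneg_left ht.2 hΛ0
  · intro s hs
    have hB := est_high F h0 (u s) (h.supp s hs) (fun k => hV.div k _ (h.mem s hs k)) m
    set X := ∑ k ∈ F, nm k ^ (2 * m) * (inner ℂ (u s k) (B F (u s) k)).re with hX
    have hI := Y_interp F (u s) m
    have ha0 := Y_nonneg F (u s) (2 * m)
    have hb0 := Y_nonneg F (u s) (2 * m + 2)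
    have hg0 := Y_nonneg F (u s) (2 * m + 1)
    have h4 : - (2 * c * X) ≤ 2 * (|c| * |X|) := by
      have := neg_abs_le (c * X)
      rw [abs_mul] at this
      nlinarith
    have hq : Real.sqrt (Y F (u s) 2) ≤ Real.sqrt Q := Real.sqrt_le_sqrt (hQ s hs)
    set a := Real.sqrt (Y F (u s) (2 * m)) with ha
    set b := Real.sqrt (Y F (u s) (2 * m + 2)) with hb
    set g := Real.sqrt (Y F (u s) (2 * m + 1)) with hg
    have a2 : a ^ 2 = Y F (u s) (2 * m) := Real.sq_sqrt ha0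
    have b2 : b ^ 2 = Y F (u s) (2 * m + 2) := Real.sq_sqrt hb0
    have g2 : g ^ 2 = Y F (u s) (2 * m + 1) := Real.sq_sqrt hg0
    have an : 0 ≤ a := Real.sqrt_nonneg _
    have bn : 0 ≤ b := Real.sqrt_nonneg _
    have gn : 0 ≤ g := Real.sqrt_nonneg _
    have h5 : |c| * |X| ≤ A * (g * b) := by
      calc |c| * |X| ≤ |c| * (2 ^ (m + 1) * 11 * (g * Real.sqrt (Y F (u s) 2) * b)) :=
            mul_le_mul_of_nonneg_left hB (abs_nonneg c)
        _ ≤ |c| * (2 ^ (m + 1) * 11 * (g * Real.sqrt Q * b)) := by gcongr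
        _ = A * (g * b) := by rw [hA]; ring
    have h6 : 2 * (A * (g * b)) ≤ ν * b ^ 2 + A ^ 2 / ν * g ^ 2 := by
      have h11 : ν * b ^ 2 + A ^ 2 / ν * g ^ 2 - 2 * (A * (g * b))
            = (ν * b - A * g) ^ 2 / ν := by
          field_simp
          ring
      have h12 : 0 ≤ (ν * b - A * g) ^ 2 / ν := by positivity
      linarith
    have h7 : A ^ 2 / ν * g ^ 2 ≤ A ^ 2 / ν * (a * b) := by
      refine mul_le_mul_of_nonneg_left ?_ (by positivity)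
      rw [g2]; exact hI
    have h8 : A ^ 2 / ν * (a * b) ≤ ν * b ^ 2 + Λ * a ^ 2 := by
      have h11 : ν * b ^ 2 + Λ * a ^ 2 - A ^ 2 / ν * (a * b)
            = (2 * ν ^ 2 * b - A ^ 2 * a) ^ 2 / (4 * ν ^ 3) := by
          rw [hΛ]
          field_simp
          ring
      have h12 : 0 ≤ (2 * ν ^ 2 * b - A ^ 2 * a) ^ 2 / (4 * ν ^ 3) := by positivity
      linarith
    have h9 : -(2 * ν * Y F (u s) (2 * m + 2)) - 2 * c * X ≤ Λ * Y F (u s) (2 * m) := by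
      rw [← a2, ← b2]
      linarith
    have h10 := mul_le_mul_of_nonneg_right h9 (Real.exp_nonneg (-(Λ * s)))
    nlinarith

end

end Pool.H217R3.Hel
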