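import Pool.Agent.H217R3.Hel.Lattice

set_option autoImplicit false
open scoped BigOperators ComplexConjugate
open Complex

namespace Pool.H217R3.Hel

lemma nm_eq_norm (k : Z3) : nm k = ‖(WithLp.toLp 2 (fun j => (k j : ℝ)) : EuclideanSpace ℝ (Fin 3))‖ := by
  simp [nm, EuclideanSpace.norm_eq]

lemma nm_add_le (p q : Z3) : nm (p + q) ≤ nm p + nm q := by
  rw [nm_eq_norm, nm_eq_norm, nm_eq_norm]
  refine le_trans (le_of_eq ?_) (norm_add_le _ _)
  congr 1
  ext j
  simp

/-- sums over shifted indices -/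
lemma shift_le (F : Finset Z3) (z : Z3 → ℝ) (hz : ∀ k, 0 ≤ z k) (hzF : ∀ k, k ∉ F → z k = 0)
    (G : Finset Z3) (σ : Z3 → Z3) (hσ : Function.Injective σ) :
    ∑ q ∈ G, z (σ q) ≤ ∑ k ∈ F, z k := by
  classical
  calc ∑ q ∈ G, z (σ q) = ∑ k ∈ G.image σ, z k := by
        rw [Finset.sum_image (fun a _ b _ h => hσ h)]
    _ = ∑ k ∈ (G.image σ) ∩ F, z k := by
        symm
        refine Finset.sum_subset Finset.inter_subset_left ?_
        intro k hk hk'
        apply hzF
        intro hkF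
        exact hk' (Finset.mem_inter.mpr ⟨hk, hkF⟩)
    _ ≤ ∑ k ∈ F, z k :=
        Finset.sum_le_sum_of_subset_of_nonneg Finset.inter_subset_right (fun k _ _ => hz k)

lemma tri (F : Finset Z3) (h0 : (0 : Z3) ∉ F) (x y z : Z3 → ℝ) (hx : ∀ k, 0 ≤ x k)
    (hy : ∀ k, 0 ≤ y k) (hz : ∀ k, 0 ≤ z k) (hzF : ∀ k, k ∉ F → z k = 0) :
    ∑ p ∈ F, ∑ q ∈ F, x p * y q * z (p + q)
      ≤ 11 * (Real.sqrt (∑ p ∈ F, nm p * x p ^ 2) * Real.sqrt (∑ q ∈ F, nm q ^ 2 * y q ^ 2)
        * Real.sqrt (∑ k ∈ F, z k ^ 2)) := by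
  classical
  set A := ∑ p ∈ F, nm p * x p ^ 2 with hA
  set Bq := ∑ q ∈ F, nm q ^ 2 * y q ^ 2 with hB
  set Z := ∑ k ∈ F, z k ^ 2 with hZ
  have hA0 : 0 ≤ A := Finset.sum_nonneg fun p _ => mul_nonneg (nm_nonneg p) (sq_nonneg _)
  have hB0 : 0 ≤ Bq := Finset.sum_nonneg fun p _ => by positivity
  have hZ0 : 0 ≤ Z := Finset.sum_nonneg fun p _ => by positivity
  have hpos : ∀ p ∈ F, 0 < nm p := fun p hp =>
    lt_of_lt_of_le one_pos (one_le_nm p (fun h => h0 (h ▸ hp)))
  have hz2 : ∀ k, k ∉ F → z k ^ 2 = 0 := fun k hk => by rw [hzF k hk]; simp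
  rw [← Finset.sum_product']
  rw [← Finset.sum_filter_add_sum_filter_not (F ×ˢ F) (fun a => nm a.1 ≤ nm a.2)]
  have hT1 : ∑ a ∈ (F ×ˢ F) with nm a.1 ≤ nm a.2, x a.1 * y a.2 * z (a.1 + a.2)
      ≤ Real.sqrt (A * Z) * Real.sqrt (26 * Bq) := by
    calc ∑ a ∈ (F ×ˢ F) with nm a.1 ≤ nm a.2, x a.1 * y a.2 * z (a.1 + a.2)
        = ∑ a ∈ (F ×ˢ F) with nm a.1 ≤ nm a.2,
            (Real.sqrt (nm a.1) * x a.1 * z (a.1 + a.2)) * ((Real.sqrt (nm a.1))⁻¹ * y a.2) := by
          refine Finset.sum_congr rfl fun a ha => ?_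
          rw [Finset.mem_filter, Finset.mem_product] at ha
          have h1 : Real.sqrt (nm a.1) ≠ 0 := (Real.sqrt_pos.mpr (hpos _ ha.1.1)).ne'
          field_simp
      _ ≤ Real.sqrt (∑ a ∈ (F ×ˢ F) with nm a.1 ≤ nm a.2,
            (Real.sqrt (nm a.1) * x a.1 * z (a.1 + a.2)) ^ 2)
          * Real.sqrt (∑ a ∈ (F ×ˢ F) with nm a.1 ≤ nm a.2, ((Real.sqrt (nm a.1))⁻¹ * y a.2) ^ 2) :=
          Real.sum_mul_le_sqrt_mul_sqrt _ _ _
      _ ≤ Real.sqrt (A * Z) * Real.sqrt (26 * Bq) := by
          refine mul_le_mul (Real.sqrt_le_sqrt ?_) (Real.sqrt_le_sqrt ?_) (Real.sqrt_nonneg _)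
            (Real.sqrt_nonneg _)
          · calc ∑ a ∈ (F ×ˢ F) with nm a.1 ≤ nm a.2,
                (Real.sqrt (nm a.1) * x a.1 * z (a.1 + a.2)) ^ 2
                ≤ ∑ a ∈ F ×ˢ F, (Real.sqrt (nm a.1) * x a.1 * z (a.1 + a.2)) ^ 2 :=
                  Finset.sum_le_sum_of_subset_of_nonneg (Finset.filter_subset _ _)
                    (fun a _ _ => sq_nonneg _)
              _ = ∑ p ∈ F, nm p * x p ^ 2 * ∑ q ∈ F, z (p + q) ^ 2 := by
                  rw [Finset.sum_product]
                  refine Finset.sum_congr rfl fun p _ => ?_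
                  rw [Finset.mul_sum]
                  refine Finset.sum_congr rfl fun q _ => ?_
                  simp only
                  rw [mul_pow, mul_pow, Real.sq_sqrt (nm_nonneg p)]
              _ ≤ ∑ p ∈ F, nm p * x p ^ 2 * Z := by
                  refine Finset.sum_le_sum fun p _ => ?_
                  refine mul_le_mul_of_nonneg_left ?_ (mul_nonneg (nm_nonneg p) (sq_nonneg _))
                  exact shift_le F (fun k => z k ^ 2) (fun k => sq_nonneg _) hz2 F (fun q => p + q)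
                    (add_right_injective p)
              _ = A * Z := by rw [hA, Finset.sum_mul]
          · calc ∑ a ∈ (F ×ˢ F) with nm a.1 ≤ nm a.2, ((Real.sqrt (nm a.1))⁻¹ * y a.2) ^ 2
                = ∑ q ∈ F, ∑ p ∈ F with nm p ≤ nm q, ((Real.sqrt (nm p))⁻¹ * y q) ^ 2 := by
                  rw [Finset.sum_filter, Finset.sum_product_right]
                  refine Finset.sum_congr rfl fun q _ => ?_
                  rw [Finset.sum_filter]
              _ = ∑ q ∈ F, y q ^ 2 * ∑ p ∈ F with nm p ≤ nm q, (nm p)⁻¹ := by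
                  refine Finset.sum_congr rfl fun q _ => ?_
                  rw [Finset.mul_sum]
                  refine Finset.sum_congr rfl fun p _ => ?_
                  rw [mul_pow, inv_pow, Real.sq_sqrt (nm_nonneg p)]
                  ring
              _ ≤ ∑ q ∈ F, y q ^ 2 * (26 * nm q ^ 2) := by
                  refine Finset.sum_le_sum fun q _ => ?_
                  exact mul_le_mul_of_nonneg_left (sum_inv_le F h0 _ (nm_nonneg q)) (sq_nonneg _)
              _ = 26 * Bq := by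
                  rw [hB, Finset.mul_sum]
                  refine Finset.sum_congr rfl fun q _ => ?_
                  ring
  have hT2 : ∑ a ∈ (F ×ˢ F) with ¬ nm a.1 ≤ nm a.2, x a.1 * y a.2 * z (a.1 + a.2)
      ≤ Real.sqrt (Bq * Z) * Real.sqrt (26 * A) := by
    calc ∑ a ∈ (F ×ˢ F) with ¬ nm a.1 ≤ nm a.2, x a.1 * y a.2 * z (a.1 + a.2)
        = ∑ a ∈ (F ×ˢ F) with ¬ nm a.1 ≤ nm a.2,
            (nm a.2 * y a.2 * z (a.1 + a.2)) * ((nm a.2)⁻¹ * x a.1) := by
          refine Finset.sum_congr rfl fun a ha => ?_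
          rw [Finset.mem_filter, Finset.mem_product] at ha
          have h1 : nm a.2 ≠ 0 := (hpos _ ha.1.2).ne'
          field_simp
      _ ≤ Real.sqrt (∑ a ∈ (F ×ˢ F) with ¬ nm a.1 ≤ nm a.2,
            (nm a.2 * y a.2 * z (a.1 + a.2)) ^ 2)
          * Real.sqrt (∑ a ∈ (F ×ˢ F) with ¬ nm a.1 ≤ nm a.2, ((nm a.2)⁻¹ * x a.1) ^ 2) :=
          Real.sum_mul_le_sqrt_mul_sqrt _ _ _
      _ ≤ Real.sqrt (Bq * Z) * Real.sqrt (26 * A) := by
          refine mul_le_mul (Real.sqrt_le_sqrt ?_) (Real.sqrt_le_sqrt ?_) (Real.sqrt_nonneg _)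
            (Real.sqrt_nonneg _)
          · calc ∑ a ∈ (F ×ˢ F) with ¬ nm a.1 ≤ nm a.2,
                (nm a.2 * y a.2 * z (a.1 + a.2)) ^ 2
                ≤ ∑ a ∈ F ×ˢ F, (nm a.2 * y a.2 * z (a.1 + a.2)) ^ 2 :=
                  Finset.sum_le_sum_of_subset_of_nonneg (Finset.filter_subset _ _)
                    (fun a _ _ => sq_nonneg _)
              _ = ∑ q ∈ F, nm q ^ 2 * y q ^ 2 * ∑ p ∈ F, z (p + q) ^ 2 := by
                  rw [Finset.sum_product_right]
                  refine Finset.sum_congr rfl fun q _ => ?_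
                  rw [Finset.mul_sum]
                  refine Finset.sum_congr rfl fun p _ => ?_
                  simp only
                  rw [mul_pow, mul_pow]
              _ ≤ ∑ q ∈ F, nm q ^ 2 * y q ^ 2 * Z := by
                  refine Finset.sum_le_sum fun q _ => ?_
                  refine mul_le_mul_of_nonneg_left ?_ (by positivity)
                  exact shift_le F (fun k => z k ^ 2) (fun k => sq_nonneg _) hz2 F (fun p => p + q)
                    (add_left_injective q)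
              _ = Bq * Z := by rw [hB, Finset.sum_mul]
          · calc ∑ a ∈ (F ×ˢ F) with ¬ nm a.1 ≤ nm a.2, ((nm a.2)⁻¹ * x a.1) ^ 2
                = ∑ p ∈ F, ∑ q ∈ F with ¬ nm p ≤ nm q, ((nm q)⁻¹ * x p) ^ 2 := by
                  rw [Finset.sum_filter, Finset.sum_product]
                  refine Finset.sum_congr rfl fun q _ => ?_
                  rw [Finset.sum_filter]
              _ = ∑ p ∈ F, x p ^ 2 * ∑ q ∈ F with ¬ nm p ≤ nm q, ((nm q) ^ 2)⁻¹ := by
                  refine Finset.sum_congr rfl fun p _ => ?_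
                  rw [Finset.mul_sum]
                  refine Finset.sum_congr rfl fun q _ => ?_
                  rw [mul_pow, inv_pow]
                  ring
              _ ≤ ∑ p ∈ F, x p ^ 2 * (26 * nm p) := by
                  refine Finset.sum_le_sum fun p _ => ?_
                  refine mul_le_mul_of_nonneg_left ?_ (sq_nonneg _)
                  refine le_trans ?_ (sum_inv_sq_le F h0 _ (nm_nonneg p))
                  refine Finset.sum_le_sum_of_subset_of_nonneg ?_ ?_
                  · intro q hq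
                    rw [Finset.mem_filter] at hq ⊢
                    exact ⟨hq.1, (not_le.mp hq.2).le⟩
                  · intro q _ _
                    exact inv_nonneg.mpr (sq_nonneg _)
              _ = 26 * A := by
                  rw [hA, Finset.mul_sum]
                  refine Finset.sum_congr rfl fun q _ => ?_
                  ring
  have h26 : Real.sqrt 26 ≤ 5.1 := by
    rw [show (5.1 : ℝ) = Real.sqrt (5.1 ^ 2) by rw [Real.sqrt_sq (by norm_num)]]
    exact Real.sqrt_le_sqrt (by norm_num)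
  have e1 : Real.sqrt (A * Z) * Real.sqrt (26 * Bq)
      = Real.sqrt 26 * (Real.sqrt A * Real.sqrt Bq * Real.sqrt Z) := by
    rw [Real.sqrt_mul hA0, Real.sqrt_mul (by norm_num)]; ring
  have e2 : Real.sqrt (Bq * Z) * Real.sqrt (26 * A)
      = Real.sqrt 26 * (Real.sqrt A * Real.sqrt Bq * Real.sqrt Z) := by
    rw [Real.sqrt_mul hB0, Real.sqrt_mul (by norm_num)]; ring
  have hP : 0 ≤ Real.sqrt A * Real.sqrt Bq * Real.sqrt Z := by positivity
  rw [e1] at hT1
  rw [e2] at hT2
  nlinarith [mul_le_mul_of_nonneg_right h26 hP]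

/-- reindexing of the convolution double sum -/
lemma reidx (F : Finset Z3) (x y z : Z3 → ℝ) (hxF : ∀ k, k ∉ F → x k = 0)
    (hzF : ∀ k, k ∉ F → z k = 0) :
    ∑ k ∈ F, ∑ p ∈ F, z k * (y p * x (k - p)) = ∑ q ∈ F, ∑ p ∈ F, x q * y p * z (q + p) := by
  classical
  rw [Finset.sum_comm]
  conv_rhs => rw [Finset.sum_comm]
  refine Finset.sum_congr rfl fun p _ => ?_
  have h1 : ∑ k ∈ F, z k * (y p * x (k - p))
      = ∑ k ∈ F ∩ F.image (fun q => q + p), z k * (y p * x (k - p)) := by
    symm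
    refine Finset.sum_subset Finset.inter_subset_left ?_
    intro k hk hk'
    have : k - p ∉ F := by
      intro h
      apply hk'
      rw [Finset.mem_inter]
      exact ⟨hk, Finset.mem_image.mpr ⟨k - p, h, by abel⟩⟩
    rw [hxF _ this]; ring
  have h2 : ∑ q ∈ F, x q * y p * z (q + p)
      = ∑ k ∈ F.image (fun q => q + p), z k * (y p * x (k - p)) := by
    rw [Finset.sum_image (fun a _ b _ h => add_left_injective p h)]
    refine Finset.sum_congr rfl fun q _ => ?_
    rw [add_sub_cancel_right]; ring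
  rw [h1, h2]
  refine Finset.sum_subset Finset.inter_subset_right ?_
  intro k hk hk'
  have : k ∉ F := fun h => hk' (Finset.mem_inter.mpr ⟨h, hk⟩)
  rw [hzF k this]; ring

end Pool.H217R3.Hel
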