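import Pool.Agent.H217R3.Hel.Unif

set_option autoImplicit false
open scoped BigOperators ComplexConjugate NNReal Topology
open Complex Set Filter

namespace Pool.H217R3.Hel

/-- full nonlinearity -/
noncomputable def Binf (u : Z3 → C3) (k : Z3) : C3 := ∑' p, (I * kd (k - p) (u p)) • u (k - p)

/-- rapidly decreasing coefficients -/
def Rapid (u : Z3 → C3) : Prop := ∀ n : ℕ, ∃ C : ℝ, ∀ k, nm k ^ n * ‖u k‖ ≤ C

/-- punctured cubes -/
noncomputable def FN (N : ℕ) : Finset Z3 := (cube N).erase 0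

lemma zero_not_mem_FN (N : ℕ) : (0 : Z3) ∉ FN N := by simp [FN]

lemma FN_symm (N : ℕ) : ∀ k ∈ FN N, -k ∈ FN N := by
  intro k hk
  unfold FN at *
  rw [Finset.mem_erase, mem_cube] at *
  refine ⟨neg_ne_zero.mpr hk.1, fun j => ?_⟩
  have := hk.2 j
  simpa using this

lemma mem_FN (k : Z3) (hk : k ≠ 0) : ∃ N0 : ℕ, ∀ N, N0 ≤ N → k ∈ FN N := by
  refine ⟨⌊nm k⌋₊, fun N hN => ?_⟩
  unfold FN
  rw [Finset.mem_erase]
  exact ⟨hk, cube_mono hN (mem_cube_of_nm_le k (nm k) le_rfl)⟩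

lemma Y_le_of_rapid (u0 : Z3 → C3) (hrap : Rapid u0) :
    ∃ M : ℕ → ℝ, (∀ n, 0 ≤ M n) ∧ ∀ F : Finset Z3, (0 : Z3) ∉ F → ∀ n, Y F u0 n ≤ M n := by
  choose C hC using hrap
  refine ⟨fun n => 52 * (|C (n + 4)| * |C 0|), fun n => by positivity, fun F h0 n => ?_⟩
  unfold Y
  refine sum_le_of_decay F h0 _ _ ?_ (by positivity)
  intro k
  have h1 := (hC (n + 4) k).trans (le_abs_self _)
  have h2 := (hC 0 k).trans (le_abs_self _)
  rw [pow_zero, one_mul] at h2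
  calc nm k ^ 4 * (nm k ^ n * ‖u0 k‖ ^ 2) = (nm k ^ (n + 4) * ‖u0 k‖) * ‖u0 k‖ := by ring
    _ ≤ |C (n + 4)| * |C 0| := mul_le_mul h1 h2 (norm_nonneg _) (abs_nonneg _)

lemma kd_continuous (q : Z3) : Continuous (fun v : C3 => kd q v) := (kdL q).continuous

lemma kd_zero (q : Z3) : kd q 0 = 0 := by simp [kd]

/-- Taylor bound in time -/
lemma taylor {F : Finset Z3} {V : Z3 → Submodule ℂ C3} {δ : Z3 → ℝ} {ν c T : ℝ} {u : ℝ → Z3 → C3}
    (h : Gal F V ν c T u) (hV : Adm V δ) (hν : 0 < ν) (h0 : (0 : Z3) ∉ F)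
    (E D2 G : ℝ)
    (hE : ∀ t ∈ Icc 0 T, Y F (u t) 0 ≤ E)
    (hD2 : ∀ t ∈ Icc 0 T, ∀ k, nm k ^ 2 * ‖u t k‖ ≤ D2)
    (hG : ∀ t ∈ Icc 0 T, ∑ k ∈ F, (1 + nm k) * ‖u t k‖ ≤ G)
    (k : Z3) (hk : k ∈ F) (s : ℝ) (hs : s ∈ Icc 0 T) (t : ℝ) (ht : t ∈ Icc 0 T) :
    ‖u s k - u t k - (s - t) • rhs F V ν c (u t) k‖
      ≤ (ν * nm k ^ 2 * ((ν * D2 + |c| * E) * (1 + nm k))
        + |c| * (nm k * (2 * ((ν * D2 + |c| * E) * (1 + nm k) * G)))) * |s - t| * |s - t| := by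
  set Λ := (ν * nm k ^ 2 * ((ν * D2 + |c| * E) * (1 + nm k))
        + |c| * (nm k * (2 * ((ν * D2 + |c| * E) * (1 + nm k) * G)))) with hΛ
  have hE0 : 0 ≤ E := (Y_nonneg _ _ _).trans (hE s hs)
  have hD20 : 0 ≤ D2 := (mul_nonneg (sq_nonneg _) (norm_nonneg _)).trans (hD2 s hs 0)
  have hG0 : 0 ≤ G := (Finset.sum_nonneg fun k _ =>
    mul_nonneg (by have := nm_nonneg k; positivity) (norm_nonneg _)).trans (hG s hs)
  have hk0 := nm_nonneg k
  have hΛ0 : 0 ≤ Λ := by positivity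
  have hsub : uIcc t s ⊆ Icc 0 T := by
    intro r hr
    rcases le_total t s with hts | hts
    · rw [uIcc_of_le hts] at hr
      exact ⟨ht.1.trans hr.1, hr.2.trans hs.2⟩
    · rw [uIcc_of_ge hts] at hr
      exact ⟨hs.1.trans hr.1, hr.2.trans ht.2⟩
  have h1 := Convex.norm_image_sub_le_of_norm_hasDerivWithin_le
    (f := fun r => u r k - r • rhs F V ν c (u t) k)
    (f' := fun r => rhs F V ν c (u r) k - (1 : ℝ) • rhs F V ν c (u t) k)
    (s := uIcc t s) (x := t) (y := s) (C := Λ * |s - t|)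
    (fun r hr => by
      have h2 := (h.ode r (hsub hr) k hk).mono hsub
      have h3 : HasDerivWithinAt (fun r : ℝ => r • rhs F V ν c (u t) k)
          ((1 : ℝ) • rhs F V ν c (u t) k) (uIcc t s) r :=
        (hasDerivWithinAt_id r _).smul_const _
      exact h2.sub h3)
    (fun r hr => by
      rw [one_smul]
      refine (rhs_lip h hV hν h0 E D2 G hE hD2 hG k r (hsub hr) t ht).trans ?_
      refine mul_le_mul_of_nonneg_left ?_ hΛ0
      exact Set.abs_sub_left_of_mem_uIcc hr)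
    (convex_uIcc t s) left_mem_uIcc right_mem_uIcc
  have h2 : u s k - u t k - (s - t) • rhs F V ν c (u t) k
      = (u s k - s • rhs F V ν c (u t) k) - (u t k - t • rhs F V ν c (u t) k) := by
    module
  rw [h2]
  refine h1.trans (le_of_eq ?_)
  rw [Real.norm_eq_abs]

/-- Global existence for the projected system. -/
theorem global_exists {V : Z3 → Submodule ℂ C3} {δ₁ δ₂ : Z3 → ℝ} {ν : ℝ} (c A : ℝ)
    (hV : Adm V (fun k => δ₁ k + δ₂ k)) (hV0 : V 0 = ⊥)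
    (hδ1 : ∀ k, 0 ≤ δ₁ k) (hδ2 : ∀ k, 0 ≤ δ₂ k) (hA0 : 0 ≤ A)
    (hA : ∀ q : Z3, ∀ m : ℕ, 1 ≤ m → ∑ p ∈ cube m, δ₂ (p + q) ^ 2 ≤ A * (m : ℝ) ^ 2)
    (hδs : Summable (fun k => δ₁ k ^ 2 / nm k ^ 2)) (hν : 0 < ν)
    (u0 : Z3 → C3) (hr0 : ∀ k, u0 (-k) = cj (u0 k)) (hm0 : ∀ k, u0 k ∈ V k) (hrap : Rapid u0) :
    ∃ u : ℝ → Z3 → C3, u 0 = u0 ∧ (∀ t, 0 ≤ t → ∀ k, u t k ∈ V k ∧ u t (-k) = cj (u t k)) ∧
      (∀ T : ℝ, ∀ n : ℕ, ∃ C : ℝ, ∀ t ∈ Icc 0 T, ∀ k, nm k ^ n * ‖u t k‖ ≤ C) ∧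
      ∀ t, 0 ≤ t → ∀ k, HasDerivWithinAt (fun s => u s k)
        ((V k).starProjection (((-(ν * nm k ^ 2) : ℝ) : ℂ) • u t k - ((c : ℝ) : ℂ) • Binf (u t) k))
        (Ici 0) t := by
  classical
  obtain ⟨M, hM0, hM⟩ := Y_le_of_rapid u0 hrap
  have hex := fun N : ℕ => exists_gal (FN N) V ν c hV (FN_symm N) hν u0 hr0 hm0 N (Nat.cast_nonneg N)
  choose U hU hU0 using hex
  have hunif := fun (T : ℝ) (hT : 0 ≤ T) => unif c A hV hδ1 hδ2 hA0 hA hδs hν u0 M hM0 hM T hT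
  -- uniform bounds
  have hY : ∀ T : ℝ, 0 ≤ T → ∀ m : ℕ, ∃ D : ℝ, 0 ≤ D ∧ ∀ N : ℕ, T ≤ N → ∀ t ∈ Icc 0 T,
      Y (FN N) (U N t) (2 * m) ≤ D := by
    intro T hT m
    obtain ⟨D, hD0, hD⟩ := hunif T hT m
    refine ⟨D, hD0, fun N hN t ht => ?_⟩
    exact hD (FN N) (zero_not_mem_FN N) (FN_symm N) (U N) ((hU N).mono hN) (hU0 N) t ht
  have hpt : ∀ T : ℝ, 0 ≤ T → ∀ m : ℕ, ∃ D : ℝ, 0 ≤ D ∧ ∀ N : ℕ, T ≤ N → ∀ t ∈ Icc 0 T, ∀ k,
      nm k ^ m * ‖U N t k‖ ≤ D := by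
    intro T hT m
    obtain ⟨D, hD0, hD⟩ := hY T hT m
    refine ⟨Real.sqrt D, Real.sqrt_nonneg _, fun N hN t ht k => ?_⟩
    exact pt_le (FN N) (U N t) (((hU N).mono hN).supp t ht) m D (hD N hN t ht) k
  set 𝓗 : Filter ℕ := (hyperfilter ℕ : Filter ℕ) with h𝓗
  have hev : ∀ {p : ℕ → Prop}, (∀ᶠ N in atTop, p N) → ∀ᶠ N in 𝓗, p N := fun h =>
    h.filter_mono Nat.hyperfilter_le_atTop
  have hgeT : ∀ T : ℝ, ∀ᶠ N : ℕ in 𝓗, T ≤ N := fun T => hev (by
    filter_upwards [eventually_ge_atTop ⌈T⌉₊] with N hN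
    exact (Nat.le_ceil T).trans (by exact_mod_cast hN))
  -- limits
  have hlim : ∀ t : ℝ, ∃ w : Z3 → C3, 0 ≤ t → ∀ k, Tendsto (fun N => U N t k) 𝓗 (𝓝 (w k)) := by
    intro t
    by_cases ht : 0 ≤ t
    · obtain ⟨D, hD0, hD⟩ := hpt t ht 0
      have hk : ∀ k, ∃ v : C3, Tendsto (fun N => U N t k) 𝓗 (𝓝 v) := by
        intro k
        have hc := (isCompact_closedBall (0 : C3) D).ultrafilter_le_nhds
          ((hyperfilter ℕ).map (fun N => U N t k)) (by
            rw [le_principal_iff, Ultrafilter.coe_map]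
            change ∀ᶠ N in 𝓗, U N t k ∈ Metric.closedBall (0 : C3) D
            filter_upwards [hgeT t] with N hN
            rw [mem_closedBall_zero_iff]
            have := hD N hN t ⟨ht, le_rfl⟩ k
            simpa using this)
        obtain ⟨v, _, hv⟩ := hc
        exact ⟨v, hv⟩
      choose w hw using hk
      exact ⟨w, fun _ => hw⟩
    · exact ⟨0, fun h => absurd h ht⟩
  choose u hu using hlim
  -- constraints
  have hmem : ∀ t, 0 ≤ t → ∀ k, u t k ∈ V k := by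
    intro t ht k
    refine (V k).closed_of_finiteDimensional.mem_of_tendsto (hu t ht k) ?_
    filter_upwards [hgeT t] with N hN
    exact (hU N).mem t ⟨ht, hN⟩ k
  have hreal : ∀ t, 0 ≤ t → ∀ k, u t (-k) = cj (u t k) := by
    intro t ht k
    have hcjc : Continuous cj := by
      have : cj = LinearMap.toContinuousLinearMap
        ({ toFun := cj
           map_add' := cj_add
           map_smul' := fun a v => by ext j; simp } : C3 →ₗ[ℝ] C3) := rfl
      rw [this]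
      exact ContinuousLinearMap.continuous _
    refine tendsto_nhds_unique (hu t ht (-k)) ?_
    refine ((hcjc.tendsto _).comp (hu t ht k)).congr' ?_
    filter_upwards [hgeT t] with N hN
    exact ((hU N).real t ⟨ht, hN⟩ k).symm
  have hdec : ∀ T : ℝ, ∀ n : ℕ, ∃ C : ℝ, ∀ t ∈ Icc 0 T, ∀ k, nm k ^ n * ‖u t k‖ ≤ C := by
    intro T n
    by_cases hT : 0 ≤ T
    · obtain ⟨D, hD0, hD⟩ := hpt T hT n
      refine ⟨D, fun t ht k => ?_⟩
      refine le_of_tendsto ((hu t ht.1 k).norm.const_mul (nm k ^ n)) ?_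
      filter_upwards [hgeT T] with N hN
      exact hD N hN t ht k
    · exact ⟨0, fun t ht => absurd (ht.1.trans ht.2) hT⟩
  have hinit : u 0 = u0 := by
    funext k
    refine tendsto_nhds_unique (hu 0 le_rfl k) ?_
    by_cases hk : k = 0
    · subst hk
      have h1 : u0 0 = 0 := by
        have := hm0 0
        rwa [hV0, Submodule.mem_bot] at this
      rw [h1]
      refine tendsto_const_nhds.congr fun N => ?_
      rw [hU0, if_neg (zero_not_mem_FN N)]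
    · obtain ⟨N0, hN0⟩ := mem_FN k hk
      refine tendsto_const_nhds.congr' ?_
      refine hev ?_
      filter_upwards [eventually_ge_atTop N0] with N hN
      rw [hU0, if_pos (hN0 N hN)]
  refine ⟨u, hinit, fun t ht k => ⟨hmem t ht k, hreal t ht k⟩, hdec, ?_⟩
  intro t ht k
  by_cases hk : k = 0
  · subst hk
    have h1 : ∀ v ∈ V 0, v = 0 := by
      intro v hv
      rwa [hV0, Submodule.mem_bot] at hv
    rw [h1 _ (Submodule.starProjection_apply_mem _ _)]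
    refine (hasDerivWithinAt_const t (Ici 0) (0 : C3)).congr ?_ ?_
    · intro s hs
      exact h1 _ (hmem s hs 0)
    · exact h1 _ (hmem t ht 0)
  -- limit of the right hand side
  have hB : Tendsto (fun N => B (FN N) (U N t) k) 𝓗 (𝓝 (Binf (u t) k)) := by
    obtain ⟨D1, hD10, hD1⟩ := hpt t ht 1
    obtain ⟨D4, hD40, hD4⟩ := hpt t ht 4
    have htt : t ∈ Icc 0 t := ⟨ht, le_rfl⟩
    have heq : ∀ᶠ N in 𝓗, (∑' p, (I * kd (k - p) (U N t p)) • U N t (k - p))
        = B (FN N) (U N t) k := by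
      filter_upwards [hgeT t] with N hN
      unfold B
      refine tsum_eq_sum fun p hp => ?_
      rw [(hU N).supp t ⟨ht, hN⟩ p hp, kd_zero, mul_zero, zero_smul]
    refine Tendsto.congr' heq ?_
    unfold Binf
    refine tendsto_tsum_of_dominated_convergence
      (bound := fun p => D1 * D4 * (if p = 0 then 0 else ((nm p) ^ 4)⁻¹))
      (summable_inv_four.mul_left _) ?_ ?_
    · intro p
      have h1 := ((kd_continuous (k - p)).tendsto _).comp (hu t ht p)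
      exact (h1.const_mul I).smul (hu t ht (k - p))
    · filter_upwards [hgeT t] with N hN
      intro p
      rw [norm_smul, norm_mul, Complex.norm_I, one_mul]
      by_cases hp : p = 0
      · subst hp
        rw [(hU N).supp t ⟨ht, hN⟩ 0 (zero_not_mem_FN N), kd_zero]
        simp
      · rw [if_neg hp]
        have h1 : ‖kd (k - p) (U N t p)‖ * ‖U N t (k - p)‖
            ≤ ‖U N t p‖ * (nm (k - p) ^ 1 * ‖U N t (k - p)‖) := by
          have := mul_le_mul_of_nonneg_right (norm_kd_le (k - p) (U N t p))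
            (norm_nonneg (U N t (k - p)))
          refine this.trans (le_of_eq (by ring))
        have h2 : ‖U N t p‖ ≤ D4 * ((nm p) ^ 4)⁻¹ := by
          have h3 : 0 < nm p := lt_of_lt_of_le one_pos (one_le_nm p hp)
          rw [← div_eq_mul_inv, le_div_iff₀ (by positivity), mul_comm]
          exact hD4 N hN t htt p
        calc _ ≤ ‖U N t p‖ * (nm (k - p) ^ 1 * ‖U N t (k - p)‖) := h1
          _ ≤ (D4 * ((nm p) ^ 4)⁻¹) * D1 :=
              mul_le_mul h2 (hD1 N hN t htt (k - p))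
                (mul_nonneg (pow_nonneg (nm_nonneg _) _) (norm_nonneg _))
                (mul_nonneg hD40 (inv_nonneg.mpr (pow_nonneg (nm_nonneg _) _)))
          _ = _ := by ring
  set R : C3 := (V k).starProjection (((-(ν * nm k ^ 2) : ℝ) : ℂ) • u t k
    - ((c : ℝ) : ℂ) • Binf (u t) k) with hR
  have hrhs : Tendsto (fun N => rhs (FN N) V ν c (U N t) k) 𝓗 (𝓝 R) := by
    unfold rhs
    refine (((V k).starProjection.continuous.tendsto _).comp
      (((hu t ht k).const_smul (((-(ν * nm k ^ 2) : ℝ) : ℂ))).sub (hB.const_smul ((c : ℝ) : ℂ))))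
  -- Taylor bound
  have hT1 : 0 ≤ t + 1 := by linarith
  obtain ⟨E, hE0, hE⟩ := hY (t + 1) hT1 0
  obtain ⟨D2, hD20, hD2⟩ := hpt (t + 1) hT1 2
  obtain ⟨D4, hD40, hD4⟩ := hpt (t + 1) hT1 4
  obtain ⟨D5, hD50, hD5⟩ := hpt (t + 1) hT1 5
  obtain ⟨N0, hN0⟩ := mem_FN k hk
  set G := 52 * (D4 + D5) with hG
  set Λ := (ν * nm k ^ 2 * ((ν * D2 + |c| * E) * (1 + nm k))
        + |c| * (nm k * (2 * ((ν * D2 + |c| * E) * (1 + nm k) * G)))) with hΛ
  have hkey : ∀ s ∈ Icc 0 (t + 1), ‖u s k - u t k - (s - t) • R‖ ≤ Λ * |s - t| * |s - t| := by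
    intro s hs
    have h1 : Tendsto (fun N => ‖U N s k - U N t k - (s - t) • rhs (FN N) V ν c (U N t) k‖) 𝓗
        (𝓝 ‖u s k - u t k - (s - t) • R‖) :=
      (((hu s hs.1 k).sub (hu t ht k)).sub (hrhs.const_smul (s - t))).norm
    refine le_of_tendsto h1 ?_
    filter_upwards [hgeT (t + 1), hev (eventually_ge_atTop N0)] with N hN hN'
    have hg := (hU N).mono hN
    exact taylor hg hV hν (zero_not_mem_FN N) E D2 G (fun r hr => hE N hN r hr)
      (fun r hr q => hD2 N hN r hr q) (fun r hr => by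
        refine sum_le_of_decay (FN N) (zero_not_mem_FN N) _ (D4 + D5) ?_ (by linarith)
        intro q
        have h4 := hD4 N hN r hr q
        have h5 := hD5 N hN r hr q
        calc nm q ^ 4 * ((1 + nm q) * ‖U N r q‖) = nm q ^ 4 * ‖U N r q‖ + nm q ^ 5 * ‖U N r q‖ := by
              ring
          _ ≤ D4 + D5 := add_le_add h4 h5) k (hN0 N hN') s hs t ⟨ht, by linarith⟩
  rw [hasDerivWithinAt_iff_isLittleO]
  have hO : (fun s => u s k - u t k - (s - t) • R) =O[𝓝[Ici 0] t] fun s => (s - t) ^ 2 := by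
    refine Asymptotics.IsBigO.of_bound Λ ?_
    have hnb : Iio (t + 1) ∈ 𝓝[Ici 0] t := mem_nhdsWithin_of_mem_nhds (Iio_mem_nhds (by linarith))
    filter_upwards [hnb, self_mem_nhdsWithin] with s hs1 hs2
    refine (hkey s ⟨hs2, le_of_lt hs1⟩).trans (le_of_eq ?_)
    rw [Real.norm_eq_abs, abs_pow]
    ring
  refine hO.trans_isLittleO ?_
  have h2 : (fun s : ℝ => (s - t) ^ 2) =o[𝓝 t] fun s => s - t := by
    have h3 : Tendsto (fun s : ℝ => s - t) (𝓝 t) (𝓝 0) := by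
      have : Tendsto (fun s : ℝ => s - t) (𝓝 t) (𝓝 (t - t)) :=
        (continuous_id.sub continuous_const).tendsto t
      rwa [sub_self] at this
    have h4 := (Asymptotics.isLittleO_pow_id (n := 2) (by norm_num : 1 < 2) : (fun x : ℝ => x ^ 2) =o[𝓝 0] fun x => x)
    exact h4.comp_tendsto h3
  exact h2.mono nhdsWithin_le_nhds

end Pool.H217R3.Hel
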