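import Pool.Agent.H217R3.Hel.Defs

set_option autoImplicit false
open scoped BigOperators ComplexConjugate

namespace Pool.H217R3.Hel

/-- cube of side `2m+1` -/
noncomputable def cube (m : ℕ) : Finset Z3 := Finset.Icc (fun _ => -(m : ℤ)) (fun _ => (m : ℤ))

lemma mem_cube (m : ℕ) (k : Z3) : k ∈ cube m ↔ ∀ j, |k j| ≤ (m : ℤ) := by
  unfold cube
  rw [Finset.mem_Icc]
  constructor
  · rintro ⟨h1, h2⟩ j
    exact abs_le.mpr ⟨h1 j, h2 j⟩
  · intro h
    exact ⟨fun j => (abs_le.mp (h j)).1, fun j => (abs_le.mp (h j)).2⟩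

lemma card_cube (m : ℕ) : (cube m).card = (2 * m + 1) ^ 3 := by
  unfold cube
  rw [Pi.card_Icc]
  simp
  congr 1
  omega

lemma cube_mono {m n : ℕ} (h : m ≤ n) : cube m ⊆ cube n := by
  intro k hk
  rw [mem_cube] at *
  intro j
  have := hk j
  have h' : (m : ℤ) ≤ n := by exact_mod_cast h
  linarith

lemma le_nm (k : Z3) (j : Fin 3) : |(k j : ℝ)| ≤ nm k := by
  unfold nm
  apply Real.le_sqrt_of_sq_le
  rw [sq_abs]
  exact Finset.single_le_sum (f := fun j => (k j : ℝ) ^ 2) (fun i _ => sq_nonneg _)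
    (Finset.mem_univ j)

lemma one_le_nm (k : Z3) (hk : k ≠ 0) : 1 ≤ nm k := by
  obtain ⟨j, hj⟩ : ∃ j, k j ≠ 0 := by
    by_contra h
    push Not at h
    exact hk (funext h)
  refine le_trans ?_ (le_nm k j)
  have : (1 : ℤ) ≤ |k j| := Int.one_le_abs hj
  exact_mod_cast this

lemma not_mem_cube_nm (m : ℕ) (k : Z3) (h : k ∉ cube m) : (m : ℝ) + 1 ≤ nm k := by
  rw [mem_cube] at h
  push Not at h
  obtain ⟨j, hj⟩ := h
  refine le_trans ?_ (le_nm k j)
  have : (m : ℤ) + 1 ≤ |k j| := hj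
  exact_mod_cast this

/-- Sum of `1/|p|` over nonzero `p` in the cube. -/
lemma sum_inv (m : ℕ) : ∑ p ∈ cube m, (if p = 0 then 0 else (nm p)⁻¹) ≤ 26 * (m : ℝ) ^ 2 := by
  induction m with
  | zero =>
    have : cube 0 = {0} := by
      ext k
      rw [mem_cube, Finset.mem_singleton]
      constructor
      · intro h
        funext j
        have := h j
        simpa using this
      · intro h
        simp [h]
    rw [this]
    simp
  | succ m ih =>
    have hsub : cube m ⊆ cube (m + 1) := cube_mono (Nat.le_succ m)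
    rw [← Finset.sum_sdiff hsub]
    have h1 : ∑ p ∈ cube (m + 1) \ cube m, (if p = 0 then 0 else (nm p)⁻¹)
        ≤ ∑ p ∈ cube (m + 1) \ cube m, ((m : ℝ) + 1)⁻¹ := by
      refine Finset.sum_le_sum fun p hp => ?_
      rw [Finset.mem_sdiff] at hp
      split_ifs with h0
      · positivity
      · exact inv_anti₀ (by positivity) (not_mem_cube_nm m p hp.2)
    have h2 : (∑ p ∈ cube (m + 1) \ cube m, ((m : ℝ) + 1)⁻¹)
        = (((2 * (m + 1) + 1) ^ 3 - (2 * m + 1) ^ 3 : ℕ) : ℝ) * ((m : ℝ) + 1)⁻¹ := by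
      rw [Finset.sum_const, nsmul_eq_mul, Finset.card_sdiff_of_subset hsub, card_cube, card_cube]
    have h3 : (((2 * (m + 1) + 1) ^ 3 - (2 * m + 1) ^ 3 : ℕ) : ℝ) = 24 * ((m : ℝ) + 1) ^ 2 + 2 := by
      rw [Nat.cast_sub (by gcongr; omega)]
      push_cast
      ring
    rw [h2, h3] at h1
    have hm : (0 : ℝ) ≤ m := Nat.cast_nonneg m
    have h4 : (24 * ((m : ℝ) + 1) ^ 2 + 2) * ((m : ℝ) + 1)⁻¹ ≤ 26 * ((m : ℝ) + 1) := by
      rw [← div_eq_mul_inv, div_le_iff₀ (by positivity)]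
      nlinarith
    push_cast
    nlinarith

/-- Sum of `1/|p|²` over nonzero `p` in the cube. -/
lemma sum_inv_sq (m : ℕ) :
    ∑ p ∈ cube m, (if p = 0 then 0 else ((nm p) ^ 2)⁻¹) ≤ 26 * (m : ℝ) := by
  induction m with
  | zero =>
    have : cube 0 = {0} := by
      ext k
      rw [mem_cube, Finset.mem_singleton]
      constructor
      · intro h
        funext j
        have := h j
        simpa using this
      · intro h
        simp [h]
    rw [this]
    simp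
  | succ m ih =>
    have hsub : cube m ⊆ cube (m + 1) := cube_mono (Nat.le_succ m)
    rw [← Finset.sum_sdiff hsub]
    have h1 : ∑ p ∈ cube (m + 1) \ cube m, (if p = 0 then 0 else ((nm p) ^ 2)⁻¹)
        ≤ ∑ p ∈ cube (m + 1) \ cube m, (((m : ℝ) + 1) ^ 2)⁻¹ := by
      refine Finset.sum_le_sum fun p hp => ?_
      rw [Finset.mem_sdiff] at hp
      split_ifs with h0
      · positivity
      · exact inv_anti₀ (by positivity) (pow_le_pow_left₀ (by positivity) (not_mem_cube_nm m p hp.2) 2)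
    have h2 : (∑ p ∈ cube (m + 1) \ cube m, (((m : ℝ) + 1) ^ 2)⁻¹)
        = (((2 * (m + 1) + 1) ^ 3 - (2 * m + 1) ^ 3 : ℕ) : ℝ) * (((m : ℝ) + 1) ^ 2)⁻¹ := by
      rw [Finset.sum_const, nsmul_eq_mul, Finset.card_sdiff_of_subset hsub, card_cube, card_cube]
    have h3 : (((2 * (m + 1) + 1) ^ 3 - (2 * m + 1) ^ 3 : ℕ) : ℝ) = 24 * ((m : ℝ) + 1) ^ 2 + 2 := by
      rw [Nat.cast_sub (by gcongr; omega)]
      push_cast
      ring
    rw [h2, h3] at h1
    have hm : (0 : ℝ) ≤ m := Nat.cast_nonneg m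
    have h4 : (24 * ((m : ℝ) + 1) ^ 2 + 2) * (((m : ℝ) + 1) ^ 2)⁻¹ ≤ 26 := by
      rw [← div_eq_mul_inv, div_le_iff₀ (by positivity)]
      nlinarith
    push_cast
    linarith

lemma mem_cube_of_nm_le (k : Z3) (R : ℝ) (hR : nm k ≤ R) : k ∈ cube ⌊R⌋₊ := by
  rw [mem_cube]
  intro j
  have h0 : 0 ≤ R := (nm_nonneg k).trans hR
  have h1 : |(k j : ℝ)| ≤ R := (le_nm k j).trans hR
  have h2 : ((k j).natAbs : ℝ) ≤ R := by
    rw [Nat.cast_natAbs]
    push_cast
    exact h1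
  have h3 : (k j).natAbs ≤ ⌊R⌋₊ := Nat.le_floor h2
  rw [Int.abs_eq_natAbs]
  exact_mod_cast h3

lemma sum_inv_le (F : Finset Z3) (hF : (0 : Z3) ∉ F) (R : ℝ) (hR : 0 ≤ R) :
    ∑ p ∈ F with nm p ≤ R, (nm p)⁻¹ ≤ 26 * R ^ 2 := by
  calc ∑ p ∈ F with nm p ≤ R, (nm p)⁻¹
      = ∑ p ∈ F with nm p ≤ R, (if p = 0 then 0 else (nm p)⁻¹) := by
        refine Finset.sum_congr rfl fun p hp => ?_
        rw [if_neg]
        rintro rfl
        exact hF (Finset.mem_filter.mp hp).1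
    _ ≤ ∑ p ∈ cube ⌊R⌋₊, (if p = 0 then 0 else (nm p)⁻¹) := by
        refine Finset.sum_le_sum_of_subset_of_nonneg ?_ ?_
        · intro p hp
          exact mem_cube_of_nm_le p R (Finset.mem_filter.mp hp).2
        · intro p _ _
          split_ifs
          · exact le_rfl
          · exact inv_nonneg.mpr (nm_nonneg p)
    _ ≤ 26 * (⌊R⌋₊ : ℝ) ^ 2 := sum_inv _
    _ ≤ 26 * R ^ 2 := by
        have := Nat.floor_le hR
        gcongr

lemma sum_inv_sq_le (F : Finset Z3) (hF : (0 : Z3) ∉ F) (R : ℝ) (hR : 0 ≤ R) :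
    ∑ p ∈ F with nm p ≤ R, ((nm p) ^ 2)⁻¹ ≤ 26 * R := by
  calc ∑ p ∈ F with nm p ≤ R, ((nm p) ^ 2)⁻¹
      = ∑ p ∈ F with nm p ≤ R, (if p = 0 then 0 else ((nm p) ^ 2)⁻¹) := by
        refine Finset.sum_congr rfl fun p hp => ?_
        rw [if_neg]
        rintro rfl
        exact hF (Finset.mem_filter.mp hp).1
    _ ≤ ∑ p ∈ cube ⌊R⌋₊, (if p = 0 then 0 else ((nm p) ^ 2)⁻¹) := by
        refine Finset.sum_le_sum_of_subset_of_nonneg ?_ ?_
        · intro p hp
          exact mem_cube_of_nm_le p R (Finset.mem_filter.mp hp).2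
        · intro p _ _
          split_ifs
          · exact le_rfl
          · exact inv_nonneg.mpr (pow_nonneg (nm_nonneg p) 2)
    _ ≤ 26 * (⌊R⌋₊ : ℝ) := sum_inv_sq _
    _ ≤ 26 * R := by
        have := Nat.floor_le hR
        gcongr

end Pool.H217R3.Hel
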