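import Pool.Agent.H217R3.Hel.Dyn

set_option autoImplicit false
open scoped BigOperators ComplexConjugate NNReal
open Complex Set

namespace Pool.H217R3.Hel

lemma exists_ode {X : Type*} [NormedAddCommGroup X] [NormedSpace ℝ X] [CompleteSpace X] (g : X → X)
    (K L : ℝ≥0) (hK : LipschitzWith K g) (hL : ∀ x, ‖g x‖ ≤ L) (x0 : X) (T : ℝ) (hT : 0 ≤ T) :
    ∃ x : ℝ → X, x 0 = x0 ∧ ∀ t ∈ Icc 0 T, HasDerivWithinAt x (g (x t)) (Icc 0 T) t := by
  have hP : IsPicardLindelof (fun _ => g) (tmin := 0) (tmax := T) ⟨0, ⟨le_rfl, hT⟩⟩ x0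
      (L * ⟨T, hT⟩) 0 L K := by
    refine ⟨fun t _ => hK.lipschitzOnWith, fun x _ => continuousOn_const, fun t _ x _ => hL x, ?_⟩
    simp [hT]
    exact le_rfl
  exact hP.exists_eq_forall_mem_Icc_hasDerivWithinAt₀

lemma cj_rsmul (a : ℝ) (v : C3) : cj (a • v) = a • cj v := by
  ext j; simp

variable (F : Finset Z3) (V : Z3 → Submodule ℂ C3) (ν c : ℝ)

/-- extension by zero -/
noncomputable def ext (x : F → C3) (k : Z3) : C3 := if h : k ∈ F then x ⟨k, h⟩ else 0

lemma ext_of_mem (x : F → C3) (k : Z3) (h : k ∈ F) : ext F x k = x ⟨k, h⟩ := by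
  simp [ext, h]

lemma ext_of_not_mem (x : F → C3) (k : Z3) (h : k ∉ F) : ext F x k = 0 := by
  simp [ext, h]

lemma contDiff_ext (k : Z3) : ContDiff ℝ 1 (fun x : F → C3 => ext F x k) := by
  by_cases h : k ∈ F
  · simp only [ext_of_mem F _ k h]
    exact contDiff_apply ℝ C3 (⟨k, h⟩ : F)
  · simp only [ext_of_not_mem F _ k h]
    exact contDiff_const

/-- `kd q` as a real continuous linear map -/
noncomputable def kdL (q : Z3) : C3 →L[ℝ] ℂ :=
  LinearMap.toContinuousLinearMap
    { toFun := kd q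
      map_add' := fun v w => by simp [kd, mul_add, Finset.sum_add_distrib]
      map_smul' := fun a v => by
        simp [kd, Finset.mul_sum]
        refine Finset.sum_congr rfl fun j _ => by ring }

lemma kdL_apply (q : Z3) (v : C3) : kdL q v = kd q v := rfl

lemma contDiff_B (k : Z3) : ContDiff ℝ 1 (fun x : F → C3 => B F (ext F x) k) := by
  unfold B
  refine ContDiff.sum fun p _ => ?_
  refine ContDiff.smul (f := fun x : F → C3 => I * kd (k - p) (ext F x p)) ?_ (contDiff_ext F (k - p))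
  refine contDiff_const.mul ?_
  exact (kdL (k - p)).contDiff.comp (contDiff_ext F p)

/-- the right hand side at wave vector `k` -/
noncomputable def rhs (u : Z3 → C3) (k : Z3) : C3 :=
  (V k).starProjection (((-(ν * nm k ^ 2) : ℝ) : ℂ) • u k - ((c : ℝ) : ℂ) • B F u k)

lemma contDiff_rhs (k : Z3) : ContDiff ℝ 1 (fun x : F → C3 => rhs F V ν c (ext F x) k) := by
  unfold rhs
  have h1 : ContDiff ℝ 1 (fun x : F → C3 => ((-(ν * nm k ^ 2) : ℝ) : ℂ) • ext F x k
      - ((c : ℝ) : ℂ) • B F (ext F x) k) :=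
    ((contDiff_ext F k).const_smul _).sub ((contDiff_B F k).const_smul _)
  exact ((V k).starProjection.restrictScalars ℝ).contDiff.comp h1

lemma proj_cj {δ : Z3 → ℝ} (hV : Adm V δ) (k : Z3) (v : C3) :
    (V (-k)).starProjection (cj v) = cj ((V k).starProjection v) := by
  apply Submodule.eq_starProjection_of_mem_of_inner_eq_zero
  · exact hV.cjm k _ (Submodule.starProjection_apply_mem _ _)
  · intro w hw
    have h1 : cj v - cj ((V k).starProjection v) = cj (v - (V k).starProjection v) := by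
      ext j; simp
    have h2 : cj w ∈ V k := by
      have := hV.cjm (-k) w hw
      rwa [neg_neg] at this
    rw [h1, ← cj_cj w, inner_cj, (V k).starProjection_inner_eq_zero v _ h2, map_zero]

lemma B_cj (hF : ∀ k ∈ F, -k ∈ F) (u : Z3 → C3) (hr : ∀ k, u (-k) = cj (u k)) (k : Z3) :
    B F u (-k) = cj (B F u k) := by
  have h1 : cj (B F u k) = ∑ p ∈ F, cj ((I * kd (k - p) (u p)) • u (k - p)) := by
    unfold B
    ext j
    simp [map_sum]
  rw [h1]
  unfold B
  refine Finset.sum_nbij' (fun p => -p) (fun p => -p) (fun p hp => hF p hp) (fun p hp => hF p hp)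
    (fun p _ => neg_neg p) (fun p _ => neg_neg p) ?_
  intro p _
  rw [cj_smul, hr p, show k - -p = -(-k - p) by abel, hr (-k - p), cj_cj, kd_neg]
  rw [map_mul, Complex.conj_I, map_neg, kd_cj, Complex.conj_conj]
  congr 1
  ring

lemma rhs_cj {δ : Z3 → ℝ} (hV : Adm V δ) (hF : ∀ k ∈ F, -k ∈ F) (u : Z3 → C3)
    (hr : ∀ k, u (-k) = cj (u k)) (k : Z3) : rhs F V ν c u (-k) = cj (rhs F V ν c u k) := by
  unfold rhs
  rw [B_cj F hF u hr, hr k, nm_neg, ← proj_cj V hV]
  congr 1
  ext j
  simp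

/-- Existence for the truncated system. -/
theorem exists_gal {δ : Z3 → ℝ} (hV : Adm V δ) (hF : ∀ k ∈ F, -k ∈ F) (hν : 0 < ν)
    (u0 : Z3 → C3) (hr0 : ∀ k, u0 (-k) = cj (u0 k)) (hm0 : ∀ k, u0 k ∈ V k) (T : ℝ) (hT : 0 ≤ T) :
    ∃ u : ℝ → Z3 → C3, Gal F V ν c T u ∧ ∀ k, u 0 k = if k ∈ F then u0 k else 0 := by
  classical
  -- radius
  set R : ℝ := Real.sqrt (∑ k ∈ F, ‖u0 k‖ ^ 2) + 1 with hR
  have hRpos : 0 < R := by positivity
  let θ : ContDiffBump (0 : F → C3) := ⟨R, R + 1, hRpos, by linarith⟩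
  let f : (F → C3) → (F → C3) := fun x k => rhs F V ν c (ext F x) k
  let mk : F → F := fun k => ⟨-(k : Z3), hF k k.2⟩
  let g : (F → C3) → (F → C3) := fun x k => ((θ x / 2 : ℝ)) • (f x k + cj (f x (mk k)))
  have hθs : HasCompactSupport (θ : (F → C3) → ℝ) := θ.hasCompactSupport
  have hcj : ContDiff ℝ 1 (fun v : C3 => cj v) := by
    have : (fun v : C3 => cj v) = LinearMap.toContinuousLinearMap
        ({ toFun := cj
           map_add' := cj_add
           map_smul' := fun a v => by ext j; simp } : C3 →ₗ[ℝ] C3) := rfl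
    rw [this]
    exact ContinuousLinearMap.contDiff _
  have hgC : ContDiff ℝ 1 g := by
    rw [contDiff_pi]
    intro k
    refine ContDiff.smul (f := fun x : F → C3 => θ x / 2) (θ.contDiff.div_const _) ?_
    exact (contDiff_rhs F V ν c k).add (hcj.comp (contDiff_rhs F V ν c (mk k)))
  have hgS : HasCompactSupport g := by
    refine hθs.mono' ?_
    intro x hx
    apply subset_closure
    rw [Function.mem_support] at hx ⊢
    intro h0
    apply hx
    funext k
    simp only [g, h0]
    simp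
  obtain ⟨K, hK⟩ := ContDiff.lipschitzWith_of_hasCompactSupport hgS hgC (by norm_num)
  obtain ⟨L, hL⟩ := hgS.exists_bound_of_continuous hgC.continuous
  have hL0 : 0 ≤ L := (norm_nonneg _).trans (hL 0)
  let x0 : F → C3 := fun k => u0 k
  obtain ⟨x, hx0, hx⟩ := exists_ode g K ⟨L, hL0⟩ hK hL x0 T hT
  have hxk : ∀ t ∈ Icc 0 T, ∀ k : F, HasDerivWithinAt (fun s => x s k) (g (x t) k) (Icc 0 T) t :=
    fun t ht k => (hasDerivWithinAt_pi.mp (hx t ht)) k
  have hconst : ∀ y : ℝ → C3, (∀ t ∈ Icc 0 T, HasDerivWithinAt y 0 (Icc 0 T) t) → y 0 = 0 →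
      ∀ t ∈ Icc 0 T, y t = 0 := by
    intro y hy hy0 t ht
    have h1 := norm_image_sub_le_of_norm_deriv_le_segment' (f := y) (f' := fun _ => 0) (C := 0)
      (a := 0) (b := T) hy (fun s _ => by simp) t ht
    rw [hy0, sub_zero, zero_mul] at h1
    exact norm_le_zero_iff.mp h1
  -- membership
  have hfmem : ∀ y : F → C3, ∀ k : F, f y k ∈ V k := fun y k => Submodule.starProjection_apply_mem _ _
  have hgmem : ∀ y : F → C3, ∀ k : F, g y k ∈ V k := by
    intro y k
    have h1 : f y k + cj (f y (mk k)) ∈ V k := by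
      refine Submodule.add_mem _ (hfmem y k) ?_
      have := hV.cjm _ _ (hfmem y (mk k))
      simp only [mk, neg_neg] at this
      exact this
    have h2 : g y k = ((θ y / 2 : ℝ) : ℂ) • (f y k + cj (f y (mk k))) := by
      simp only [g]
      ext j
      simp
    rw [h2]
    exact Submodule.smul_mem _ _ h1
  have hmem : ∀ t ∈ Icc 0 T, ∀ k : F, x t k ∈ V k := by
    intro t ht k
    have h1 := hconst (fun s => x s k - (V k).starProjection (x s k)) (fun s hs => by
      have h2 := hxk s hs k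
      have h3 := ((V k).starProjection.restrictScalars ℝ).hasFDerivAt.comp_hasDerivWithinAt s h2
      refine (h2.sub h3).congr_deriv ?_
      have h4 : (V k).starProjection (g (x s) k) = g (x s) k :=
        Submodule.starProjection_eq_self_iff.mpr (hgmem _ _)
      change g (x s) k - (V k).starProjection (g (x s) k) = 0
      rw [h4, sub_self]) (by
      have h4 : (V k).starProjection (x 0 k) = x 0 k := by
        apply Submodule.starProjection_eq_self_iff.mpr
        rw [hx0]; exact hm0 k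
      rw [h4, sub_self]) t ht
    have h2 : (V k).starProjection (x t k) = x t k := (sub_eq_zero.mp h1).symm
    exact Submodule.starProjection_eq_self_iff.mp h2
  -- reality
  have hgreal : ∀ y : F → C3, ∀ k : F, g y (mk k) = cj (g y k) := by
    intro y k
    have hmm : mk (mk k) = k := by
      apply Subtype.ext
      simp [mk]
    simp only [g, hmm]
    rw [cj_rsmul, cj_add, cj_cj, add_comm]
  have hreal : ∀ t ∈ Icc 0 T, ∀ k : F, x t (mk k) = cj (x t k) := by
    intro t ht k
    have h1 := hconst (fun s => x s (mk k) - cj (x s k)) (fun s hs => by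
      have h2 := hxk s hs k
      have h2' := hxk s hs (mk k)
      let cL : C3 →L[ℝ] C3 := LinearMap.toContinuousLinearMap
        ({ toFun := cj
           map_add' := cj_add
           map_smul' := fun a v => by ext j; simp } : C3 →ₗ[ℝ] C3)
      have h3 := cL.hasFDerivAt.comp_hasDerivWithinAt s h2
      refine (h2'.sub h3).congr_deriv ?_
      change g (x s) (mk k) - cj (g (x s) k) = 0
      rw [hgreal, sub_self]) (by
      simp only [hx0]
      change u0 (-(k : Z3)) - cj (u0 k) = 0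
      rw [hr0, sub_self]) t ht
    exact sub_eq_zero.mp h1
  have hreal' : ∀ t ∈ Icc 0 T, ∀ k, ext F (x t) (-k) = cj (ext F (x t) k) := by
    intro t ht k
    by_cases hk : k ∈ F
    · rw [ext_of_mem F _ k hk, ext_of_mem F _ (-k) (hF k hk)]
      exact hreal t ht ⟨k, hk⟩
    · have hk' : -k ∉ F := fun h => hk (by simpa using hF _ h)
      rw [ext_of_not_mem F _ k hk, ext_of_not_mem F _ (-k) hk', cj_zero]
  have hmem' : ∀ t ∈ Icc 0 T, ∀ k, ext F (x t) k ∈ V k := by
    intro t ht k
    by_cases hk : k ∈ F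
    · rw [ext_of_mem F _ k hk]
      exact hmem t ht ⟨k, hk⟩
    · rw [ext_of_not_mem F _ k hk]
      exact Submodule.zero_mem _
  -- on real fields `g = θ f`
  have hgf : ∀ t ∈ Icc 0 T, ∀ k : F, g (x t) k = θ (x t) • f (x t) k := by
    intro t ht k
    have h1 : f (x t) (mk k) = cj (f (x t) k) :=
      rhs_cj F V ν c hV hF _ (hreal' t ht) k
    simp only [g, h1, cj_cj]
    rw [← two_smul ℝ, smul_smul]
    congr 1
    ring
  -- energy
  have hY : ∀ t ∈ Icc 0 T, HasDerivWithinAt (fun s => Y F (ext F (x s)) 0)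
      (θ (x t) * (-(2 * ν * Y F (ext F (x t)) 2))) (Icc 0 T) t := by
    intro t ht
    have h1 : ∀ k ∈ F, HasDerivWithinAt (fun s => nm k ^ 0 * ‖ext F (x s) k‖ ^ 2)
        (nm k ^ 0 * (2 * inner ℝ (ext F (x t) k) (θ (x t) • rhs F V ν c (ext F (x t)) k)))
        (Icc 0 T) t := by
      intro k hk
      have h2 := hxk t ht ⟨k, hk⟩
      rw [hgf t ht ⟨k, hk⟩] at h2
      have h3 : HasDerivWithinAt (fun s => ext F (x s) k)
          (θ (x t) • rhs F V ν c (ext F (x t)) k) (Icc 0 T) t := by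
        simp only [ext_of_mem F _ k hk]
        exact h2
      exact h3.norm_sq.const_mul _
    have h2 := HasDerivWithinAt.fun_sum h1
    unfold Y
    refine h2.congr_deriv ?_
    have hen := energy F hF (ext F (x t)) (fun k hk => ext_of_not_mem F _ k hk) (hreal' t ht)
      (fun k => hV.div k _ (hmem' t ht k))
    have hen' : ∑ k ∈ F, (inner ℂ (ext F (x t) k) (B F (ext F (x t)) k)).re = 0 := by
      rw [← Complex.re_sum, hen]; simp
    have h3 : ∀ k ∈ F, nm k ^ 0 * (2 * inner ℝ (ext F (x t) k)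
        (θ (x t) • rhs F V ν c (ext F (x t)) k))
        = θ (x t) * (-(2 * ν * (nm k ^ 2 * ‖ext F (x t) k‖ ^ 2)))
          - θ (x t) * (2 * c) * (inner ℂ (ext F (x t) k) (B F (ext F (x t)) k)).re := by
      intro k _
      rw [inner_smul_right, rinner]
      unfold rhs
      rw [inner_proj _ _ _ (hmem' t ht k), inner_sub_right, inner_smul_right, inner_smul_right,
        inner_self_eq_norm_sq_to_K]
      simp only [Complex.sub_re, Complex.re_ofReal_mul]
      have : (((‖ext F (x t) k‖ : ℝ) : ℂ) ^ 2).re = ‖ext F (x t) k‖ ^ 2 := by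
        rw [← Complex.ofReal_pow, Complex.ofReal_re]
      simp only [Complex.coe_algebraMap, this]
      ring
    rw [Finset.sum_congr rfl h3, Finset.sum_sub_distrib, ← Finset.mul_sum, ← Finset.mul_sum, hen',
      mul_zero, sub_zero, Finset.sum_neg_distrib, ← Finset.mul_sum]
  have hYle : ∀ t ∈ Icc 0 T, Y F (ext F (x t)) 0 ≤ Y F (ext F (x 0)) 0 := by
    intro t ht
    refine le_of_deriv_nonpos hY ?_ t ht
    intro s _
    have h1 : 0 ≤ θ (x s) := θ.nonneg
    have h2 := Y_nonneg F (ext F (x s)) 2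
    have h3 : 0 ≤ θ (x s) * (2 * ν * Y F (ext F (x s)) 2) := by positivity
    linarith
  have hY0 : Y F (ext F (x 0)) 0 = ∑ k ∈ F, ‖u0 k‖ ^ 2 := by
    unfold Y
    refine Finset.sum_congr rfl fun k hk => ?_
    rw [ext_of_mem F _ k hk, hx0]
    simp [x0]
  have hθ1 : ∀ t ∈ Icc 0 T, θ (x t) = 1 := by
    intro t ht
    apply θ.one_of_mem_closedBall
    rw [mem_closedBall_zero_iff]
    rw [pi_norm_le_iff_of_nonneg hRpos.le]
    intro k
    have h1 := norm_le_sqrt F (ext F (x t)) k k.2
    rw [ext_of_mem F _ k k.2] at h1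
    refine h1.trans ?_
    refine (Real.sqrt_le_sqrt ((hYle t ht).trans hY0.le)).trans ?_
    show _ ≤ R
    rw [hR]; linarith
  refine ⟨fun t => ext F (x t), ⟨fun t _ k hk => ext_of_not_mem F _ k hk, hreal', hmem', ?_⟩, ?_⟩
  · intro t ht k hk
    have h2 := hxk t ht ⟨k, hk⟩
    rw [hgf t ht ⟨k, hk⟩, hθ1 t ht, one_smul] at h2
    simp only [ext_of_mem F _ k hk]
    simpa only [f, rhs, ext_of_mem F _ k hk] using h2
  · intro k
    by_cases hk : k ∈ F
    · simp only [ext_of_mem F _ k hk, hx0, hk, if_true]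
      rfl
    · simp only [ext_of_not_mem F _ k hk, hk, if_false]

end Pool.H217R3.Hel
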