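import Pool.Agent.H217R3.Hel.Est

set_option autoImplicit false
open scoped BigOperators ComplexConjugate
open Complex

namespace Pool.H217R3.Hel

/-- weighted energies -/
noncomputable def Y (F : Finset Z3) (u : Z3 → C3) (n : ℕ) : ℝ := ∑ k ∈ F, nm k ^ n * ‖u k‖ ^ 2

/-- convolution majorant -/
noncomputable def bet (F : Finset Z3) (u : Z3 → C3) (k : Z3) : ℝ := ∑ p ∈ F, ‖u p‖ * ‖u (k - p)‖

lemma Y_nonneg (F : Finset Z3) (u : Z3 → C3) (n : ℕ) : 0 ≤ Y F u n :=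
  Finset.sum_nonneg fun k _ => mul_nonneg (pow_nonneg (nm_nonneg k) n) (sq_nonneg _)

lemma bet_nonneg (F : Finset Z3) (u : Z3 → C3) (k : Z3) : 0 ≤ bet F u k :=
  Finset.sum_nonneg fun p _ => by positivity

lemma norm_kd_le (k : Z3) (v : C3) : ‖kd k v‖ ≤ nm k * ‖v‖ := by
  have h1 : kd k v = inner ℂ (WithLp.toLp 2 (fun j => (k j : ℂ)) : C3) v := by
    simp [kd, PiLp.inner_apply, mul_comm]
  have h2 : ‖(WithLp.toLp 2 (fun j => (k j : ℂ)) : C3)‖ = nm k := by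
    simp [nm, EuclideanSpace.norm_eq]
  rw [h1, ← h2]
  exact norm_inner_le_norm _ _

lemma kd_sub (k p : Z3) (v : C3) : kd (k - p) v = kd k v - kd p v := by
  simp [kd, sub_mul, Finset.sum_sub_distrib]

lemma B_le1 (F : Finset Z3) (u : Z3 → C3) (k : Z3) :
    ‖B F u k‖ ≤ ∑ p ∈ F, ‖u p‖ * (nm (k - p) * ‖u (k - p)‖) := by
  unfold B
  refine (norm_sum_le _ _).trans (Finset.sum_le_sum fun p _ => ?_)
  rw [norm_smul, norm_mul, Complex.norm_I, one_mul]
  calc ‖kd (k - p) (u p)‖ * ‖u (k - p)‖ ≤ (nm (k - p) * ‖u p‖) * ‖u (k - p)‖ :=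
        mul_le_mul_of_nonneg_right (norm_kd_le _ _) (norm_nonneg _)
    _ = _ := by ring

lemma B_le2 (F : Finset Z3) (u : Z3 → C3) (hd : ∀ k, kd k (u k) = 0) (k : Z3) :
    ‖B F u k‖ ≤ nm k * bet F u k := by
  unfold B bet
  rw [Finset.mul_sum]
  refine (norm_sum_le _ _).trans (Finset.sum_le_sum fun p _ => ?_)
  rw [norm_smul, norm_mul, Complex.norm_I, one_mul, kd_sub, hd p, sub_zero]
  calc ‖kd k (u p)‖ * ‖u (k - p)‖ ≤ (nm k * ‖u p‖) * ‖u (k - p)‖ :=
        mul_le_mul_of_nonneg_right (norm_kd_le _ _) (norm_nonneg _)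
    _ = _ := by ring

lemma cs_shift (F : Finset Z3) (a b : Z3 → ℝ) (hbF : ∀ k, k ∉ F → b k = 0) (k : Z3) :
    ∑ p ∈ F, a p * b (k - p) ≤ Real.sqrt (∑ p ∈ F, a p ^ 2) * Real.sqrt (∑ p ∈ F, b p ^ 2) := by
  refine (Real.sum_mul_le_sqrt_mul_sqrt F a (fun p => b (k - p))).trans ?_
  refine mul_le_mul_of_nonneg_left (Real.sqrt_le_sqrt ?_) (Real.sqrt_nonneg _)
  exact shift_le F (fun k => b k ^ 2) (fun k => sq_nonneg _) (fun k hk => by rw [hbF k hk]; simp) F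
    (fun p => k - p) (fun a b h => by simpa using h)

lemma bet_le (F : Finset Z3) (u : Z3 → C3) (hu : ∀ k, k ∉ F → u k = 0) (k : Z3) :
    bet F u k ≤ Y F u 0 := by
  have h := cs_shift F (fun p => ‖u p‖) (fun p => ‖u p‖) (fun k hk => by rw [hu k hk]; simp) k
  have h2 : Real.sqrt (∑ p ∈ F, ‖u p‖ ^ 2) * Real.sqrt (∑ p ∈ F, ‖u p‖ ^ 2) = Y F u 0 := by
    rw [Real.mul_self_sqrt (Finset.sum_nonneg fun p _ => sq_nonneg _)]
    simp [Y]
  rw [h2] at h
  exact h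

lemma norm_le_sqrt (F : Finset Z3) (u : Z3 → C3) (k : Z3) (hk : k ∈ F) :
    ‖u k‖ ≤ Real.sqrt (Y F u 0) := by
  apply Real.le_sqrt_of_sq_le
  unfold Y
  simp only [pow_zero, one_mul]
  exact Finset.single_le_sum (f := fun k => ‖u k‖ ^ 2) (fun i _ => sq_nonneg _) hk

lemma sqrt_cube_le (a b c : ℝ) (ha : 0 ≤ a) (hb : 0 ≤ b) (hc : 0 ≤ c) (h : c ≤ a + b) :
    Real.sqrt (c ^ 3) ≤ 2 * (Real.sqrt (a ^ 3) + Real.sqrt (b ^ 3)) := by
  have h1 : c ^ 3 ≤ (a + b) ^ 3 := pow_le_pow_left₀ hc h 3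
  have h2 : (a + b) ^ 3 ≤ 4 * (a ^ 3 + b ^ 3) := by nlinarith [mul_nonneg (add_nonneg ha hb) (sq_nonneg (a - b))]
  have h3 : 0 ≤ Real.sqrt (a ^ 3) := Real.sqrt_nonneg _
  have h4 : 0 ≤ Real.sqrt (b ^ 3) := Real.sqrt_nonneg _
  have h5 : Real.sqrt (a ^ 3) ^ 2 = a ^ 3 := Real.sq_sqrt (by positivity)
  have h6 : Real.sqrt (b ^ 3) ^ 2 = b ^ 3 := Real.sq_sqrt (by positivity)
  rw [Real.sqrt_le_left (by positivity)]
  nlinarith [mul_nonneg h3 h4]

lemma bet_cube_le (F : Finset Z3) (u : Z3 → C3) (hu : ∀ k, k ∉ F → u k = 0) (k : Z3) :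
    Real.sqrt (nm k ^ 3) * bet F u k ≤ 4 * (Real.sqrt (Y F u 3) * Real.sqrt (Y F u 0)) := by
  have hb3 : ∀ k, k ∉ F → Real.sqrt (nm k ^ 3) * ‖u k‖ = 0 := fun k hk => by rw [hu k hk]; simp
  have hb0 : ∀ k, k ∉ F → ‖u k‖ = 0 := fun k hk => by rw [hu k hk]; simp
  have h1 := cs_shift F (fun p => Real.sqrt (nm p ^ 3) * ‖u p‖) (fun p => ‖u p‖) hb0 k
  have h2 := cs_shift F (fun p => ‖u p‖) (fun p => Real.sqrt (nm p ^ 3) * ‖u p‖) hb3 k
  have e3 : ∑ p ∈ F, (Real.sqrt (nm p ^ 3) * ‖u p‖) ^ 2 = Y F u 3 := by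
    unfold Y
    refine Finset.sum_congr rfl fun p _ => ?_
    rw [mul_pow, Real.sq_sqrt (pow_nonneg (nm_nonneg p) 3)]
  have e0 : ∑ p ∈ F, ‖u p‖ ^ 2 = Y F u 0 := by simp [Y]
  simp only [e3, e0] at h1 h2
  unfold bet
  rw [Finset.mul_sum]
  calc ∑ p ∈ F, Real.sqrt (nm k ^ 3) * (‖u p‖ * ‖u (k - p)‖)
      ≤ ∑ p ∈ F, (2 * (Real.sqrt (nm p ^ 3) * ‖u p‖ * ‖u (k - p)‖)
          + 2 * (‖u p‖ * (Real.sqrt (nm (k - p) ^ 3) * ‖u (k - p)‖))) := by
        refine Finset.sum_le_sum fun p _ => ?_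
        have h3 : nm k ≤ nm p + nm (k - p) := by
          have := nm_add_le p (k - p)
          rwa [show p + (k - p) = k by abel] at this
        have h4 := sqrt_cube_le (nm p) (nm (k - p)) (nm k) (nm_nonneg _) (nm_nonneg _)
          (nm_nonneg _) h3
        have h5 : 0 ≤ ‖u p‖ * ‖u (k - p)‖ := by positivity
        calc Real.sqrt (nm k ^ 3) * (‖u p‖ * ‖u (k - p)‖)
            ≤ (2 * (Real.sqrt (nm p ^ 3) + Real.sqrt (nm (k - p) ^ 3)))
                * (‖u p‖ * ‖u (k - p)‖) := mul_le_mul_of_nonneg_right h4 h5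
          _ = _ := by ring
    _ = 2 * (∑ p ∈ F, Real.sqrt (nm p ^ 3) * ‖u p‖ * ‖u (k - p)‖)
          + 2 * (∑ p ∈ F, ‖u p‖ * (Real.sqrt (nm (k - p) ^ 3) * ‖u (k - p)‖)) := by
        rw [Finset.sum_add_distrib, Finset.mul_sum, Finset.mul_sum]
    _ ≤ 4 * (Real.sqrt (Y F u 3) * Real.sqrt (Y F u 0)) := by nlinarith

/-- the critical estimate: reduction to the helicity defect -/
lemma est_base (F : Finset Z3) (hF : ∀ k ∈ F, -k ∈ F) (u : Z3 → C3)
    (hu : ∀ k, k ∉ F → u k = 0) (hr : ∀ k, u (-k) = cj (u k)) (hd : ∀ k, kd k (u k) = 0)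
    (δ : Z3 → ℝ) (hδ0 : ∀ k, 0 ≤ δ k)
    (hδ : ∀ k ∈ F, ‖((nm k : ℝ) : ℂ) • u k - crl k (u k)‖ ≤ δ k * nm k * ‖u k‖) :
    |∑ k ∈ F, nm k * (inner ℂ (u k) (B F u k)).re|
      ≤ ∑ k ∈ F, δ k * nm k ^ 2 * ‖u k‖ * bet F u k := by
  have hhel := helicity F hF u hu hr
  have h1 : ∑ k ∈ F, nm k * (inner ℂ (u k) (B F u k)).re
      = (∑ k ∈ F, inner ℂ (((nm k : ℝ) : ℂ) • u k - crl k (u k)) (B F u k)).re := by
    have h2 : ∑ k ∈ F, inner ℂ (((nm k : ℝ) : ℂ) • u k - crl k (u k)) (B F u k)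
        = ∑ k ∈ F, ((nm k : ℝ) : ℂ) * inner ℂ (u k) (B F u k) := by
      simp_rw [inner_sub_left, Finset.sum_sub_distrib]
      rw [hhel, sub_zero]
      refine Finset.sum_congr rfl fun k _ => ?_
      rw [inner_smul_left, Complex.conj_ofReal]
    rw [h2, Complex.re_sum]
    refine Finset.sum_congr rfl fun k _ => ?_
    rw [Complex.re_ofReal_mul]
  rw [h1]
  refine (Complex.abs_re_le_norm _).trans ((norm_sum_le _ _).trans (Finset.sum_le_sum fun k hk => ?_))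
  refine (norm_inner_le_norm _ _).trans ?_
  calc ‖((nm k : ℝ) : ℂ) • u k - crl k (u k)‖ * ‖B F u k‖
      ≤ (δ k * nm k * ‖u k‖) * (nm k * bet F u k) :=
        mul_le_mul (hδ k hk) (B_le2 F u hd k) (norm_nonneg _)
          (mul_nonneg (mul_nonneg (hδ0 k) (nm_nonneg k)) (norm_nonneg _))
    _ = _ := by ring

/-- the part of the defect with summable squares over `|k|²` -/
lemma est_d1 (F : Finset Z3) (h0 : (0 : Z3) ∉ F) (u : Z3 → C3)
    (hu : ∀ k, k ∉ F → u k = 0)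
    (δ : Z3 → ℝ) (hδ0 : ∀ k, 0 ≤ δ k)
    (K0 : Finset Z3) (ε : ℝ) (hε0 : 0 ≤ ε)
    (hε : ∑ k ∈ F \ K0, δ k ^ 2 / nm k ^ 2 ≤ ε ^ 2) :
    ∑ k ∈ F, δ k * nm k ^ 2 * ‖u k‖ * bet F u k
      ≤ 4 * ε * Real.sqrt (Y F u 0) * Y F u 3
        + (∑ k ∈ K0, δ k * nm k ^ 2) * Real.sqrt (Y F u 0) ^ 3 := by
  classical
  have hpos : ∀ p ∈ F, 0 < nm p := fun p hp =>
    lt_of_lt_of_le one_pos (one_le_nm p (fun h => h0 (h ▸ hp)))
  have hsplit : ∑ k ∈ F, δ k * nm k ^ 2 * ‖u k‖ * bet F u k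
      = (∑ k ∈ F \ K0, δ k * nm k ^ 2 * ‖u k‖ * bet F u k)
        + ∑ k ∈ F ∩ K0, δ k * nm k ^ 2 * ‖u k‖ * bet F u k := by
    rw [← Finset.sdiff_inter_self_left F K0]
    exact (Finset.sum_sdiff Finset.inter_subset_left).symm
  rw [hsplit]
  · refine add_le_add ?_ ?_
    · set M := 4 * (Real.sqrt (Y F u 3) * Real.sqrt (Y F u 0)) with hM
      calc ∑ k ∈ F \ K0, δ k * nm k ^ 2 * ‖u k‖ * bet F u k
          ≤ ∑ k ∈ F \ K0, M * ((δ k / nm k) * (Real.sqrt (nm k ^ 3) * ‖u k‖)) := by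
            refine Finset.sum_le_sum fun k hk => ?_
            have hk' : k ∈ F := (Finset.mem_sdiff.mp hk).1
            have hp := hpos k hk'
            have h3 := bet_cube_le F u hu k
            have h4 : 0 ≤ (δ k / nm k) * (Real.sqrt (nm k ^ 3) * ‖u k‖) :=
              mul_nonneg (div_nonneg (hδ0 k) hp.le) (mul_nonneg (Real.sqrt_nonneg _) (norm_nonneg _))
            have h5 := mul_le_mul_of_nonneg_right h3 h4
            refine le_trans (le_of_eq ?_) h5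
            have h6 : Real.sqrt (nm k ^ 3) * Real.sqrt (nm k ^ 3) = nm k ^ 3 :=
              Real.mul_self_sqrt (pow_nonneg hp.le 3)
            have h7 : (Real.sqrt (nm k ^ 3) * bet F u k) * (δ k / nm k * (Real.sqrt (nm k ^ 3) * ‖u k‖))
                = (Real.sqrt (nm k ^ 3) * Real.sqrt (nm k ^ 3)) * (δ k / nm k) * ‖u k‖ * bet F u k := by
              ring
            rw [h7, h6]
            field_simp
        _ = M * ∑ k ∈ F \ K0, (δ k / nm k) * (Real.sqrt (nm k ^ 3) * ‖u k‖) := by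
            rw [Finset.mul_sum]
        _ ≤ M * (ε * Real.sqrt (Y F u 3)) := by
            refine mul_le_mul_of_nonneg_left ?_ (by positivity)
            refine (Real.sum_mul_le_sqrt_mul_sqrt _ _ _).trans ?_
            refine mul_le_mul ?_ (Real.sqrt_le_sqrt ?_) (Real.sqrt_nonneg _) hε0
            · rw [Real.sqrt_le_left hε0]
              refine le_trans (le_of_eq ?_) hε
              refine Finset.sum_congr rfl fun k _ => ?_
              rw [div_pow]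
            · unfold Y
              refine le_trans (Finset.sum_le_sum_of_subset_of_nonneg Finset.sdiff_subset
                (fun k _ _ => sq_nonneg _)) (le_of_eq ?_)
              refine Finset.sum_congr rfl fun k _ => ?_
              rw [mul_pow, Real.sq_sqrt (pow_nonneg (nm_nonneg k) 3)]
        _ = 4 * ε * Real.sqrt (Y F u 0) * (Real.sqrt (Y F u 3) * Real.sqrt (Y F u 3)) := by
            rw [hM]; ring
        _ = _ := by rw [Real.mul_self_sqrt (Y_nonneg F u 3)]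
    · calc ∑ k ∈ F ∩ K0, δ k * nm k ^ 2 * ‖u k‖ * bet F u k
          ≤ ∑ k ∈ F ∩ K0, δ k * nm k ^ 2 * Real.sqrt (Y F u 0) ^ 3 := by
            refine Finset.sum_le_sum fun k hk => ?_
            have hk' : k ∈ F := (Finset.mem_inter.mp hk).1
            have h3 := norm_le_sqrt F u k hk'
            have h4 : bet F u k ≤ Real.sqrt (Y F u 0) ^ 2 := by
              rw [Real.sq_sqrt (Y_nonneg F u 0)]; exact bet_le F u hu k
            have h5 : 0 ≤ δ k * nm k ^ 2 := mul_nonneg (hδ0 k) (sq_nonneg _)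
            calc δ k * nm k ^ 2 * ‖u k‖ * bet F u k = δ k * nm k ^ 2 * (‖u k‖ * bet F u k) := by ring
              _ ≤ δ k * nm k ^ 2 * (Real.sqrt (Y F u 0) * Real.sqrt (Y F u 0) ^ 2) :=
                  mul_le_mul_of_nonneg_left
                    (mul_le_mul h3 h4 (bet_nonneg F u k) (Real.sqrt_nonneg _)) h5
              _ = _ := by ring
        _ = (∑ k ∈ F ∩ K0, δ k * nm k ^ 2) * Real.sqrt (Y F u 0) ^ 3 := by rw [Finset.sum_mul]
        _ ≤ _ := by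
            refine mul_le_mul_of_nonneg_right ?_ (by positivity)
            exact Finset.sum_le_sum_of_subset_of_nonneg Finset.inter_subset_right
              (fun k _ _ => mul_nonneg (hδ0 k) (sq_nonneg _))

/-- local sums of a two-dimensional weight -/
lemma loc_sum (δ : Z3 → ℝ) (A : ℝ) (hA0 : 0 ≤ A) (q : Z3)
    (hA : ∀ m : ℕ, 1 ≤ m → ∑ p ∈ cube m, δ (p + q) ^ 2 ≤ A * (m : ℝ) ^ 2) (m : ℕ) :
    ∑ p ∈ cube m, (if p = 0 then 0 else δ (p + q) ^ 2 * (nm p)⁻¹) ≤ 2 * A * m := by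
  classical
  set D : ℕ → ℝ := fun m => ∑ p ∈ cube m, (if p = 0 then 0 else δ (p + q) ^ 2) with hD
  have hDle : ∀ m : ℕ, 1 ≤ m → D m ≤ A * (m : ℝ) ^ 2 := by
    intro m hm
    refine le_trans (Finset.sum_le_sum fun p _ => ?_) (hA m hm)
    split_ifs
    · exact sq_nonneg _
    · exact le_rfl
  have hD0 : ∀ m, 0 ≤ D m := fun m => Finset.sum_nonneg fun p _ => by
    split_ifs
    · exact le_rfl
    · exact sq_nonneg _
  have hshell : ∀ m : ℕ, ∑ p ∈ cube (m + 1), (if p = 0 then 0 else δ (p + q) ^ 2 * (nm p)⁻¹)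
      ≤ ∑ p ∈ cube m, (if p = 0 then 0 else δ (p + q) ^ 2 * (nm p)⁻¹)
        + (D (m + 1) - D m) / ((m : ℝ) + 1) := by
    intro m
    have hsub : cube m ⊆ cube (m + 1) := cube_mono (Nat.le_succ m)
    have e1 := Finset.sum_sdiff (f := fun p => if p = 0 then 0 else δ (p + q) ^ 2 * (nm p)⁻¹) hsub
    have e2 := Finset.sum_sdiff (f := fun p => if p = 0 then 0 else δ (p + q) ^ 2) hsub
    have h1 : ∑ p ∈ cube (m + 1) \ cube m, (if p = 0 then 0 else δ (p + q) ^ 2 * (nm p)⁻¹)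
        ≤ (∑ p ∈ cube (m + 1) \ cube m, (if p = 0 then 0 else δ (p + q) ^ 2)) / ((m : ℝ) + 1) := by
      rw [Finset.sum_div]
      refine Finset.sum_le_sum fun p hp => ?_
      rw [Finset.mem_sdiff] at hp
      split_ifs with hp0
      · simp
      · rw [div_eq_mul_inv]
        refine mul_le_mul_of_nonneg_left ?_ (sq_nonneg _)
        exact inv_anti₀ (by positivity) (not_mem_cube_nm m p hp.2)
    have h2 : ∑ p ∈ cube (m + 1) \ cube m, (if p = 0 then 0 else δ (p + q) ^ 2)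
        = D (m + 1) - D m := by
      simp only [hD]
      linarith
    rw [h2] at h1
    linarith
  have hkey : ∀ m : ℕ, ∑ p ∈ cube (m + 1), (if p = 0 then 0 else δ (p + q) ^ 2 * (nm p)⁻¹)
      ≤ D (m + 1) / ((m : ℝ) + 1) + A * ((m : ℝ) + 1) := by
    intro m
    induction m with
    | zero =>
      have h1 := hshell 0
      have h2 : ∑ p ∈ cube 0, (if p = 0 then 0 else δ (p + q) ^ 2 * (nm p)⁻¹) = 0 := by
        refine Finset.sum_eq_zero fun p hp => ?_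
        rw [mem_cube] at hp
        have : p = 0 := by
          funext j
          have := hp j
          simpa using this
        rw [if_pos this]
      rw [h2] at h1
      have h3 := hD0 0
      simp only [Nat.cast_zero, zero_add, div_one, mul_one] at h1 ⊢
      linarith
    | succ m ih =>
      have h1 := hshell (m + 1)
      have h2 := hDle (m + 1) (by omega)
      have h3 : (0 : ℝ) ≤ m := Nat.cast_nonneg m
      push_cast at h1 h2 ⊢
      have h4 : D (m + 1) / ((m : ℝ) + 1) - D (m + 1) / ((m : ℝ) + 1 + 1) ≤ A := by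
        have e : D (m + 1) / ((m : ℝ) + 1) - D (m + 1) / ((m : ℝ) + 1 + 1)
            = D (m + 1) / (((m : ℝ) + 1) * ((m : ℝ) + 1 + 1)) := by
          field_simp
          ring
        rw [e, div_le_iff₀ (by positivity)]
        nlinarith [mul_nonneg hA0 h3]
      have h5 : (D (m + 1 + 1) - D (m + 1)) / ((m : ℝ) + 1 + 1)
          = D (m + 1 + 1) / ((m : ℝ) + 1 + 1) - D (m + 1) / ((m : ℝ) + 1 + 1) := by
        rw [sub_div]
      rw [h5] at h1
      linarith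
  rcases m with _ | m
  · have h2 : ∑ p ∈ cube 0, (if p = 0 then 0 else δ (p + q) ^ 2 * (nm p)⁻¹) = 0 := by
      refine Finset.sum_eq_zero fun p hp => ?_
      rw [mem_cube] at hp
      have : p = 0 := by
        funext j
        have := hp j
        simpa using this
      rw [if_pos this]
    rw [h2]
    simp
  · refine (hkey m).trans ?_
    have h2 := hDle (m + 1) (by omega)
    have h3 : (0 : ℝ) ≤ m := Nat.cast_nonneg m
    push_cast at h2 ⊢
    have h4 : D (m + 1) / ((m : ℝ) + 1) ≤ A * ((m : ℝ) + 1) := by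
      rw [div_le_iff₀ (by positivity)]
      nlinarith
    linarith

lemma loc_sum_le (F : Finset Z3) (h0 : (0 : Z3) ∉ F) (δ : Z3 → ℝ) (A : ℝ) (hA0 : 0 ≤ A) (q : Z3)
    (hA : ∀ m : ℕ, 1 ≤ m → ∑ p ∈ cube m, δ (p + q) ^ 2 ≤ A * (m : ℝ) ^ 2) (R : ℝ) (hR : 0 ≤ R) :
    ∑ p ∈ F with nm p ≤ R, δ (p + q) ^ 2 * (nm p)⁻¹ ≤ 2 * A * R := by
  calc ∑ p ∈ F with nm p ≤ R, δ (p + q) ^ 2 * (nm p)⁻¹
      = ∑ p ∈ F with nm p ≤ R, (if p = 0 then 0 else δ (p + q) ^ 2 * (nm p)⁻¹) := by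
        refine Finset.sum_congr rfl fun p hp => ?_
        rw [if_neg]
        rintro rfl
        exact h0 (Finset.mem_filter.mp hp).1
    _ ≤ ∑ p ∈ cube ⌊R⌋₊, (if p = 0 then 0 else δ (p + q) ^ 2 * (nm p)⁻¹) := by
        refine Finset.sum_le_sum_of_subset_of_nonneg ?_ ?_
        · intro p hp
          exact mem_cube_of_nm_le p R (Finset.mem_filter.mp hp).2
        · intro p _ _
          split_ifs
          · exact le_rfl
          · exact mul_nonneg (sq_nonneg _) (inv_nonneg.mpr (nm_nonneg p))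
    _ ≤ 2 * A * (⌊R⌋₊ : ℝ) := loc_sum δ A hA0 q hA _
    _ ≤ 2 * A * R := by
        have := Nat.floor_le hR
        gcongr

/-- half of the two-dimensional estimate -/
lemma est_d2_half (F : Finset Z3) (h0 : (0 : Z3) ∉ F) (u : Z3 → C3)
    (hu : ∀ k, k ∉ F → u k = 0) (δ : Z3 → ℝ) (A : ℝ) (hA0 : 0 ≤ A)
    (hA : ∀ q : Z3, ∀ m : ℕ, 1 ≤ m → ∑ p ∈ cube m, δ (p + q) ^ 2 ≤ A * (m : ℝ) ^ 2) :
    ∑ a ∈ (F ×ˢ F) with nm a.1 ≤ nm a.2,
      ‖u a.2‖ * ‖u a.1‖ * (δ (a.1 + a.2) * nm (a.1 + a.2) ^ 2 * ‖u (a.1 + a.2)‖)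
      ≤ 2 * (Real.sqrt A * Real.sqrt (Y F u 1) * Real.sqrt (Y F u 2) * Real.sqrt (Y F u 3)) := by
  classical
  have hpos : ∀ p ∈ F, 0 < nm p := fun p hp =>
    lt_of_lt_of_le one_pos (one_le_nm p (fun h => h0 (h ▸ hp)))
  calc ∑ a ∈ (F ×ˢ F) with nm a.1 ≤ nm a.2,
      ‖u a.2‖ * ‖u a.1‖ * (δ (a.1 + a.2) * nm (a.1 + a.2) ^ 2 * ‖u (a.1 + a.2)‖)
      = ∑ a ∈ (F ×ˢ F) with nm a.1 ≤ nm a.2,
        (nm (a.1 + a.2) ^ 2 * ‖u (a.1 + a.2)‖ * (Real.sqrt (nm a.1) * ‖u a.1‖)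
          * (Real.sqrt (nm a.2))⁻¹)
        * (δ (a.1 + a.2) * (Real.sqrt (nm a.1))⁻¹ * (Real.sqrt (nm a.2) * ‖u a.2‖)) := by
        refine Finset.sum_congr rfl fun a ha => ?_
        rw [Finset.mem_filter, Finset.mem_product] at ha
        have h1 : Real.sqrt (nm a.1) ≠ 0 := (Real.sqrt_pos.mpr (hpos _ ha.1.1)).ne'
        have h2 : Real.sqrt (nm a.2) ≠ 0 := (Real.sqrt_pos.mpr (hpos _ ha.1.2)).ne'
        field_simp
    _ ≤ Real.sqrt (∑ a ∈ (F ×ˢ F) with nm a.1 ≤ nm a.2,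
        (nm (a.1 + a.2) ^ 2 * ‖u (a.1 + a.2)‖ * (Real.sqrt (nm a.1) * ‖u a.1‖)
          * (Real.sqrt (nm a.2))⁻¹) ^ 2)
        * Real.sqrt (∑ a ∈ (F ×ˢ F) with nm a.1 ≤ nm a.2,
          (δ (a.1 + a.2) * (Real.sqrt (nm a.1))⁻¹ * (Real.sqrt (nm a.2) * ‖u a.2‖)) ^ 2) :=
        Real.sum_mul_le_sqrt_mul_sqrt _ _ _
    _ ≤ Real.sqrt (2 * (Y F u 1 * Y F u 3)) * Real.sqrt (2 * A * Y F u 2) := by
        refine mul_le_mul (Real.sqrt_le_sqrt ?_) (Real.sqrt_le_sqrt ?_) (Real.sqrt_nonneg _)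
          (Real.sqrt_nonneg _)
        · calc ∑ a ∈ (F ×ˢ F) with nm a.1 ≤ nm a.2,
              (nm (a.1 + a.2) ^ 2 * ‖u (a.1 + a.2)‖ * (Real.sqrt (nm a.1) * ‖u a.1‖)
                * (Real.sqrt (nm a.2))⁻¹) ^ 2
              ≤ ∑ a ∈ (F ×ˢ F) with nm a.1 ≤ nm a.2,
                2 * ((nm a.1 * ‖u a.1‖ ^ 2) * (nm (a.1 + a.2) ^ 3 * ‖u (a.1 + a.2)‖ ^ 2)) := by
                refine Finset.sum_le_sum fun a ha => ?_
                rw [Finset.mem_filter, Finset.mem_product] at ha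
                have hq := hpos _ ha.1.2
                have h3 : nm (a.1 + a.2) ≤ 2 * nm a.2 := by
                  have := nm_add_le a.1 a.2
                  linarith [ha.2]
                rw [mul_pow, mul_pow, mul_pow, mul_pow, inv_pow, Real.sq_sqrt (nm_nonneg _),
                  Real.sq_sqrt (nm_nonneg _)]
                rw [← div_eq_mul_inv, div_le_iff₀ hq]
                have h4 : nm (a.1 + a.2) ^ 3 * nm (a.1 + a.2) ≤ nm (a.1 + a.2) ^ 3 * (2 * nm a.2) :=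
                  mul_le_mul_of_nonneg_left h3 (pow_nonneg (nm_nonneg _) 3)
                have h5 : 0 ≤ ‖u (a.1 + a.2)‖ ^ 2 * (nm a.1 * ‖u a.1‖ ^ 2) :=
                  mul_nonneg (sq_nonneg _) (mul_nonneg (nm_nonneg _) (sq_nonneg _))
                have h6 := mul_le_mul_of_nonneg_right h4 h5
                calc _ = nm (a.1 + a.2) ^ 3 * nm (a.1 + a.2)
                      * (‖u (a.1 + a.2)‖ ^ 2 * (nm a.1 * ‖u a.1‖ ^ 2)) := by ring
                  _ ≤ _ := h6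
                  _ = _ := by ring
            _ ≤ ∑ a ∈ F ×ˢ F,
                2 * ((nm a.1 * ‖u a.1‖ ^ 2) * (nm (a.1 + a.2) ^ 3 * ‖u (a.1 + a.2)‖ ^ 2)) :=
                Finset.sum_le_sum_of_subset_of_nonneg (Finset.filter_subset _ _)
                  (fun a _ _ => mul_nonneg (by norm_num) (mul_nonneg
                    (mul_nonneg (nm_nonneg _) (sq_nonneg _))
                    (mul_nonneg (pow_nonneg (nm_nonneg _) _) (sq_nonneg _))))
            _ = ∑ p ∈ F, 2 * (nm p * ‖u p‖ ^ 2) * ∑ q ∈ F, nm (p + q) ^ 3 * ‖u (p + q)‖ ^ 2 := by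
                rw [Finset.sum_product]
                refine Finset.sum_congr rfl fun p _ => ?_
                rw [Finset.mul_sum]
                refine Finset.sum_congr rfl fun q _ => ?_
                ring
            _ ≤ ∑ p ∈ F, 2 * (nm p * ‖u p‖ ^ 2) * Y F u 3 := by
                refine Finset.sum_le_sum fun p _ => ?_
                refine mul_le_mul_of_nonneg_left ?_
                  (mul_nonneg (by norm_num) (mul_nonneg (nm_nonneg _) (sq_nonneg _)))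
                exact shift_le F (fun k => nm k ^ 3 * ‖u k‖ ^ 2)
                  (fun k => mul_nonneg (pow_nonneg (nm_nonneg _) _) (sq_nonneg _))
                  (fun k hk => by simp only [hu k hk, norm_zero]; ring) F (fun q => p + q)
                  (add_right_injective p)
            _ = 2 * (Y F u 1 * Y F u 3) := by
                rw [← Finset.sum_mul, ← Finset.mul_sum]
                unfold Y
                simp only [pow_one]
                ring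
        · calc ∑ a ∈ (F ×ˢ F) with nm a.1 ≤ nm a.2,
              (δ (a.1 + a.2) * (Real.sqrt (nm a.1))⁻¹ * (Real.sqrt (nm a.2) * ‖u a.2‖)) ^ 2
              = ∑ q ∈ F, ∑ p ∈ F with nm p ≤ nm q,
                (δ (p + q) * (Real.sqrt (nm p))⁻¹ * (Real.sqrt (nm q) * ‖u q‖)) ^ 2 := by
                rw [Finset.sum_filter, Finset.sum_product_right]
                refine Finset.sum_congr rfl fun q _ => ?_
                rw [Finset.sum_filter]
            _ = ∑ q ∈ F, (nm q * ‖u q‖ ^ 2)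
                  * ∑ p ∈ F with nm p ≤ nm q, δ (p + q) ^ 2 * (nm p)⁻¹ := by
                refine Finset.sum_congr rfl fun q _ => ?_
                rw [Finset.mul_sum]
                refine Finset.sum_congr rfl fun p _ => ?_
                rw [mul_pow, mul_pow, mul_pow, inv_pow, Real.sq_sqrt (nm_nonneg p),
                  Real.sq_sqrt (nm_nonneg q)]
                ring
            _ ≤ ∑ q ∈ F, (nm q * ‖u q‖ ^ 2) * (2 * A * nm q) := by
                refine Finset.sum_le_sum fun q _ => ?_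
                refine mul_le_mul_of_nonneg_left ?_ (mul_nonneg (nm_nonneg _) (sq_nonneg _))
                exact loc_sum_le F h0 δ A hA0 q (hA q) _ (nm_nonneg q)
            _ = 2 * A * Y F u 2 := by
                unfold Y
                rw [Finset.mul_sum]
                refine Finset.sum_congr rfl fun q _ => ?_
                ring
    _ = _ := by
        rw [Real.sqrt_mul (by norm_num), Real.sqrt_mul (Y_nonneg F u 1),
          Real.sqrt_mul (by positivity), Real.sqrt_mul (by norm_num)]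
        have h2 : Real.sqrt 2 * Real.sqrt 2 = 2 := Real.mul_self_sqrt (by norm_num)
        calc _ = (Real.sqrt 2 * Real.sqrt 2) * (Real.sqrt A * Real.sqrt (Y F u 1)
              * Real.sqrt (Y F u 2) * Real.sqrt (Y F u 3)) := by ring
          _ = _ := by rw [h2]

/-- the two-dimensional part of the defect -/
lemma est_d2 (F : Finset Z3) (h0 : (0 : Z3) ∉ F) (u : Z3 → C3)
    (hu : ∀ k, k ∉ F → u k = 0) (δ : Z3 → ℝ) (hδ0 : ∀ k, 0 ≤ δ k) (A : ℝ) (hA0 : 0 ≤ A)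
    (hA : ∀ q : Z3, ∀ m : ℕ, 1 ≤ m → ∑ p ∈ cube m, δ (p + q) ^ 2 ≤ A * (m : ℝ) ^ 2) :
    ∑ k ∈ F, δ k * nm k ^ 2 * ‖u k‖ * bet F u k
      ≤ 4 * (Real.sqrt A * Real.sqrt (Y F u 1) * Real.sqrt (Y F u 2) * Real.sqrt (Y F u 3)) := by
  classical
  have hb0 : ∀ k, k ∉ F → ‖u k‖ = 0 := fun k hk => by rw [hu k hk]; simp
  have h1 : ∑ k ∈ F, δ k * nm k ^ 2 * ‖u k‖ * bet F u k
      = ∑ q ∈ F, ∑ p ∈ F, ‖u q‖ * ‖u p‖ * (δ (q + p) * nm (q + p) ^ 2 * ‖u (q + p)‖) := by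
    rw [← reidx F (fun q => ‖u q‖) (fun p => ‖u p‖) (fun k => δ k * nm k ^ 2 * ‖u k‖) hb0
      (fun k hk => by simp only [hb0 k hk, mul_zero])]
    refine Finset.sum_congr rfl fun k _ => ?_
    unfold bet
    rw [Finset.mul_sum]
  rw [h1, ← Finset.sum_product']
  rw [← Finset.sum_filter_add_sum_filter_not (F ×ˢ F) (fun a => nm a.1 ≤ nm a.2)]
  have hA1 := est_d2_half F h0 u hu δ A hA0 hA
  have h2 : ∑ a ∈ (F ×ˢ F) with nm a.1 ≤ nm a.2,
      ‖u a.1‖ * ‖u a.2‖ * (δ (a.1 + a.2) * nm (a.1 + a.2) ^ 2 * ‖u (a.1 + a.2)‖)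
      ≤ 2 * (Real.sqrt A * Real.sqrt (Y F u 1) * Real.sqrt (Y F u 2) * Real.sqrt (Y F u 3)) := by
    refine le_trans (le_of_eq ?_) hA1
    refine Finset.sum_congr rfl fun a _ => ?_
    ring
  have h3 : ∑ a ∈ (F ×ˢ F) with ¬ nm a.1 ≤ nm a.2,
      ‖u a.1‖ * ‖u a.2‖ * (δ (a.1 + a.2) * nm (a.1 + a.2) ^ 2 * ‖u (a.1 + a.2)‖)
      ≤ 2 * (Real.sqrt A * Real.sqrt (Y F u 1) * Real.sqrt (Y F u 2) * Real.sqrt (Y F u 3)) := by
    refine le_trans ?_ hA1
    have h4 : ∑ a ∈ (F ×ˢ F) with ¬ nm a.1 ≤ nm a.2,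
        ‖u a.1‖ * ‖u a.2‖ * (δ (a.1 + a.2) * nm (a.1 + a.2) ^ 2 * ‖u (a.1 + a.2)‖)
        = ∑ a ∈ (F ×ˢ F) with ¬ nm a.2 ≤ nm a.1,
        ‖u a.2‖ * ‖u a.1‖ * (δ (a.1 + a.2) * nm (a.1 + a.2) ^ 2 * ‖u (a.1 + a.2)‖) := by
      refine Finset.sum_nbij' Prod.swap Prod.swap ?_ ?_ (fun a _ => Prod.swap_swap a)
        (fun a _ => Prod.swap_swap a) ?_
      · intro a ha
        rw [Finset.mem_filter, Finset.mem_product] at *
        exact ⟨⟨ha.1.2, ha.1.1⟩, ha.2⟩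
      · intro a ha
        rw [Finset.mem_filter, Finset.mem_product] at *
        exact ⟨⟨ha.1.2, ha.1.1⟩, ha.2⟩
      · intro a _
        simp only [Prod.fst_swap, Prod.snd_swap]
        rw [add_comm a.2 a.1]
    rw [h4]
    refine Finset.sum_le_sum_of_subset_of_nonneg ?_ ?_
    · intro a ha
      rw [Finset.mem_filter] at *
      exact ⟨ha.1, (not_le.mp ha.2).le⟩
    · intro a _ _
      exact mul_nonneg (mul_nonneg (norm_nonneg _) (norm_nonneg _))
        (mul_nonneg (mul_nonneg (hδ0 _) (sq_nonneg _)) (norm_nonneg _))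
  linarith

/-- enstrophy estimate -/
lemma est_one (F : Finset Z3) (h0 : (0 : Z3) ∉ F) (u : Z3 → C3)
    (hu : ∀ k, k ∉ F → u k = 0) :
    |∑ k ∈ F, nm k ^ 2 * (inner ℂ (u k) (B F u k)).re|
      ≤ 11 * (Real.sqrt (Y F u 3) * Real.sqrt (Y F u 2) * Real.sqrt (Y F u 4)) := by
  have hb0 : ∀ k, k ∉ F → ‖u k‖ = 0 := fun k hk => by rw [hu k hk]; simp
  calc |∑ k ∈ F, nm k ^ 2 * (inner ℂ (u k) (B F u k)).re|
      ≤ ∑ k ∈ F, |nm k ^ 2 * (inner ℂ (u k) (B F u k)).re| := Finset.abs_sum_le_sum_abs _ _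
    _ ≤ ∑ k ∈ F, ∑ p ∈ F, (nm k ^ 2 * ‖u k‖) * (‖u p‖ * (nm (k - p) * ‖u (k - p)‖)) := by
        refine Finset.sum_le_sum fun k _ => ?_
        rw [abs_mul, abs_of_nonneg (sq_nonneg (nm k)), ← Finset.mul_sum, mul_assoc]
        refine mul_le_mul_of_nonneg_left ?_ (sq_nonneg _)
        refine (Complex.abs_re_le_norm _).trans ((norm_inner_le_norm _ _).trans ?_)
        exact mul_le_mul_of_nonneg_left (B_le1 F u k) (norm_nonneg _)
    _ = ∑ q ∈ F, ∑ p ∈ F, (nm q * ‖u q‖) * ‖u p‖ * (nm (q + p) ^ 2 * ‖u (q + p)‖) := by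
        exact reidx F (fun q => nm q * ‖u q‖) (fun p => ‖u p‖) (fun k => nm k ^ 2 * ‖u k‖)
          (fun k hk => by simp only [hb0 k hk, mul_zero]) (fun k hk => by simp only [hb0 k hk, mul_zero])
    _ ≤ 11 * (Real.sqrt (∑ p ∈ F, nm p * (nm p * ‖u p‖) ^ 2)
          * Real.sqrt (∑ q ∈ F, nm q ^ 2 * ‖u q‖ ^ 2)
        * Real.sqrt (∑ k ∈ F, (nm k ^ 2 * ‖u k‖) ^ 2)) :=
        tri F h0 (fun q => nm q * ‖u q‖) (fun p => ‖u p‖) (fun k => nm k ^ 2 * ‖u k‖)
          (fun k => mul_nonneg (nm_nonneg k) (norm_nonneg _)) (fun k => norm_nonneg _)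
          (fun k => by positivity) (fun k hk => by simp only [hb0 k hk, mul_zero])
    _ = _ := by
        have e3 : ∑ p ∈ F, nm p * (nm p * ‖u p‖) ^ 2 = Y F u 3 := by
          unfold Y
          exact Finset.sum_congr rfl fun p _ => by ring
        have e4 : ∑ p ∈ F, (nm p ^ 2 * ‖u p‖) ^ 2 = Y F u 4 := by
          unfold Y
          exact Finset.sum_congr rfl fun p _ => by ring
        rw [e3, e4]
        rfl

lemma pow_add_le' (a b c : ℝ) (ha : 0 ≤ a) (hb : 0 ≤ b) (hc : 0 ≤ c) (h : c ≤ a + b) (m : ℕ) :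
    c ^ m ≤ 2 ^ m * (a ^ m + b ^ m) := by
  have h1 : c ^ m ≤ (2 * max a b) ^ m := by
    refine pow_le_pow_left₀ hc (h.trans ?_) m
    have := le_max_left a b
    have := le_max_right a b
    linarith
  refine h1.trans ?_
  rw [mul_pow]
  refine mul_le_mul_of_nonneg_left ?_ (by positivity)
  rcases le_total a b with hab | hab
  · rw [max_eq_right hab]
    have := pow_nonneg ha m
    linarith
  · rw [max_eq_left hab]
    have := pow_nonneg hb m
    linarith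

/-- higher order estimate -/
lemma est_high (F : Finset Z3) (h0 : (0 : Z3) ∉ F) (u : Z3 → C3)
    (hu : ∀ k, k ∉ F → u k = 0) (hd : ∀ k, kd k (u k) = 0) (m : ℕ) :
    |∑ k ∈ F, nm k ^ (2 * m) * (inner ℂ (u k) (B F u k)).re|
      ≤ 2 ^ (m + 1) * 11 * (Real.sqrt (Y F u (2 * m + 1)) * Real.sqrt (Y F u 2)
        * Real.sqrt (Y F u (2 * m + 2))) := by
  have hb0 : ∀ k, k ∉ F → ‖u k‖ = 0 := fun k hk => by rw [hu k hk]; simp
  have hT := tri F h0 (fun q => nm q ^ m * ‖u q‖) (fun p => ‖u p‖) (fun k => nm k ^ (m + 1) * ‖u k‖)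
          (fun k => mul_nonneg (pow_nonneg (nm_nonneg k) _) (norm_nonneg _)) (fun k => norm_nonneg _)
          (fun k => mul_nonneg (pow_nonneg (nm_nonneg k) _) (norm_nonneg _))
          (fun k hk => by simp only [hb0 k hk, mul_zero])
  have hR1 := reidx F (fun q => nm q ^ m * ‖u q‖) (fun p => ‖u p‖) (fun k => nm k ^ (m + 1) * ‖u k‖)
          (fun k hk => by simp only [hb0 k hk, mul_zero]) (fun k hk => by simp only [hb0 k hk, mul_zero])
  have hR2 := reidx F (fun p => ‖u p‖) (fun q => nm q ^ m * ‖u q‖) (fun k => nm k ^ (m + 1) * ‖u k‖)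
          hb0 (fun k hk => by simp only [hb0 k hk, mul_zero])
  have hR3 : ∑ q ∈ F, ∑ p ∈ F, ‖u q‖ * (nm p ^ m * ‖u p‖) * (nm (q + p) ^ (m + 1) * ‖u (q + p)‖)
      = ∑ p ∈ F, ∑ q ∈ F, (nm p ^ m * ‖u p‖) * ‖u q‖ * (nm (p + q) ^ (m + 1) * ‖u (p + q)‖) := by
    rw [Finset.sum_comm]
    refine Finset.sum_congr rfl fun p _ => Finset.sum_congr rfl fun q _ => ?_
    rw [add_comm q p]; ring
  rw [hR3] at hR2
  have e1 : ∑ p ∈ F, nm p * (nm p ^ m * ‖u p‖) ^ 2 = Y F u (2 * m + 1) := by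
    unfold Y
    exact Finset.sum_congr rfl fun p _ => by ring
  have e2 : ∑ q ∈ F, nm q ^ 2 * ‖u q‖ ^ 2 = Y F u 2 := rfl
  have e3 : ∑ k ∈ F, (nm k ^ (m + 1) * ‖u k‖) ^ 2 = Y F u (2 * m + 2) := by
    unfold Y
    exact Finset.sum_congr rfl fun p _ => by ring
  simp only [e1, e2, e3] at hT
  calc |∑ k ∈ F, nm k ^ (2 * m) * (inner ℂ (u k) (B F u k)).re|
      ≤ ∑ k ∈ F, |nm k ^ (2 * m) * (inner ℂ (u k) (B F u k)).re| := Finset.abs_sum_le_sum_abs _ _
    _ ≤ ∑ k ∈ F, ∑ p ∈ F, 2 ^ m * ((nm k ^ (m + 1) * ‖u k‖) * ((‖u p‖ * (nm (k - p) ^ m * ‖u (k - p)‖))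
          ) + (nm k ^ (m + 1) * ‖u k‖) * ((nm p ^ m * ‖u p‖) * ‖u (k - p)‖)) := by
        refine Finset.sum_le_sum fun k _ => ?_
        rw [abs_mul, abs_of_nonneg (pow_nonneg (nm_nonneg k) _)]
        have h1 : |(inner ℂ (u k) (B F u k)).re| ≤ ‖u k‖ * (nm k * bet F u k) :=
          (Complex.abs_re_le_norm _).trans ((norm_inner_le_norm _ _).trans
            (mul_le_mul_of_nonneg_left (B_le2 F u hd k) (norm_nonneg _)))
        have h2 : nm k ^ (2 * m) * |(inner ℂ (u k) (B F u k)).re|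
            ≤ nm k ^ (2 * m) * (‖u k‖ * (nm k * bet F u k)) :=
          mul_le_mul_of_nonneg_left h1 (pow_nonneg (nm_nonneg k) _)
        refine h2.trans ?_
        have h3 : nm k ^ (2 * m) * (‖u k‖ * (nm k * bet F u k))
            = ∑ p ∈ F, (nm k ^ (m + 1) * ‖u k‖) * (nm k ^ m * (‖u p‖ * ‖u (k - p)‖)) := by
          unfold bet
          rw [Finset.mul_sum, Finset.mul_sum, Finset.mul_sum]
          exact Finset.sum_congr rfl fun p _ => by ring
        rw [h3]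
        refine Finset.sum_le_sum fun p _ => ?_
        have h4 : nm k ≤ nm p + nm (k - p) := by
          have := nm_add_le p (k - p)
          rwa [show p + (k - p) = k by abel] at this
        have h5 := pow_add_le' (nm p) (nm (k - p)) (nm k) (nm_nonneg _) (nm_nonneg _) (nm_nonneg _) h4 m
        have h6 : 0 ≤ (nm k ^ (m + 1) * ‖u k‖) * (‖u p‖ * ‖u (k - p)‖) :=
          mul_nonneg (mul_nonneg (pow_nonneg (nm_nonneg k) _) (norm_nonneg _)) (by positivity)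
        have h7 := mul_le_mul_of_nonneg_right h5 h6
        calc (nm k ^ (m + 1) * ‖u k‖) * (nm k ^ m * (‖u p‖ * ‖u (k - p)‖))
            = nm k ^ m * ((nm k ^ (m + 1) * ‖u k‖) * (‖u p‖ * ‖u (k - p)‖)) := by ring
          _ ≤ _ := h7
          _ = _ := by ring
    _ = 2 ^ m * ((∑ k ∈ F, ∑ p ∈ F, (nm k ^ (m + 1) * ‖u k‖) * ((‖u p‖ * (nm (k - p) ^ m * ‖u (k - p)‖))))
          + ∑ k ∈ F, ∑ p ∈ F, (nm k ^ (m + 1) * ‖u k‖) * ((nm p ^ m * ‖u p‖) * ‖u (k - p)‖)) := by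
        simp only [← Finset.mul_sum, ← Finset.sum_add_distrib]
        simp only [Finset.mul_sum, ← Finset.sum_add_distrib]
    _ ≤ _ := by
        rw [hR1, hR2]
        have h2m : (0 : ℝ) ≤ 2 ^ m := by positivity
        have := mul_le_mul_of_nonneg_left (add_le_add hT hT) h2m
        refine this.trans (le_of_eq ?_)
        ring

lemma Y_interp (F : Finset Z3) (u : Z3 → C3) (n : ℕ) :
    Y F u (2 * n + 1) ≤ Real.sqrt (Y F u (2 * n)) * Real.sqrt (Y F u (2 * n + 2)) := by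
  have h := Real.sum_mul_le_sqrt_mul_sqrt F (fun k => nm k ^ n * ‖u k‖)
    (fun k => nm k ^ (n + 1) * ‖u k‖)
  have e1 : ∑ k ∈ F, nm k ^ n * ‖u k‖ * (nm k ^ (n + 1) * ‖u k‖) = Y F u (2 * n + 1) := by
    unfold Y
    exact Finset.sum_congr rfl fun p _ => by ring
  have e2 : ∑ k ∈ F, (nm k ^ n * ‖u k‖) ^ 2 = Y F u (2 * n) := by
    unfold Y
    exact Finset.sum_congr rfl fun p _ => by ring
  have e3 : ∑ k ∈ F, (nm k ^ (n + 1) * ‖u k‖) ^ 2 = Y F u (2 * n + 2) := by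
    unfold Y
    exact Finset.sum_congr rfl fun p _ => by ring
  rw [e1, e2, e3] at h
  exact h

end Pool.H217R3.Hel
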