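import Pool.Agent.H217R3.Hel.Ode

set_option autoImplicit false
open scoped BigOperators ComplexConjugate NNReal
open Complex Set

namespace Pool.H217R3.Hel

/-- Sum of `1/|p|⁴` over nonzero `p` in the cube. -/
lemma sum_inv_four (m : ℕ) :
    ∑ p ∈ cube m, (if p = 0 then 0 else ((nm p) ^ 4)⁻¹) ≤ 52 - 52 / ((m : ℝ) + 1) := by
  induction m with
  | zero =>
    have : cube 0 = {0} := by
      ext k
      rw [mem_cube, Finset.mem_singleton]
      constructor
      · intro h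
        funext j
        have := h j
        simpa using this
      · intro h
        simp [h]
    rw [this]
    simp
  | succ m ih =>
    have hsub : cube m ⊆ cube (m + 1) := cube_mono (Nat.le_succ m)
    rw [← Finset.sum_sdiff hsub]
    have h1 : ∑ p ∈ cube (m + 1) \ cube m, (if p = 0 then 0 else ((nm p) ^ 4)⁻¹)
        ≤ ∑ p ∈ cube (m + 1) \ cube m, (((m : ℝ) + 1) ^ 4)⁻¹ := by
      refine Finset.sum_le_sum fun p hp => ?_
      rw [Finset.mem_sdiff] at hp
      split_ifs with h0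
      · positivity
      · exact inv_anti₀ (by positivity) (pow_le_pow_left₀ (by positivity) (not_mem_cube_nm m p hp.2) 4)
    have h2 : (∑ p ∈ cube (m + 1) \ cube m, (((m : ℝ) + 1) ^ 4)⁻¹)
        = (((2 * (m + 1) + 1) ^ 3 - (2 * m + 1) ^ 3 : ℕ) : ℝ) * (((m : ℝ) + 1) ^ 4)⁻¹ := by
      rw [Finset.sum_const, nsmul_eq_mul, Finset.card_sdiff_of_subset hsub, card_cube, card_cube]
    have h3 : (((2 * (m + 1) + 1) ^ 3 - (2 * m + 1) ^ 3 : ℕ) : ℝ) = 24 * ((m : ℝ) + 1) ^ 2 + 2 := by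
      rw [Nat.cast_sub (by gcongr; omega)]
      push_cast
      ring
    rw [h2, h3] at h1
    have hm : (0 : ℝ) ≤ m := Nat.cast_nonneg m
    have h4 : (24 * ((m : ℝ) + 1) ^ 2 + 2) * (((m : ℝ) + 1) ^ 4)⁻¹
        ≤ 52 / ((m : ℝ) + 1) - 52 / ((m : ℝ) + 1 + 1) := by
      have e1 : 52 / ((m : ℝ) + 1) - 52 / ((m : ℝ) + 1 + 1) = 52 / (((m : ℝ) + 1) * ((m : ℝ) + 2)) := by
        field_simp
        ring
      rw [e1, ← div_eq_mul_inv, div_le_div_iff₀ (by positivity) (by positivity)]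
      nlinarith [mul_nonneg hm hm, mul_nonneg (mul_nonneg hm hm) hm,
        mul_nonneg (mul_nonneg hm hm) (mul_nonneg hm hm)]
    push_cast
    linarith

lemma exists_cube (F : Finset Z3) : ∃ m, F ⊆ cube m := by
  classical
  refine ⟨F.sup (fun k => ⌈nm k⌉₊), fun k hk => ?_⟩
  have h1 := mem_cube_of_nm_le k (nm k) le_rfl
  refine cube_mono ?_ h1
  exact (Nat.floor_le_ceil _).trans (Finset.le_sup (f := fun k => ⌈nm k⌉₊) hk)

lemma sum_inv_four_le (F : Finset Z3) :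
    ∑ p ∈ F, (if p = 0 then 0 else ((nm p) ^ 4)⁻¹) ≤ 52 := by
  obtain ⟨m, hm⟩ := exists_cube F
  refine (Finset.sum_le_sum_of_subset_of_nonneg hm ?_).trans ((sum_inv_four m).trans ?_)
  · intro p _ _
    split_ifs
    · exact le_rfl
    · exact inv_nonneg.mpr (pow_nonneg (nm_nonneg p) 4)
  · have : 0 ≤ 52 / ((m : ℝ) + 1) := by positivity
    linarith

lemma summable_inv_four : Summable (fun p : Z3 => if p = 0 then (0 : ℝ) else ((nm p) ^ 4)⁻¹) := by
  refine summable_of_sum_le ?_ (c := 52) sum_inv_four_le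
  intro p
  dsimp only
  split_ifs
  · exact le_rfl
  · exact inv_nonneg.mpr (pow_nonneg (nm_nonneg p) 4)

/-- weighted sum from pointwise decay -/
lemma sum_le_of_decay (F : Finset Z3) (h0 : (0 : Z3) ∉ F) (a : Z3 → ℝ) (C : ℝ)
    (ha : ∀ k, nm k ^ 4 * a k ≤ C) (hC : 0 ≤ C) : ∑ k ∈ F, a k ≤ 52 * C := by
  calc ∑ k ∈ F, a k ≤ ∑ k ∈ F, C * (if k = 0 then 0 else ((nm k) ^ 4)⁻¹) := by
        refine Finset.sum_le_sum fun k hk => ?_
        have hk0 : k ≠ 0 := fun h => h0 (h ▸ hk)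
        rw [if_neg hk0, ← div_eq_mul_inv, le_div_iff₀]
        · rw [mul_comm]; exact ha k
        · have := one_le_nm k hk0
          positivity
    _ = C * ∑ k ∈ F, (if k = 0 then 0 else ((nm k) ^ 4)⁻¹) := by rw [Finset.mul_sum]
    _ ≤ C * 52 := mul_le_mul_of_nonneg_left (sum_inv_four_le F) hC
    _ = 52 * C := by ring

/-- uniform bounds for the truncated systems -/
theorem unif {V : Z3 → Submodule ℂ C3} {δ₁ δ₂ : Z3 → ℝ} {ν : ℝ} (c A : ℝ)
    (hV : Adm V (fun k => δ₁ k + δ₂ k))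
    (hδ1 : ∀ k, 0 ≤ δ₁ k) (hδ2 : ∀ k, 0 ≤ δ₂ k) (hA0 : 0 ≤ A)
    (hA : ∀ q : Z3, ∀ m : ℕ, 1 ≤ m → ∑ p ∈ cube m, δ₂ (p + q) ^ 2 ≤ A * (m : ℝ) ^ 2)
    (hδs : Summable (fun k => δ₁ k ^ 2 / nm k ^ 2)) (hν : 0 < ν)
    (u0 : Z3 → C3) (M : ℕ → ℝ) (hM0 : ∀ n, 0 ≤ M n)
    (hM : ∀ F : Finset Z3, (0 : Z3) ∉ F → ∀ n, Y F u0 n ≤ M n) (T : ℝ) (hT : 0 ≤ T) :
    ∀ m : ℕ, ∃ D : ℝ, 0 ≤ D ∧ ∀ F : Finset Z3, (0 : Z3) ∉ F → (∀ k ∈ F, -k ∈ F) →
      ∀ u : ℝ → Z3 → C3, Gal F V ν c T u → (∀ k, u 0 k = if k ∈ F then u0 k else 0) →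
        ∀ t ∈ Icc 0 T, Y F (u t) (2 * m) ≤ D := by
  classical
  intro m
  set E := M 0 with hE
  set ε := ν / 2 / (8 * |c| * Real.sqrt E + 1) with hε
  have hε0 : 0 < ε := by positivity
  have hsmall : 8 * |c| * ε * Real.sqrt E ≤ ν / 2 := by
    have : 8 * |c| * ε * Real.sqrt E
        = ν / 2 * ((8 * |c| * Real.sqrt E) / (8 * |c| * Real.sqrt E + 1)) := by
      rw [hε]; ring
    rw [this]
    have h1 : (8 * |c| * Real.sqrt E) / (8 * |c| * Real.sqrt E + 1) ≤ 1 := by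
      rw [div_le_one (by positivity)]
      linarith
    nlinarith
  obtain ⟨K0, hK0⟩ := summable_iff_vanishing_norm.mp hδs (ε ^ 2) (by positivity)
  set P := 2 * |c| * (∑ k ∈ K0, δ₁ k * nm k ^ 2) * Real.sqrt E ^ 3 * T with hP
  set Q := M 2 * Real.exp ((121 * c ^ 2 / (2 * ν) / ν) * ((M 1 + P)
    * Real.exp (32 * c ^ 2 * A / ν / (2 * ν) * E))) with hQ
  have hQ0 : 0 ≤ Q := mul_nonneg (hM0 2) (Real.exp_nonneg _)
  refine ⟨M (2 * m) * Real.exp (((2 ^ (m + 1) * 11 * |c| * Real.sqrt Q) ^ 4 / (4 * ν ^ 3)) * T),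
    mul_nonneg (hM0 _) (Real.exp_nonneg _), ?_⟩
  intro F h0 hF u hu hu0 t ht
  have hY : ∀ n, Y F (u 0) n = Y F u0 n := by
    intro n
    unfold Y
    refine Finset.sum_congr rfl fun k hk => ?_
    rw [hu0 k, if_pos hk]
  have hεs : ∑ k ∈ F \ K0, δ₁ k ^ 2 / nm k ^ 2 ≤ ε ^ 2 := by
    have := hK0 (F \ K0) Finset.sdiff_disjoint
    exact (le_abs_self _).trans this.le
  have hQt : ∀ s ∈ Icc 0 T, Y F (u s) 2 ≤ Q := by
    intro s hs
    have h1 := hu.one h0 hF hV hδ1 hδ2 hν K0 ε E A hε0.le hA0 hA hεs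
      (by rw [hY]; exact hM F h0 0) hsmall s hs
    refine h1.trans ?_
    rw [hY, hY, hQ]
    refine mul_le_mul (hM F h0 2) (Real.exp_le_exp.mpr ?_) (Real.exp_nonneg _) (hM0 2)
    refine mul_le_mul_of_nonneg_left ?_ (by positivity)
    refine mul_le_mul_of_nonneg_right ?_ (Real.exp_nonneg _)
    have := hM F h0 1
    linarith
  refine (hu.high h0 hV hν m Q hQt t ht).trans ?_
  rw [hY]
  exact mul_le_mul_of_nonneg_right (hM F h0 _) (Real.exp_nonneg _)

lemma Gal.mono {F : Finset Z3} {V : Z3 → Submodule ℂ C3} {ν c T T' : ℝ} {u : ℝ → Z3 → C3}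
    (h : Gal F V ν c T u) (hT : T' ≤ T) : Gal F V ν c T' u := by
  have hs : Icc 0 T' ⊆ Icc 0 T := Icc_subset_Icc_right hT
  exact ⟨fun t ht => h.supp t (hs ht), fun t ht => h.real t (hs ht), fun t ht => h.mem t (hs ht),
    fun t ht k hk => (h.ode t (hs ht) k hk).mono hs⟩

lemma pt_le (F : Finset Z3) (u : Z3 → C3) (hu : ∀ k, k ∉ F → u k = 0) (m : ℕ) (D : ℝ)
    (hD : Y F u (2 * m) ≤ D) (k : Z3) : nm k ^ m * ‖u k‖ ≤ Real.sqrt D := by
  by_cases hk : k ∈ F
  · apply Real.le_sqrt_of_sq_le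
    refine le_trans ?_ hD
    unfold Y
    have : (nm k ^ m * ‖u k‖) ^ 2 = nm k ^ (2 * m) * ‖u k‖ ^ 2 := by ring
    rw [this]
    exact Finset.single_le_sum (f := fun k => nm k ^ (2 * m) * ‖u k‖ ^ 2)
      (fun i _ => mul_nonneg (pow_nonneg (nm_nonneg i) _) (sq_nonneg _)) hk
  · rw [hu k hk, norm_zero, mul_zero]
    exact Real.sqrt_nonneg _

/-- difference of the nonlinearity -/
lemma B_sub_le (F : Finset Z3) (u w : Z3 → C3) (hdu : ∀ k, kd k (u k) = 0)
    (hdw : ∀ k, kd k (w k) = 0) (k : Z3) :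
    ‖B F u k - B F w k‖ ≤ nm k * (∑ p ∈ F, ‖u p - w p‖ * ‖u (k - p)‖
      + ∑ p ∈ F, ‖w p‖ * ‖u (k - p) - w (k - p)‖) := by
  unfold B
  rw [← Finset.sum_sub_distrib, ← Finset.sum_add_distrib, Finset.mul_sum]
  refine (norm_sum_le _ _).trans (Finset.sum_le_sum fun p _ => ?_)
  have h1 : kd (k - p) (u p) = kd k (u p) := by rw [kd_sub, hdu p, sub_zero]
  have h2 : kd (k - p) (w p) = kd k (w p) := by rw [kd_sub, hdw p, sub_zero]
  rw [h1, h2]
  have h3 : (I * kd k (u p)) • u (k - p) - (I * kd k (w p)) • w (k - p)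
      = (I * kd k (u p - w p)) • u (k - p) + (I * kd k (w p)) • (u (k - p) - w (k - p)) := by
    have h4 : kd k (u p - w p) = kd k (u p) - kd k (w p) := by
      simp [kd, mul_sub, Finset.sum_sub_distrib]
    rw [h4]
    module
  rw [h3]
  refine (norm_add_le _ _).trans ?_
  rw [norm_smul, norm_smul, norm_mul, norm_mul, Complex.norm_I, one_mul, one_mul]
  have h5 := mul_le_mul_of_nonneg_right (norm_kd_le k (u p - w p)) (norm_nonneg (u (k - p)))
  have h6 := mul_le_mul_of_nonneg_right (norm_kd_le k (w p)) (norm_nonneg (u (k - p) - w (k - p)))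
  calc _ ≤ nm k * ‖u p - w p‖ * ‖u (k - p)‖ + nm k * ‖w p‖ * ‖u (k - p) - w (k - p)‖ :=
        add_le_add h5 h6
    _ = _ := by ring

lemma one_add_nm_le (k p : Z3) : 1 + nm (k - p) ≤ (1 + nm k) * (1 + nm p) := by
  have h1 : nm (k - p) ≤ nm k + nm p := by
    have := nm_add_le k (-p)
    rwa [nm_neg, ← sub_eq_add_neg] at this
  have := mul_nonneg (nm_nonneg k) (nm_nonneg p)
  nlinarith

lemma one_add_nm_le' (k p : Z3) : 1 + nm p ≤ (1 + nm k) * (1 + nm (k - p)) := by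
  have := one_add_nm_le k (k - p)
  rwa [show k - (k - p) = p by abel] at this

/-- Lipschitz estimate in time for the right hand side -/
lemma rhs_lip {F : Finset Z3} {V : Z3 → Submodule ℂ C3} {δ : Z3 → ℝ} {ν c T : ℝ} {u : ℝ → Z3 → C3}
    (h : Gal F V ν c T u) (hV : Adm V δ) (hν : 0 < ν) (h0 : (0 : Z3) ∉ F)
    (E D2 G : ℝ)
    (hE : ∀ t ∈ Icc 0 T, Y F (u t) 0 ≤ E)
    (hD2 : ∀ t ∈ Icc 0 T, ∀ k, nm k ^ 2 * ‖u t k‖ ≤ D2)
    (hG : ∀ t ∈ Icc 0 T, ∑ k ∈ F, (1 + nm k) * ‖u t k‖ ≤ G)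
    (k : Z3) (s : ℝ) (hs : s ∈ Icc 0 T) (t : ℝ) (ht : t ∈ Icc 0 T) :
    ‖rhs F V ν c (u s) k - rhs F V ν c (u t) k‖
      ≤ (ν * nm k ^ 2 * ((ν * D2 + |c| * E) * (1 + nm k))
        + |c| * (nm k * (2 * ((ν * D2 + |c| * E) * (1 + nm k) * G)))) * |s - t| := by
  set L0 := ν * D2 + |c| * E with hL0
  have hE0 : 0 ≤ E := (Y_nonneg _ _ _).trans (hE s hs)
  have hD20 : 0 ≤ D2 := (mul_nonneg (sq_nonneg _) (norm_nonneg _)).trans (hD2 s hs 0)
  have hL00 : 0 ≤ L0 := by positivity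
  have hd : ∀ r ∈ Icc 0 T, ∀ p, kd p (u r p) = 0 := fun r hr p => hV.div p _ (h.mem r hr p)
  have hδ : ∀ p, ‖u s p - u t p‖ ≤ L0 * (1 + nm p) * |s - t| := by
    intro p
    by_cases hp : p ∈ F
    · have h1 := Convex.norm_image_sub_le_of_norm_hasDerivWithin_le (f := fun r => u r p)
        (s := Icc 0 T) (x := t) (y := s) (C := L0 * (1 + nm p))
        (fun r hr => h.ode r hr p hp) (fun r hr => by
          refine (Submodule.norm_starProjection_apply_le _ _).trans ?_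
          refine (norm_sub_le _ _).trans ?_
          rw [norm_smul, norm_smul, Complex.norm_real, Complex.norm_real, Real.norm_eq_abs,
            Real.norm_eq_abs, abs_neg, abs_of_nonneg (by positivity)]
          have h2 := hD2 r hr p
          have h3 := B_le2 F (u r) (hd r hr) p
          have h4 : bet F (u r) p ≤ E := (bet_le F (u r) (h.supp r hr) p).trans (hE r hr)
          have h5 : |c| * ‖B F (u r) p‖ ≤ |c| * (nm p * E) :=
            mul_le_mul_of_nonneg_left (h3.trans (mul_le_mul_of_nonneg_left h4 (nm_nonneg p)))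
              (abs_nonneg c)
          have h6 : ν * nm p ^ 2 * ‖u r p‖ ≤ ν * D2 := by
            rw [mul_assoc]; exact mul_le_mul_of_nonneg_left h2 hν.le
          have h7 : 0 ≤ ν * D2 * nm p := mul_nonneg (by positivity) (nm_nonneg p)
          have h8 : 0 ≤ |c| * E := by positivity
          rw [hL0]
          nlinarith) (convex_Icc 0 T) ht hs
      rw [Real.norm_eq_abs] at h1
      exact h1
    · rw [h.supp s hs p hp, h.supp t ht p hp, sub_zero, norm_zero]
      have := nm_nonneg p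
      positivity
  have hB : ‖B F (u s) k - B F (u t) k‖ ≤ nm k * (2 * (L0 * (1 + nm k) * G)) * |s - t| := by
    refine (B_sub_le F (u s) (u t) (hd s hs) (hd t ht) k).trans ?_
    rw [mul_assoc]
    refine mul_le_mul_of_nonneg_left ?_ (nm_nonneg k)
    have hk0 := nm_nonneg k
    have hA : ∑ p ∈ F, ‖u s p - u t p‖ * ‖u s (k - p)‖ ≤ L0 * (1 + nm k) * |s - t| * G := by
      calc ∑ p ∈ F, ‖u s p - u t p‖ * ‖u s (k - p)‖
          ≤ ∑ p ∈ F, L0 * (1 + nm k) * |s - t| * ((1 + nm (k - p)) * ‖u s (k - p)‖) := by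
            refine Finset.sum_le_sum fun p _ => ?_
            have h1 : ‖u s p - u t p‖ ≤ L0 * ((1 + nm k) * (1 + nm (k - p))) * |s - t| := by
              refine (hδ p).trans ?_
              have := one_add_nm_le' k p
              gcongr
            calc ‖u s p - u t p‖ * ‖u s (k - p)‖
                ≤ (L0 * ((1 + nm k) * (1 + nm (k - p))) * |s - t|) * ‖u s (k - p)‖ :=
                  mul_le_mul_of_nonneg_right h1 (norm_nonneg _)
              _ = _ := by ring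
        _ = L0 * (1 + nm k) * |s - t| * ∑ p ∈ F, ((1 + nm (k - p)) * ‖u s (k - p)‖) := by
            rw [Finset.mul_sum]
        _ ≤ L0 * (1 + nm k) * |s - t| * G := by
            refine mul_le_mul_of_nonneg_left ?_ (by positivity)
            refine le_trans ?_ (hG s hs)
            exact shift_le F (fun q => (1 + nm q) * ‖u s q‖)
              (fun q => mul_nonneg (by have := nm_nonneg q; positivity) (norm_nonneg _))
              (fun q hq => by simp only [h.supp s hs q hq, norm_zero, mul_zero]) F (fun p => k - p)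
              (fun a b hab => by simpa using hab)
    have hB' : ∑ p ∈ F, ‖u t p‖ * ‖u s (k - p) - u t (k - p)‖ ≤ L0 * (1 + nm k) * |s - t| * G := by
      calc ∑ p ∈ F, ‖u t p‖ * ‖u s (k - p) - u t (k - p)‖
          ≤ ∑ p ∈ F, L0 * (1 + nm k) * |s - t| * ((1 + nm p) * ‖u t p‖) := by
            refine Finset.sum_le_sum fun p _ => ?_
            have h1 : ‖u s (k - p) - u t (k - p)‖ ≤ L0 * ((1 + nm k) * (1 + nm p)) * |s - t| := by
              refine (hδ (k - p)).trans ?_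
              have := one_add_nm_le k p
              gcongr
            calc ‖u t p‖ * ‖u s (k - p) - u t (k - p)‖
                ≤ ‖u t p‖ * (L0 * ((1 + nm k) * (1 + nm p)) * |s - t|) :=
                  mul_le_mul_of_nonneg_left h1 (norm_nonneg _)
              _ = _ := by ring
        _ = L0 * (1 + nm k) * |s - t| * ∑ p ∈ F, ((1 + nm p) * ‖u t p‖) := by
            rw [Finset.mul_sum]
        _ ≤ L0 * (1 + nm k) * |s - t| * G :=
            mul_le_mul_of_nonneg_left (hG t ht) (by positivity)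
    calc _ ≤ L0 * (1 + nm k) * |s - t| * G + L0 * (1 + nm k) * |s - t| * G := add_le_add hA hB'
      _ = _ := by ring
  have h1 : rhs F V ν c (u s) k - rhs F V ν c (u t) k
      = (V k).starProjection (((-(ν * nm k ^ 2) : ℝ) : ℂ) • (u s k - u t k)
        - ((c : ℝ) : ℂ) • (B F (u s) k - B F (u t) k)) := by
    unfold rhs
    rw [← map_sub]
    congr 1
    module
  rw [h1]
  refine (Submodule.norm_starProjection_apply_le _ _).trans ?_
  refine (norm_sub_le _ _).trans ?_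
  rw [norm_smul, norm_smul, Complex.norm_real, Complex.norm_real, Real.norm_eq_abs,
    Real.norm_eq_abs, abs_neg, abs_of_nonneg (by positivity)]
  have h2 : ν * nm k ^ 2 * ‖u s k - u t k‖ ≤ ν * nm k ^ 2 * (L0 * (1 + nm k) * |s - t|) :=
    mul_le_mul_of_nonneg_left (hδ k) (by positivity)
  have h3 := mul_le_mul_of_nonneg_left hB (abs_nonneg c)
  calc _ ≤ ν * nm k ^ 2 * (L0 * (1 + nm k) * |s - t|)
        + |c| * (nm k * (2 * (L0 * (1 + nm k) * G)) * |s - t|) := add_le_add h2 h3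
    _ = _ := by ring

end Pool.H217R3.Hel
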