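import Pool.Agent.H217R3.Hel.Final

set_option autoImplicit false
open scoped BigOperators ComplexConjugate NNReal Topology
open Complex Set Filter

namespace Pool.H217R3.Hel

/-- summable weight -/
noncomputable def iot (p : Z3) : ℝ := if p = 0 then 0 else ((nm p) ^ 4)⁻¹

lemma iot_nonneg (p : Z3) : 0 ≤ iot p := by
  unfold iot
  split_ifs
  · exact le_rfl
  · exact inv_nonneg.mpr (pow_nonneg (nm_nonneg p) 4)

lemma tsum_iot_le : ∑' p, iot p ≤ 52 :=
  Summable.tsum_le_of_sum_le summable_inv_four sum_inv_four_le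

lemma norm_le_iot (v : Z3 → C3) (D : ℝ) (hD : ∀ k, nm k ^ 4 * ‖v k‖ ≤ D) (h0 : v 0 = 0) (p : Z3) :
    ‖v p‖ ≤ D * iot p := by
  unfold iot
  split_ifs with hp
  · rw [hp, h0]; simp
  · have h3 : 0 < nm p := lt_of_lt_of_le one_pos (one_le_nm p hp)
    rw [← div_eq_mul_inv, le_div_iff₀ (by positivity), mul_comm]
    exact hD p

lemma summable_B (u v : Z3 → C3) (D1 D4 : ℝ) (k : Z3)
    (h1 : ∀ k, nm k ^ 1 * ‖v k‖ ≤ D1) (h4 : ∀ k, nm k ^ 4 * ‖u k‖ ≤ D4) (h0 : u 0 = 0) :
    Summable (fun p => (I * kd (k - p) (u p)) • v (k - p)) := by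
  have hs : Summable (fun p => D4 * D1 * iot p) := summable_inv_four.mul_left _
  have hD1 : 0 ≤ D1 := (mul_nonneg (pow_nonneg (nm_nonneg _) _) (norm_nonneg _)).trans (h1 0)
  refine Summable.of_norm_bounded hs fun p => ?_
  rw [norm_smul, norm_mul, Complex.norm_I, one_mul]
  have h2 := norm_le_iot u D4 h4 h0 p
  calc ‖kd (k - p) (u p)‖ * ‖v (k - p)‖ ≤ (nm (k - p) * ‖u p‖) * ‖v (k - p)‖ :=
        mul_le_mul_of_nonneg_right (norm_kd_le _ _) (norm_nonneg _)
    _ = ‖u p‖ * (nm (k - p) ^ 1 * ‖v (k - p)‖) := by ring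
    _ ≤ (D4 * iot p) * D1 := mul_le_mul h2 (h1 _)
        (mul_nonneg (pow_nonneg (nm_nonneg _) _) (norm_nonneg _)) ((norm_nonneg _).trans h2)
    _ = _ := by ring

lemma pow_four_le (k p : Z3) : nm k ^ 4 ≤ 2 ^ 4 * (nm p ^ 4 + nm (k - p) ^ 4) := by
  have h4 : nm k ≤ nm p + nm (k - p) := by
    have := nm_add_le p (k - p)
    rwa [show p + (k - p) = k by abel] at this
  exact pow_add_le' _ _ _ (nm_nonneg _) (nm_nonneg _) (nm_nonneg _) h4 4

/-- bound for products of decaying sequences -/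
lemma prod_decay (a b : Z3 → C3) (Da Db : ℝ) (ha : ∀ k, nm k ^ 4 * ‖a k‖ ≤ Da)
    (hb : ∀ k, nm k ^ 4 * ‖b k‖ ≤ Db) (ha0 : a 0 = 0) (hb0 : b 0 = 0) (k p : Z3) :
    nm k ^ 4 * (‖a p‖ * ‖b (k - p)‖) ≤ 16 * (Da * Db) * (iot p + iot (k - p)) := by
  have h1 := norm_le_iot a Da ha ha0 p
  have h2 := norm_le_iot b Db hb hb0 (k - p)
  have hDa : 0 ≤ Da := (mul_nonneg (pow_nonneg (nm_nonneg _) _) (norm_nonneg _)).trans (ha 0)
  have hDb : 0 ≤ Db := (mul_nonneg (pow_nonneg (nm_nonneg _) _) (norm_nonneg _)).trans (hb 0)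
  have h3 := mul_le_mul_of_nonneg_right (pow_four_le k p)
    (mul_nonneg (norm_nonneg (a p)) (norm_nonneg (b (k - p))))
  have h4 : nm p ^ 4 * ‖a p‖ * ‖b (k - p)‖ ≤ Da * (Db * iot (k - p)) :=
    mul_le_mul (ha p) h2 (norm_nonneg _) hDa
  have h5 : ‖a p‖ * (nm (k - p) ^ 4 * ‖b (k - p)‖) ≤ (Da * iot p) * Db :=
    mul_le_mul h1 (hb _) (mul_nonneg (pow_nonneg (nm_nonneg _) _) (norm_nonneg _))
      (mul_nonneg hDa (iot_nonneg p))
  calc _ ≤ 2 ^ 4 * (nm p ^ 4 + nm (k - p) ^ 4) * (‖a p‖ * ‖b (k - p)‖) := h3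
    _ = 16 * (nm p ^ 4 * ‖a p‖ * ‖b (k - p)‖ + ‖a p‖ * (nm (k - p) ^ 4 * ‖b (k - p)‖)) := by ring
    _ ≤ 16 * (Da * (Db * iot (k - p)) + (Da * iot p) * Db) := by
        refine mul_le_mul_of_nonneg_left (add_le_add h4 h5) (by norm_num)
    _ = _ := by ring

lemma summable_iot_shift (k : Z3) : Summable (fun p => iot (k - p)) := by
  have := (Equiv.subLeft k).summable_iff (f := iot)
  exact this.mpr summable_inv_four

lemma tsum_iot_shift (k : Z3) : ∑' p, iot (k - p) ≤ 52 := by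
  have := (Equiv.subLeft k).tsum_eq iot
  have h2 : ∑' p, iot (k - p) = ∑' p, iot p := this
  rw [h2]
  exact tsum_iot_le

/-- the difference of the two nonlinear terms -/
lemma Binf_sub_le (u v : Z3 → C3) (hdu : ∀ k, kd k (u k) = 0) (hdv : ∀ k, kd k (v k) = 0)
    (D1 D b : ℝ) (hu0 : u 0 = 0) (hv0 : v 0 = 0)
    (hu1 : ∀ k, nm k ^ 1 * ‖u k‖ ≤ D1) (hv1 : ∀ k, nm k ^ 1 * ‖v k‖ ≤ D1)
    (hu4 : ∀ k, nm k ^ 4 * ‖u k‖ ≤ D) (hv4 : ∀ k, nm k ^ 4 * ‖v k‖ ≤ D)
    (hw : ∀ k, nm k ^ 4 * ‖u k - v k‖ ≤ b) (k : Z3) :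
    nm k ^ 4 * ‖Binf u k - Binf v k‖ ≤ nm k * (3328 * (D * b)) := by
  have hD : 0 ≤ D := (mul_nonneg (pow_nonneg (nm_nonneg _) _) (norm_nonneg _)).trans (hu4 0)
  have hb : 0 ≤ b := (mul_nonneg (pow_nonneg (nm_nonneg _) _) (norm_nonneg _)).trans (hw 0)
  have h1 : nm k ^ 4 * ‖Binf u k - Binf v k‖
      = ‖∑' p, (((nm k ^ 4 : ℝ) : ℂ)) • ((I * kd (k - p) (u p)) • u (k - p)
          - (I * kd (k - p) (v p)) • v (k - p))‖ := by
    have hsu := summable_B u u D1 D k hu1 hu4 hu0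
    have hsv := summable_B v v D1 D k hv1 hv4 hv0
    rw [Summable.tsum_const_smul _ (hsu.sub hsv), norm_smul, Complex.norm_real, Real.norm_eq_abs,
      abs_of_nonneg (pow_nonneg (nm_nonneg k) 4), hsu.tsum_sub hsv]
    rfl
  rw [h1]
  have hsum : HasSum (fun p => nm k * (32 * (D * b) * (iot p + iot (k - p))))
      (nm k * (32 * (D * b) * ((∑' p, iot p) + ∑' p, iot (k - p)))) :=
    ((summable_inv_four.hasSum.add (summable_iot_shift k).hasSum).mul_left _).mul_left _
  refine (tsum_of_norm_bounded hsum ?_).trans ?_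
  · intro p
    have e1 : kd (k - p) (u p) = kd k (u p) := by rw [kd_sub, hdu p, sub_zero]
    have e2 : kd (k - p) (v p) = kd k (v p) := by rw [kd_sub, hdv p, sub_zero]
    have e3 : (I * kd k (u p)) • u (k - p) - (I * kd k (v p)) • v (k - p)
        = (I * kd k (u p - v p)) • u (k - p) + (I * kd k (v p)) • (u (k - p) - v (k - p)) := by
      have h4 : kd k (u p - v p) = kd k (u p) - kd k (v p) := by
        simp [kd, mul_sub, Finset.sum_sub_distrib]
      rw [h4]
      module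
    rw [e1, e2, e3, norm_smul, Complex.norm_real, Real.norm_eq_abs,
      abs_of_nonneg (pow_nonneg (nm_nonneg k) 4)]
    have h5 : ‖(I * kd k (u p - v p)) • u (k - p) + (I * kd k (v p)) • (u (k - p) - v (k - p))‖
        ≤ nm k * (‖u p - v p‖ * ‖u (k - p)‖) + nm k * (‖v p‖ * ‖u (k - p) - v (k - p)‖) := by
      refine (norm_add_le _ _).trans ?_
      rw [norm_smul, norm_smul, norm_mul, norm_mul, Complex.norm_I, one_mul, one_mul]
      have h5 := mul_le_mul_of_nonneg_right (norm_kd_le k (u p - v p)) (norm_nonneg (u (k - p)))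
      have h6 := mul_le_mul_of_nonneg_right (norm_kd_le k (v p)) (norm_nonneg (u (k - p) - v (k - p)))
      calc _ ≤ nm k * ‖u p - v p‖ * ‖u (k - p)‖ + nm k * ‖v p‖ * ‖u (k - p) - v (k - p)‖ :=
            add_le_add h5 h6
        _ = _ := by ring
    have h6 := prod_decay (fun q => u q - v q) u b D hw hu4 (by simp [hu0, hv0]) hu0 k p
    have h7 := prod_decay v (fun q => u q - v q) D b hv4 hw hv0 (by simp [hu0, hv0]) k p
    calc nm k ^ 4 * ‖(I * kd k (u p - v p)) • u (k - p) + (I * kd k (v p)) • (u (k - p) - v (k - p))‖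
        ≤ nm k ^ 4 * (nm k * (‖u p - v p‖ * ‖u (k - p)‖) + nm k * (‖v p‖ * ‖u (k - p) - v (k - p)‖)) :=
          mul_le_mul_of_nonneg_left h5 (pow_nonneg (nm_nonneg _) _)
      _ = nm k * (nm k ^ 4 * (‖u p - v p‖ * ‖u (k - p)‖)
            + nm k ^ 4 * (‖v p‖ * ‖u (k - p) - v (k - p)‖)) := by ring
      _ ≤ nm k * (16 * (b * D) * (iot p + iot (k - p)) + 16 * (D * b) * (iot p + iot (k - p))) :=
          mul_le_mul_of_nonneg_left (add_le_add h6 h7) (nm_nonneg _)
      _ = _ := by ring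
  · refine mul_le_mul_of_nonneg_left ?_ (nm_nonneg _)
    have h8 := tsum_iot_le
    have h9 := tsum_iot_shift k
    have h10 : 0 ≤ D * b := mul_nonneg hD hb
    nlinarith

lemma le_of_deriv_nonpos' {a b : ℝ} {f f' : ℝ → ℝ}
    (h : ∀ t ∈ Icc a b, HasDerivWithinAt f (f' t) (Icc a b) t)
    (h' : ∀ t ∈ Icc a b, f' t ≤ 0) (t : ℝ) (ht : t ∈ Icc a b) : f t ≤ f a := by
  have hanti : AntitoneOn f (Icc a b) := by
    refine antitoneOn_of_deriv_nonpos (convex_Icc a b) (fun s hs => (h s hs).continuousWithinAt) ?_ ?_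
    · intro s hs
      rw [interior_Icc] at hs
      exact ((h s ⟨hs.1.le, hs.2.le⟩).hasDerivAt (Icc_mem_nhds hs.1 hs.2)).differentiableAt.differentiableWithinAt
    · intro s hs
      rw [interior_Icc] at hs
      have h1 := (h s ⟨hs.1.le, hs.2.le⟩).hasDerivAt (Icc_mem_nhds hs.1 hs.2)
      rw [h1.deriv]
      exact h' s ⟨hs.1.le, hs.2.le⟩
  exact hanti ⟨le_rfl, ht.1.trans ht.2⟩ ht ht.1

/-- uniqueness -/
theorem unique {V : Z3 → Submodule ℂ C3} (hdiv : ∀ k, ∀ v ∈ V k, kd k v = 0) (hV0 : V 0 = ⊥)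
    {ν : ℝ} (hν : 0 < ν) (c : ℝ) (u v : ℝ → Z3 → C3)
    (hum : ∀ t, 0 ≤ t → ∀ k, u t k ∈ V k) (hvm : ∀ t, 0 ≤ t → ∀ k, v t k ∈ V k)
    (hud : ∀ T : ℝ, ∀ n : ℕ, ∃ C : ℝ, ∀ t ∈ Icc 0 T, ∀ k, nm k ^ n * ‖u t k‖ ≤ C)
    (hvd : ∀ T : ℝ, ∀ n : ℕ, ∃ C : ℝ, ∀ t ∈ Icc 0 T, ∀ k, nm k ^ n * ‖v t k‖ ≤ C)
    (huo : ∀ t, 0 ≤ t → ∀ k, HasDerivWithinAt (fun s => u s k)
        ((V k).starProjection (((-(ν * nm k ^ 2) : ℝ) : ℂ) • u t k - ((c : ℝ) : ℂ) • Binf (u t) k))
        (Ici 0) t)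
    (hvo : ∀ t, 0 ≤ t → ∀ k, HasDerivWithinAt (fun s => v s k)
        ((V k).starProjection (((-(ν * nm k ^ 2) : ℝ) : ℂ) • v t k - ((c : ℝ) : ℂ) • Binf (v t) k))
        (Ici 0) t)
    (h0 : u 0 = v 0) : ∀ t, 0 ≤ t → u t = v t := by
  intro T hT
  have hz : ∀ w ∈ V 0, w = 0 := by
    intro w hw
    rwa [hV0, Submodule.mem_bot] at hw
  obtain ⟨Cu1, hCu1⟩ := hud T 1
  obtain ⟨Cv1, hCv1⟩ := hvd T 1
  obtain ⟨Cu4, hCu4⟩ := hud T 4
  obtain ⟨Cv4, hCv4⟩ := hvd T 4
  set D1 := max Cu1 Cv1 with hD1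
  set D := max Cu4 Cv4 with hD
  have hDn : 0 ≤ D := ((mul_nonneg (pow_nonneg (nm_nonneg _) _) (norm_nonneg _)).trans
    (hCu4 0 ⟨le_rfl, hT⟩ 0)).trans (le_max_left _ _)
  set q := c ^ 2 * (3328 * D) ^ 2 / (2 * ν) with hq
  have hq0 : 0 ≤ q := by positivity
  set τ := 1 / (4 * (q + 1)) with hτ
  have hτ0 : 0 < τ := by positivity
  have hτq : q * τ ≤ 1 / 4 := by
    rw [hτ, mul_one_div, div_le_div_iff₀ (by positivity) (by norm_num)]
    linarith
  -- one step
  have step : ∀ t0 t1 : ℝ, 0 ≤ t0 → t1 ≤ T → t1 ≤ t0 + τ → u t0 = v t0 →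
      ∀ t ∈ Icc t0 t1, u t = v t := by
    intro t0 t1 ht0 ht1 ht01 heq
    have hbd : ∀ n : ℕ, ∀ t ∈ Icc t0 t1, ∀ k, nm k ^ 4 * ‖u t k - v t k‖ ≤ 2 * D / 2 ^ n := by
      intro n
      induction n with
      | zero =>
        intro t ht k
        have htT : t ∈ Icc 0 T := ⟨ht0.trans ht.1, ht.2.trans ht1⟩
        have h1 := (hCu4 t htT k).trans (le_max_left Cu4 Cv4)
        have h2 := (hCv4 t htT k).trans (le_max_right Cu4 Cv4)
        have h3 := mul_le_mul_of_nonneg_left (norm_sub_le (u t k) (v t k))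
          (pow_nonneg (nm_nonneg k) 4)
        rw [pow_zero, div_one]
        linarith
      | succ n ih =>
        intro t ht k
        set b := 2 * D / 2 ^ n with hb
        have hb0 : 0 ≤ b := by positivity
        by_cases hk : k = 0
        · subst hk
          have e1 : u t 0 = 0 := hz _ (hum t (ht0.trans ht.1) 0)
          have e2 : v t 0 = 0 := hz _ (hvm t (ht0.trans ht.1) 0)
          rw [e1, e2, sub_zero, norm_zero, mul_zero]
          positivity
        have hnk : 0 < nm k := lt_of_lt_of_le one_pos (one_le_nm k hk)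
        set σ := 3328 * (D * b) / nm k ^ 4 with hσ
        have hσ0 : 0 ≤ σ := by positivity
        have hB : ∀ s ∈ Icc t0 t1, ‖Binf (u s) k - Binf (v s) k‖ ≤ nm k * σ := by
          intro s hs
          have hs0 : 0 ≤ s := ht0.trans hs.1
          have hsT : s ∈ Icc 0 T := ⟨hs0, hs.2.trans ht1⟩
          have h1 := Binf_sub_le (u s) (v s) (fun k => hdiv k _ (hum s hs0 k))
            (fun k => hdiv k _ (hvm s hs0 k)) D1 D b (hz _ (hum s hs0 0)) (hz _ (hvm s hs0 0))
            (fun k => (hCu1 s hsT k).trans (le_max_left _ _))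
            (fun k => (hCv1 s hsT k).trans (le_max_right _ _))
            (fun k => (hCu4 s hsT k).trans (le_max_left _ _))
            (fun k => (hCv4 s hsT k).trans (le_max_right _ _)) (ih s hs) k
          rw [hσ, ← mul_div_assoc, le_div_iff₀ (by positivity), mul_comm]
          exact h1
        have hd : ∀ s ∈ Icc t0 t1, HasDerivWithinAt
            (fun r => ‖u r k - v r k‖ ^ 2 - (c ^ 2 * σ ^ 2 / (2 * ν)) * r)
            (2 * inner ℝ (u s k - v s k) ((V k).starProjection (((-(ν * nm k ^ 2) : ℝ) : ℂ) • u s k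
              - ((c : ℝ) : ℂ) • Binf (u s) k)
              - (V k).starProjection (((-(ν * nm k ^ 2) : ℝ) : ℂ) • v s k
              - ((c : ℝ) : ℂ) • Binf (v s) k)) - (c ^ 2 * σ ^ 2 / (2 * ν)) * 1)
            (Icc t0 t1) s := by
          intro s hs
          have hs0 : 0 ≤ s := ht0.trans hs.1
          have hsub : Icc t0 t1 ⊆ Ici 0 := fun r hr => ht0.trans hr.1
          have h1 := (((huo s hs0 k).sub (hvo s hs0 k)).norm_sq).mono hsub
          exact h1.sub ((hasDerivWithinAt_id s _).const_mul _)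
        have hle := le_of_deriv_nonpos' hd ?_ t ht
        · have e0 : ‖u t0 k - v t0 k‖ = 0 := by rw [heq, sub_self, norm_zero]
          have h1 : ‖u t k - v t k‖ ^ 2 ≤ c ^ 2 * σ ^ 2 / (2 * ν) * τ := by
            have h2 : c ^ 2 * σ ^ 2 / (2 * ν) * (t - t0) ≤ c ^ 2 * σ ^ 2 / (2 * ν) * τ := by
              refine mul_le_mul_of_nonneg_left ?_ (by positivity)
              linarith [ht.2]
            simp only [e0] at hle
            nlinarith
          have h2 : c ^ 2 * σ ^ 2 / (2 * ν) * τ = (q * τ) * (b / nm k ^ 4) ^ 2 := by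
            rw [hq, hσ]
            ring
          have h3 : ‖u t k - v t k‖ ^ 2 ≤ (b / 2 / nm k ^ 4) ^ 2 := by
            refine h1.trans ?_
            rw [h2]
            calc (q * τ) * (b / nm k ^ 4) ^ 2 ≤ 1 / 4 * (b / nm k ^ 4) ^ 2 :=
                  mul_le_mul_of_nonneg_right hτq (sq_nonneg _)
              _ = _ := by ring
          have h4 : ‖u t k - v t k‖ ≤ b / 2 / nm k ^ 4 :=
            (pow_le_pow_iff_left₀ (norm_nonneg _) (by positivity) two_ne_zero).mp h3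
          rw [le_div_iff₀ (by positivity)] at h4
          have h5 : 2 * D / 2 ^ (n + 1) = b / 2 := by
            rw [hb, pow_succ]; field_simp
          rw [h5, mul_comm]
          exact h4
        · intro s hs
          have hs0 : 0 ≤ s := ht0.trans hs.1
          have hmem : u s k - v s k ∈ V k := Submodule.sub_mem _ (hum s hs0 k) (hvm s hs0 k)
          have e1 : (V k).starProjection (((-(ν * nm k ^ 2) : ℝ) : ℂ) • u s k
              - ((c : ℝ) : ℂ) • Binf (u s) k)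
              - (V k).starProjection (((-(ν * nm k ^ 2) : ℝ) : ℂ) • v s k
              - ((c : ℝ) : ℂ) • Binf (v s) k)
              = (V k).starProjection (((-(ν * nm k ^ 2) : ℝ) : ℂ) • (u s k - v s k)
                - ((c : ℝ) : ℂ) • (Binf (u s) k - Binf (v s) k)) := by
            rw [← map_sub]
            congr 1
            module
          rw [e1, rinner, inner_proj _ _ _ hmem, inner_sub_right, inner_smul_right,
            inner_smul_right, inner_self_eq_norm_sq_to_K]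
          simp only [Complex.sub_re, Complex.re_ofReal_mul]
          have e2 : (((‖u s k - v s k‖ : ℝ) : ℂ) ^ 2).re = ‖u s k - v s k‖ ^ 2 := by
            rw [← Complex.ofReal_pow, Complex.ofReal_re]
          simp only [Complex.coe_algebraMap, e2]
          set w := ‖u s k - v s k‖ with hw
          set X := (inner ℂ (u s k - v s k) (Binf (u s) k - Binf (v s) k)).re with hX
          have h1 : |X| ≤ w * (nm k * σ) :=
            (Complex.abs_re_le_norm _).trans ((norm_inner_le_norm _ _).trans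
              (mul_le_mul_of_nonneg_left (hB s hs) (norm_nonneg _)))
          have h2 : -(c * X) ≤ |c| * (w * (nm k * σ)) := by
            have h3 := neg_abs_le (c * X)
            rw [abs_mul] at h3
            have h4 := mul_le_mul_of_nonneg_left h1 (abs_nonneg c)
            linarith
          have h3 : c ^ 2 * σ ^ 2 / (2 * ν) + 2 * (ν * nm k ^ 2 * w ^ 2)
              - 2 * (|c| * (w * (nm k * σ))) = (2 * ν * (nm k * w) - |c| * σ) ^ 2 / (2 * ν) := by
            have : c ^ 2 = |c| ^ 2 := (sq_abs c).symm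
            rw [this]
            field_simp
            ring
          have h4 : 0 ≤ (2 * ν * (nm k * w) - |c| * σ) ^ 2 / (2 * ν) := by positivity
          nlinarith
    intro t ht
    funext k
    by_cases hk : k = 0
    · subst hk
      rw [hz _ (hum t (ht0.trans ht.1) 0), hz _ (hvm t (ht0.trans ht.1) 0)]
    have hnk : 0 < nm k := lt_of_lt_of_le one_pos (one_le_nm k hk)
    have hlim : Tendsto (fun n : ℕ => 2 * D / 2 ^ n) atTop (𝓝 0) := by
      have h1 : Tendsto (fun n : ℕ => 2 * D * (1 / 2 : ℝ) ^ n) atTop (𝓝 (2 * D * 0)) :=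
        (tendsto_pow_atTop_nhds_zero_of_lt_one (by norm_num) (by norm_num)).const_mul _
      rw [mul_zero] at h1
      refine h1.congr fun n => ?_
      rw [one_div, inv_pow]
      ring
    have h2 : nm k ^ 4 * ‖u t k - v t k‖ ≤ 0 := ge_of_tendsto' hlim fun n => hbd n t ht k
    have h3 : ‖u t k - v t k‖ ≤ 0 := by
      have h4 : 0 < nm k ^ 4 := by positivity
      nlinarith [norm_nonneg (u t k - v t k)]
    exact sub_eq_zero.mp (norm_le_zero_iff.mp h3)
  -- iterate
  have hiter : ∀ n : ℕ, ∀ t, 0 ≤ t → t ≤ T → t ≤ n * τ → u t = v t := by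
    intro n
    induction n with
    | zero =>
      intro t ht _ ht2
      have : t = 0 := le_antisymm (by simpa using ht2) ht
      rw [this]; exact h0
    | succ n ih =>
      intro t ht htT ht2
      by_cases hc : t ≤ n * τ
      · exact ih t ht htT hc
      · push Not at hc
        have hn0 : 0 ≤ (n : ℝ) * τ := by positivity
        refine step (n * τ) t hn0 htT ?_ (ih _ hn0 (hc.le.trans htT) le_rfl) t ⟨hc.le, le_rfl⟩
        push_cast at ht2
        linarith
  obtain ⟨n, hn⟩ := exists_nat_ge (T / τ)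
  exact hiter n T hT le_rfl (by rwa [div_le_iff₀ hτ0] at hn)

end Pool.H217R3.Hel
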